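import Mathlib

set_option autoImplicit false

/-!
# Waring's problem with almost all real exponents, part A1 (helper7)

Elementary inequalities for `x ^ θ`, and the measure of a sublevel set.
-/

namespace Pool.Agent.J4H7.WE

open Real Set MeasureTheory

/-- lower bound of the logarithmic weight -/
lemma log_lower {θ Y x y : ℝ} (hθ : 0 ≤ θ) (hY : 1 ≤ Y) (hy : Y ≤ y) (hxy : y ≤ x) :
    Real.log Y * (x ^ θ - y ^ θ) ≤ x ^ θ * Real.log x - y ^ θ * Real.log y := by
  have hy0 : 0 < y := by linarith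
  have hx0 : 0 < x := by linarith
  have h1 : y ^ θ ≤ x ^ θ := Real.rpow_le_rpow hy0.le hxy hθ
  have h2 : Real.log Y ≤ Real.log y := Real.log_le_log (by linarith) hy
  have h3 : Real.log y ≤ Real.log x := Real.log_le_log hy0 hxy
  have h4 : 0 ≤ y ^ θ := Real.rpow_nonneg hy0.le _
  nlinarith [mul_nonneg (sub_nonneg.2 h1) (sub_nonneg.2 (h2.trans h3)), mul_nonneg h4 (sub_nonneg.2 h3)]

/-- upper bound of the logarithmic weight -/
lemma log_upper {θ Y x y : ℝ} (hθ : 1 ≤ θ) (hY : 1 ≤ Y) (hy : Y ≤ y) (hxy : y ≤ x) (hx : x ≤ 2 * Y) :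
    x ^ θ * Real.log x - y ^ θ * Real.log y ≤ (Real.log Y + 2) * (x ^ θ - y ^ θ) := by
  have hy0 : 0 < y := by linarith
  have hx0 : 0 < x := by linarith
  set L : ℝ := Real.log (x / y) with hL
  have hL0 : 0 ≤ L := Real.log_nonneg ((one_le_div hy0).2 hxy)
  have hLx : Real.log x = Real.log y + L := by
    rw [hL, Real.log_div hx0.ne' hy0.ne']; ring
  have hxt : x ^ θ = y ^ θ * Real.exp (θ * L) := by
    have : x = y * (x / y) := by field_simp
    conv_lhs => rw [this]
    rw [Real.mul_rpow hy0.le (by positivity), Real.rpow_def_of_pos (show 0 < x / y by positivity), ← hL, mul_comm L θ]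
  have h1 : Real.log x ≤ Real.log Y + 1 := by
    have : Real.log x ≤ Real.log (2 * Y) := Real.log_le_log hx0 hx
    rw [Real.log_mul (by norm_num) (by linarith)] at this
    have := Real.log_two_lt_d9
    linarith
  have h4 : 0 ≤ y ^ θ := Real.rpow_nonneg hy0.le _
  -- e^{θ L} (V - L) ≥ V with V = log Y + 2 - log y, V - L ≥ 1
  have h5 : (Real.log Y + 2 - Real.log y) ≤ Real.exp (θ * L) * (Real.log Y + 2 - Real.log x) := by
    have h6 : θ * L + 1 ≤ Real.exp (θ * L) := Real.add_one_le_exp _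
    have h7 : 1 ≤ Real.log Y + 2 - Real.log x := by linarith
    have h8 : L ≤ θ * L := by nlinarith
    calc (Real.log Y + 2 - Real.log y) = (Real.log Y + 2 - Real.log x) + L := by rw [hLx]; ring
      _ ≤ (Real.log Y + 2 - Real.log x) + θ * L * (Real.log Y + 2 - Real.log x) := by nlinarith
      _ = (θ * L + 1) * (Real.log Y + 2 - Real.log x) := by ring
      _ ≤ _ := by nlinarith
  rw [hxt]
  nlinarith [mul_le_mul_of_nonneg_left h5 h4]

/-- the difference of two powers -/
lemma pow_diff {θ Y x y : ℝ} (hθ : 1 ≤ θ) (hY : 0 < Y) (hy : Y ≤ y) (hxy : y ≤ x) :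
    (x - y) * Y ^ (θ - 1) ≤ x ^ θ - y ^ θ := by
  have hy0 : 0 < y := by linarith
  have hx0 : 0 < x := by linarith
  have h1 : ∀ z : ℝ, 0 < z → z ^ θ = z * z ^ (θ - 1) := by
    intro z hz
    rw [Real.rpow_sub_one hz.ne']
    field_simp
  have h2 : y ^ (θ - 1) ≤ x ^ (θ - 1) := Real.rpow_le_rpow hy0.le hxy (by linarith)
  have h3 : Y ^ (θ - 1) ≤ y ^ (θ - 1) := Real.rpow_le_rpow hY.le hy (by linarith)
  rw [h1 x hx0, h1 y hy0]
  nlinarith [mul_nonneg hx0.le (sub_nonneg.2 h2), mul_nonneg (sub_nonneg.2 hxy) (sub_nonneg.2 h3)]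

/-- sublevel sets: if `F' ≥ D` wherever `|F| ≤ t`, the set `|F| ≤ t` has diameter at most `2 t / D` -/
lemma sub_len {F F' : ℝ → ℝ} {a b t D : ℝ} (hF : ∀ x ∈ Icc a b, HasDerivAt F (F' x) x)
    (hD : 0 < D) (h : ∀ x ∈ Icc a b, |F x| ≤ t → D ≤ F' x) {u v : ℝ} (hu : u ∈ Icc a b) (hv : v ∈ Icc a b)
    (huv : u ≤ v) (hFu : |F u| ≤ t) (hFv : |F v| ≤ t) : v - u ≤ 2 * t / D := by
  have hsub : ∀ x ∈ Icc u v, x ∈ Icc a b := fun x hx => ⟨hu.1.trans hx.1, hx.2.trans hv.2⟩
  have hcont : ContinuousOn F (Icc u v) := fun x hx => (hF x (hsub x hx)).continuousAt.continuousWithinAt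
  -- F ≥ -t on [u, v]
  have h1 : ∀ ⦃x⦄, x ∈ Icc u v → -(F x) ≤ t := by
    refine image_le_of_deriv_right_lt_deriv_boundary (f := fun x => -(F x)) (f' := fun x => -(F' x)) (B := fun _ => t)
      (B' := fun _ => 0) hcont.neg (fun x hx => ?_) ?_ (fun x => hasDerivAt_const _ _) (fun x hx hx2 => ?_)
    · exact ((hF x (hsub x ⟨hx.1, hx.2.le⟩)).neg).hasDerivWithinAt
    · have := (abs_le.1 hFu).1
      change -(F u) ≤ t
      linarith
    · have hx3 : -(F x) = t := hx2
      have ht : 0 ≤ t := (abs_nonneg _).trans hFu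
      have := h x (hsub x ⟨hx.1, hx.2.le⟩) (by rw [abs_le]; constructor <;> linarith)
      change -(F' x) < 0
      linarith
  -- F ≤ t on [u, v]
  have h2 : ∀ ⦃x⦄, x ∈ Icc (-v) (-u) → F (-x) ≤ t := by
    refine image_le_of_deriv_right_lt_deriv_boundary (f := fun x => F (-x)) (f' := fun x => -(F' (-x))) (B := fun _ => t)
      (B' := fun _ => 0) ?_ (fun x hx => ?_) ?_ (fun x => hasDerivAt_const _ _) (fun x hx hx2 => ?_)
    · refine hcont.comp continuous_neg.continuousOn ?_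
      intro x hx
      exact ⟨by linarith [hx.2], by linarith [hx.1]⟩
    · have hx' : -x ∈ Icc u v := ⟨by linarith [hx.2], by linarith [hx.1]⟩
      have h3 := (hF (-x) (hsub _ hx'))
      have h4 : HasDerivAt (fun x : ℝ => F (-x)) (F' (-x) * (-1)) x := h3.comp x (hasDerivAt_neg x)
      have h5 : F' (-x) * (-1) = -(F' (-x)) := by ring
      rw [h5] at h4
      exact h4.hasDerivWithinAt
    · have := (abs_le.1 hFv).2
      change F (- -v) ≤ t
      rw [neg_neg]
      exact this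
    · have hx' : -x ∈ Icc u v := ⟨by linarith [hx.2], by linarith [hx.1]⟩
      have hx3 : F (-x) = t := hx2
      have ht : 0 ≤ t := (abs_nonneg _).trans hFu
      have := h (-x) (hsub _ hx') (by rw [abs_le]; constructor <;> linarith)
      change -(F' (-x)) < 0
      linarith
  have h3 : ∀ x ∈ Icc u v, |F x| ≤ t := by
    intro x hx
    rw [abs_le]
    constructor
    · linarith [h1 hx]
    · have := h2 (x := -x) ⟨by linarith [hx.2], by linarith [hx.1]⟩
      rw [neg_neg] at this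
      exact this
  have h4 : ∀ x ∈ Icc u v, D ≤ F' x := fun x hx => h x (hsub x hx) (h3 x hx)
  have h5 : D * (v - u) ≤ F v - F u := by
    refine Convex.mul_sub_le_image_sub_of_le_deriv (convex_Icc u v) hcont ?_ ?_ u (left_mem_Icc.2 huv) v (right_mem_Icc.2 huv) huv
    · intro x hx
      rw [interior_Icc] at hx
      exact (hF x (hsub x ⟨hx.1.le, hx.2.le⟩)).differentiableAt.differentiableWithinAt
    · intro x hx
      rw [interior_Icc] at hx
      rw [(hF x (hsub x ⟨hx.1.le, hx.2.le⟩)).deriv]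
      exact h4 x ⟨hx.1.le, hx.2.le⟩
  rw [le_div_iff₀ hD]
  have := (abs_le.1 hFu).1
  have := (abs_le.1 hFv).2
  linarith

/-- the measure of the sublevel set -/
lemma sub_vol {F F' : ℝ → ℝ} {a b t D : ℝ} (hF : ∀ x ∈ Icc a b, HasDerivAt F (F' x) x)
    (hD : 0 < D) (h : ∀ x ∈ Icc a b, |F x| ≤ t → D ≤ F' x) :
    volume {x | x ∈ Icc a b ∧ |F x| ≤ t} ≤ ENNReal.ofReal (2 * t / D) := by
  set E : Set ℝ := {x | x ∈ Icc a b ∧ |F x| ≤ t} with hE
  have h1 : Metric.ediam E ≤ ENNReal.ofReal (2 * t / D) := by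
    refine Metric.ediam_le fun x hx y hy => ?_
    rw [edist_dist]
    apply ENNReal.ofReal_le_ofReal
    rw [Real.dist_eq]
    rcases le_total x y with hxy | hxy
    · rw [abs_sub_comm, abs_of_nonneg (by linarith)]
      exact sub_len hF hD h hx.1 hy.1 hxy hx.2 hy.2
    · rw [abs_of_nonneg (by linarith)]
      exact sub_len hF hD h hy.1 hx.1 hxy hy.2 hx.2
  exact (Real.volume_le_diam E).trans h1

end Pool.Agent.J4H7.WE
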