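import Pool.Agent.J4H7.WE.A1

set_option autoImplicit false

/-!
# Waring's problem with almost all real exponents, part A2 (helper7)

The derivative with respect to the exponent.
-/

namespace Pool.Agent.J4H7.WE

open Real Set MeasureTheory

/-- the levels `X ^ (q ^ i)` -/
noncomputable def lev (q X : ℝ) (i : ℕ) : ℝ := X ^ (q ^ i)

/-- the integers in `[lev, 2 lev]` -/
noncomputable def SS (q X : ℝ) (i : ℕ) : Finset ℕ := Finset.Icc ⌈lev q X i⌉₊ ⌊2 * lev q X i⌋₊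

lemma lev_pos {q X : ℝ} (hX : 1 ≤ X) (i : ℕ) : 0 < lev q X i := Real.rpow_pos_of_pos (by linarith) _

lemma one_le_lev {q X : ℝ} (hq : 0 ≤ q) (hX : 1 ≤ X) (i : ℕ) : 1 ≤ lev q X i :=
  Real.one_le_rpow hX (by positivity)

lemma mem_SS {q X : ℝ} (hX : 1 ≤ X) {i n : ℕ} : n ∈ SS q X i ↔ lev q X i ≤ n ∧ (n : ℝ) ≤ 2 * lev q X i := by
  unfold SS
  rw [Finset.mem_Icc, Nat.ceil_le, Nat.le_floor_iff (by have := lev_pos (q := q) hX i; linarith)]

lemma lev_add {q X : ℝ} (hX : 1 ≤ X) (i k : ℕ) : lev q X (i + k) = lev q X i ^ (q ^ k) := by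
  unfold lev
  rw [← Real.rpow_mul (by linarith), pow_add]

lemma lev_anti {q X : ℝ} (hq : 0 < q) (hq1 : q < 1) (hX : 1 ≤ X) {i k : ℕ} (h : i ≤ k) : lev q X k ≤ lev q X i :=
  Real.rpow_le_rpow_of_exponent_le hX (pow_le_pow_of_le_one hq.le hq1.le h)

/-- the form -/
noncomputable def FF {m : ℕ} (p : Fin m → ℕ × ℕ) (θ : ℝ) : ℝ := ∑ i, (((p i).1 : ℝ) ^ θ - ((p i).2 : ℝ) ^ θ)

/-- its derivative -/
noncomputable def FD {m : ℕ} (p : Fin m → ℕ × ℕ) (θ : ℝ) : ℝ :=
  ∑ i, (((p i).1 : ℝ) ^ θ * Real.log (p i).1 - ((p i).2 : ℝ) ^ θ * Real.log (p i).2)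

lemma FF_deriv {m : ℕ} (p : Fin m → ℕ × ℕ) (hp : ∀ i, 1 ≤ (p i).1 ∧ 1 ≤ (p i).2) (θ : ℝ) :
    HasDerivAt (FF p) (FD p θ) θ := by
  unfold FF FD
  refine HasDerivAt.fun_sum fun i _ => ?_
  have h1 : (0 : ℝ) < (p i).1 := by exact_mod_cast (hp i).1
  have h2 : (0 : ℝ) < (p i).2 := by exact_mod_cast (hp i).2
  exact (Real.hasStrictDerivAt_const_rpow h1 θ).hasDerivAt.sub (Real.hasStrictDerivAt_const_rpow h2 θ).hasDerivAt

/-- the size condition -/
def CC (q a b t : ℝ) (m : ℕ) (u : ℝ) : Prop := 4 ≤ (1 - q) * Real.log u ∧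
  (Real.log u + 2) * t + m * (2 ^ b * u ^ (q ^ 2 * b) * (2 * Real.log u + 3)) ≤ u ^ (a - 1)

lemma term_small {q X b θ : ℝ} (hq : 0 < q) (hq1 : q < 1) (hX : 1 ≤ X) (hθ : 1 ≤ θ) (hθb : θ ≤ b) {i0 i : ℕ}
    (hi : i0 + 2 ≤ i) {x y : ℕ} (hx : x ∈ SS q X i) (hy : y ∈ SS q X i) {V : ℝ} (hV0 : 0 ≤ V)
    (hV : V ≤ Real.log (lev q X i0) + 2) :
    -(2 ^ b * (lev q X i0) ^ (q ^ 2 * b) * (2 * Real.log (lev q X i0) + 3)) ≤
      ((x : ℝ) ^ θ * Real.log x - (y : ℝ) ^ θ * Real.log y) - V * ((x : ℝ) ^ θ - (y : ℝ) ^ θ) := by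
  set u := lev q X i0 with hu
  have hu1 : 1 ≤ u := one_le_lev hq.le hX _
  have hl1 : 1 ≤ lev q X i := one_le_lev hq.le hX _
  have hlu2 : lev q X i ≤ u ^ (q ^ 2) := by
    rw [hu, ← lev_add hX]
    exact lev_anti hq hq1 hX hi
  have hlu : lev q X i ≤ u := by
    rw [hu]; exact lev_anti hq hq1 hX (by omega)
  have hb : 1 ≤ b := hθ.trans hθb
  have key : ∀ z : ℕ, z ∈ SS q X i → 0 ≤ (z : ℝ) ^ θ ∧ (z : ℝ) ^ θ ≤ 2 ^ b * u ^ (q ^ 2 * b) ∧
      0 ≤ Real.log z ∧ Real.log z ≤ Real.log u + 1 := by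
    intro z hz
    rw [mem_SS hX] at hz
    have hz1 : (1 : ℝ) ≤ z := hl1.trans hz.1
    refine ⟨Real.rpow_nonneg (by linarith) _, ?_, Real.log_nonneg hz1, ?_⟩
    · calc (z : ℝ) ^ θ ≤ (z : ℝ) ^ b := Real.rpow_le_rpow_of_exponent_le hz1 hθb
        _ ≤ (2 * u ^ (q ^ 2)) ^ b := Real.rpow_le_rpow (by linarith) (by linarith [hz.2]) (by linarith)
        _ = 2 ^ b * u ^ (q ^ 2 * b) := by
          rw [Real.mul_rpow (by norm_num) (by positivity), ← Real.rpow_mul (by linarith)]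
    · have h1 : Real.log z ≤ Real.log (2 * u) := Real.log_le_log (by linarith) (by linarith [hz.2])
      rw [Real.log_mul (by norm_num) (by linarith)] at h1
      have := Real.log_two_lt_d9
      linarith
  obtain ⟨hx0, hx1, hx2, hx3⟩ := key x hx
  obtain ⟨hy0, hy1, hy2, hy3⟩ := key y hy
  set E : ℝ := 2 ^ b * u ^ (q ^ 2 * b) with hE
  have hE0 : 0 ≤ E := by positivity
  have hlu0 : 0 ≤ Real.log u := Real.log_nonneg hu1
  have a1 : 0 ≤ (x : ℝ) ^ θ * Real.log x := mul_nonneg hx0 hx2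
  have a2 : (y : ℝ) ^ θ * Real.log y ≤ E * (Real.log u + 1) := mul_le_mul hy1 hy3 hy2 hE0
  have a3 : V * (x : ℝ) ^ θ ≤ (Real.log u + 2) * E := mul_le_mul hV hx1 hx0 (by linarith)
  have a4 : 0 ≤ V * (y : ℝ) ^ θ := mul_nonneg hV0 hy0
  nlinarith

/-- the derivative is large where the form is not too negative -/
lemma FD_lower {q X a b θ t : ℝ} {m : ℕ} (hq : 0 < q) (hq1 : q < 1) (hX : 1 ≤ X) (ha : 1 ≤ a) (haθ : a ≤ θ) (hθb : θ ≤ b)
    (ht : 0 ≤ t) (p : Fin m → ℕ × ℕ) (hp : ∀ i : Fin m, (p i).1 ∈ SS q X i ∧ (p i).2 ∈ SS q X i) (i0 : Fin m)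
    (h0 : ∀ i, i < i0 → (p i).1 = (p i).2) (h1 : (p i0).2 < (p i0).1) (hc : CC q a b t m (lev q X i0))
    (hF : -t ≤ FF p θ) :
    (((p i0).1 : ℝ) - (p i0).2) * (lev q X i0) ^ (a - 1) ≤ FD p θ := by
  set u := lev q X i0 with hu
  have hu1 : 1 ≤ u := one_le_lev hq.le hX _
  have hθ : 1 ≤ θ := ha.trans haθ
  have hlu0 : 0 ≤ Real.log u := Real.log_nonneg hu1
  set e : ℝ := 2 ^ b * u ^ (q ^ 2 * b) * (2 * Real.log u + 3) with he
  have he0 : 0 ≤ e := by positivity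
  set D : Fin m → ℝ := fun i => ((p i).1 : ℝ) ^ θ - ((p i).2 : ℝ) ^ θ with hD
  set D' : Fin m → ℝ := fun i => ((p i).1 : ℝ) ^ θ * Real.log (p i).1 - ((p i).2 : ℝ) ^ θ * Real.log (p i).2 with hD'
  have hx0 := (mem_SS hX).1 (hp i0).1
  have hy0 := (mem_SS hX).1 (hp i0).2
  rw [← hu] at hx0 hy0
  have hxy : ((p i0).2 : ℝ) + 1 ≤ (p i0).1 := by exact_mod_cast h1
  -- general estimate
  have gen : ∀ V : ℝ, 0 ≤ V → V ≤ Real.log u + 2 → (∀ i : Fin m, (i : ℕ) = i0 + 1 → 0 ≤ D' i - V * D i) →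
      V * FF p θ + (Real.log u - V) * D i0 - m * e ≤ FD p θ := by
    intro V hV0 hV hV1
    have t1 : ∀ i : Fin m, (if i = i0 then (Real.log u - V) * D i0 else 0) - e ≤ D' i - V * D i := by
      intro i
      rcases lt_trichotomy i i0 with hi | hi | hi
      · rw [if_neg (ne_of_lt hi)]
        have : (p i).1 = (p i).2 := h0 i hi
        simp only [hD, hD', this, sub_self, mul_zero]
        linarith
      · subst hi
        rw [if_pos rfl]
        have h2 := log_lower (θ := θ) (Y := u) (x := ((p i).1 : ℝ)) (y := ((p i).2 : ℝ)) (by linarith) hu1 hy0.1 (by linarith)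
        simp only [hD, hD']
        nlinarith
      · rw [if_neg (ne_of_gt hi)]
        have hi' : (i0 : ℕ) < i := hi
        rcases Nat.lt_or_ge (i : ℕ) (i0 + 2) with h3 | h3
        · have := hV1 i (by omega)
          linarith
        · have := term_small hq hq1 hX hθ hθb h3 (hp i).1 (hp i).2 hV0 hV
          simp only [hD, hD']
          linarith
    have t2 := Finset.sum_le_sum fun i (_ : i ∈ Finset.univ) => t1 i
    rw [Finset.sum_sub_distrib, Finset.sum_sub_distrib, Finset.sum_ite_eq' Finset.univ i0, if_pos (Finset.mem_univ _),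
      Finset.sum_const, Finset.card_univ, Fintype.card_fin, nsmul_eq_mul, ← Finset.mul_sum] at t2
    have e1 : ∑ i, D i = FF p θ := rfl
    have e2 : ∑ i, D' i = FD p θ := rfl
    rw [e1, e2] at t2
    linarith
  have hD0 : (((p i0).1 : ℝ) - (p i0).2) * u ^ (θ - 1) ≤ D i0 :=
    pow_diff hθ (by linarith) hy0.1 (by linarith)
  have hua : u ^ (a - 1) ≤ u ^ (θ - 1) := Real.rpow_le_rpow_of_exponent_le hu1 (by linarith)
  have hua0 : 0 < u ^ (a - 1) := Real.rpow_pos_of_pos (by linarith) _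
  have hD1 : (((p i0).1 : ℝ) - (p i0).2) * u ^ (a - 1) ≤ D i0 :=
    (mul_le_mul_of_nonneg_left hua (by linarith)).trans hD0
  have hD2 : u ^ (a - 1) ≤ D i0 := by nlinarith
  obtain ⟨hc1, hc2⟩ := hc
  rw [← he] at hc2
  by_cases hex : ∃ i : Fin m, (i : ℕ) = i0 + 1 ∧ (p i).1 ≤ (p i).2
  · obtain ⟨i, hi, hle⟩ := hex
    have hlev : lev q X i = u ^ q := by
      rw [hi, hu, lev_add hX, pow_one]
    have hloglev : Real.log (lev q X i) = q * Real.log u := by
      rw [hlev, Real.log_rpow (by linarith)]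
    have hV : q * Real.log u + 2 ≤ Real.log u + 2 := by nlinarith
    have g := gen (q * Real.log u + 2) (by positivity) hV (by
      intro i' hi'
      have : i' = i := Fin.ext (by omega)
      subst this
      have hx := (mem_SS hX).1 (hp i').1
      have hy := (mem_SS hX).1 (hp i').2
      have h2 := log_upper (θ := θ) (Y := lev q X i') (x := ((p i').2 : ℝ)) (y := ((p i').1 : ℝ)) hθ
        (one_le_lev hq.le hX _) hx.1 (by exact_mod_cast hle) hy.2
      rw [hloglev] at h2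
      simp only [hD, hD']
      nlinarith)
    have g1 : -((Real.log u + 2) * t) ≤ (q * Real.log u + 2) * FF p θ := by
      have h3 : (q * Real.log u + 2) * (-t) ≤ (q * Real.log u + 2) * FF p θ :=
        mul_le_mul_of_nonneg_left hF (by positivity)
      nlinarith
    have g2 : 2 * D i0 ≤ (Real.log u - (q * Real.log u + 2)) * D i0 := by
      apply mul_le_mul_of_nonneg_right _ (by linarith)
      linarith
    linarith
  · push Not at hex
    have g := gen 0 le_rfl (by linarith) (by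
      intro i' hi'
      have hlt := hex i' hi'
      have hx := (mem_SS hX).1 (hp i').1
      have hy := (mem_SS hX).1 (hp i').2
      have hlt' : ((p i').2 : ℝ) ≤ (p i').1 := by exact_mod_cast hlt.le
      have h2 := log_lower (θ := θ) (Y := lev q X i') (x := ((p i').1 : ℝ)) (y := ((p i').2 : ℝ)) (by linarith)
        (one_le_lev hq.le hX _) hy.1 hlt'
      have h3 : 0 ≤ Real.log (lev q X i') := Real.log_nonneg (one_le_lev hq.le hX _)
      have h4 : ((p i').2 : ℝ) ^ θ ≤ ((p i').1 : ℝ) ^ θ := Real.rpow_le_rpow (by positivity) hlt' (by linarith)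
      simp only [hD']
      nlinarith)
    have g1 : 0 ≤ (Real.log u + 2) * t := by positivity
    have g2 : 2 * D i0 ≤ (Real.log u - 0) * D i0 := by
      apply mul_le_mul_of_nonneg_right _ (by linarith)
      nlinarith
    linarith

end Pool.Agent.J4H7.WE
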