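import Pool.Agent.J4H7.WE.A2

set_option autoImplicit false

/-!
# Waring's problem with almost all real exponents, part A3 (helper7)

The measure of the exponents with a given near-coincidence.
-/

namespace Pool.Agent.J4H7.WE

open Real Set MeasureTheory Filter Topology Asymptotics

lemma ev_log {s : ℝ} (hs : 0 < s) (A B : ℝ) {c : ℝ} (hc : 0 < c) : ∀ᶠ u : ℝ in atTop, A * Real.log u + B ≤ c * u ^ s := by
  have h1 : (fun u : ℝ => A * Real.log u) =o[atTop] fun u : ℝ => u ^ s := (isLittleO_log_rpow_atTop hs).const_mul_left A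
  have h2 : (fun _ : ℝ => B) =o[atTop] fun u : ℝ => u ^ s := by
    rw [isLittleO_const_left]
    right
    exact tendsto_norm_atTop_atTop.comp (tendsto_rpow_atTop hs)
  have h3 := (h1.add h2).bound hc
  filter_upwards [h3, eventually_ge_atTop 0] with u hu hu0
  rw [Real.norm_of_nonneg (Real.rpow_nonneg hu0 _)] at hu
  exact (le_abs_self _).trans hu

lemma ev_CC {q a b t : ℝ} {m : ℕ} (hq : 0 < q) (hq1 : q < 1) (ha : 1 < a) (h : q ^ 2 * b < a - 1) :
    ∀ᶠ u : ℝ in atTop, CC q a b t m u := by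
  have h1 : ∀ᶠ u : ℝ in atTop, 4 ≤ (1 - q) * Real.log u :=
    (Real.tendsto_log_atTop.const_mul_atTop (by linarith)).eventually_ge_atTop 4
  have h2 : ∀ᶠ u : ℝ in atTop, t * Real.log u + 2 * t ≤ 1 / 2 * u ^ (a - 1) := ev_log (by linarith) _ _ (by norm_num)
  have hm : (0 : ℝ) < m * 2 ^ b + 1 := by positivity
  have h3 : ∀ᶠ u : ℝ in atTop, 2 * Real.log u + 3 ≤ 1 / (2 * (m * 2 ^ b + 1)) * u ^ (a - 1 - q ^ 2 * b) :=
    ev_log (by linarith) _ _ (by positivity)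
  filter_upwards [h1, h2, h3, eventually_ge_atTop 1] with u g1 g2 g3 g4
  refine ⟨g1, ?_⟩
  have hu0 : (0 : ℝ) < u := by linarith
  have e1 : u ^ (a - 1 - q ^ 2 * b) = u ^ (a - 1) / u ^ (q ^ 2 * b) := by rw [Real.rpow_sub hu0]
  have hP : 0 < u ^ (q ^ 2 * b) := Real.rpow_pos_of_pos hu0 _
  have hQ : 0 < u ^ (a - 1) := Real.rpow_pos_of_pos hu0 _
  have g5 : (m : ℝ) * (2 ^ b * u ^ (q ^ 2 * b) * (2 * Real.log u + 3)) ≤ 1 / 2 * u ^ (a - 1) := by
    calc (m : ℝ) * (2 ^ b * u ^ (q ^ 2 * b) * (2 * Real.log u + 3))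
        ≤ (m : ℝ) * (2 ^ b * u ^ (q ^ 2 * b) * (1 / (2 * (m * 2 ^ b + 1)) * (u ^ (a - 1) / u ^ (q ^ 2 * b)))) := by
          rw [← e1]
          gcongr
      _ = (m * 2 ^ b / (m * 2 ^ b + 1)) * (1 / 2 * u ^ (a - 1)) := by
          field_simp
      _ ≤ 1 * (1 / 2 * u ^ (a - 1)) := by
          apply mul_le_mul_of_nonneg_right _ (by positivity)
          rw [div_le_one hm]
          linarith
      _ = _ := one_mul _
  linarith

/-- all levels satisfy the size condition -/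
lemma ev_lev {q : ℝ} (hq : 0 < q) (hq1 : q < 1) (m : ℕ) {P : ℝ → Prop} (hP : ∀ᶠ u : ℝ in atTop, P u) :
    ∀ᶠ X : ℝ in atTop, ∀ i : ℕ, i ≤ m → P (lev q X i) := by
  obtain ⟨u0, hu0⟩ := eventually_atTop.1 hP
  have h1 : ∀ᶠ X : ℝ in atTop, u0 ≤ X ^ (q ^ m) := (tendsto_rpow_atTop (by positivity)).eventually_ge_atTop u0
  filter_upwards [h1, eventually_ge_atTop 1] with X g1 g2 i hi
  apply hu0
  exact g1.trans (lev_anti hq hq1 g2 hi)

/-- swapping -/
lemma FF_swap {m : ℕ} (p : Fin m → ℕ × ℕ) (θ : ℝ) : FF (fun i => (p i).swap) θ = -FF p θ := by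
  unfold FF
  rw [← Finset.sum_neg_distrib]
  exact Finset.sum_congr rfl fun i _ => by simp

/-- the measure of the exponents -/
lemma vol_le {q X a b t : ℝ} {m : ℕ} (hq : 0 < q) (hq1 : q < 1) (hX : 1 ≤ X) (ha : 1 ≤ a)
    (ht : 0 ≤ t) (p : Fin m → ℕ × ℕ) (hp : ∀ i : Fin m, (p i).1 ∈ SS q X i ∧ (p i).2 ∈ SS q X i) (i0 : Fin m)
    (h0 : ∀ i, i < i0 → (p i).1 = (p i).2) (h1 : (p i0).1 ≠ (p i0).2) (hc : CC q a b t m (lev q X i0)) :
    volume {θ | θ ∈ Icc a b ∧ |FF p θ| ≤ t} ≤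
      ENNReal.ofReal (2 * t * (1 / |((p i0).1 : ℝ) - (p i0).2|) * (lev q X i0) ^ (1 - a)) := by
  have main : ∀ p : Fin m → ℕ × ℕ, (∀ i : Fin m, (p i).1 ∈ SS q X i ∧ (p i).2 ∈ SS q X i) →
      (∀ i, i < i0 → (p i).1 = (p i).2) → (p i0).2 < (p i0).1 →
      volume {θ | θ ∈ Icc a b ∧ |FF p θ| ≤ t} ≤
        ENNReal.ofReal (2 * t * (1 / |((p i0).1 : ℝ) - (p i0).2|) * (lev q X i0) ^ (1 - a)) := by
    intro p hp h0 h1
    have hp1 : ∀ i, 1 ≤ (p i).1 ∧ 1 ≤ (p i).2 := by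
      intro i
      have g1 := (mem_SS hX).1 (hp i).1
      have g2 := (mem_SS hX).1 (hp i).2
      have g3 := one_le_lev hq.le hX (i : ℕ)
      constructor
      · exact_mod_cast g3.trans g1.1
      · exact_mod_cast g3.trans g2.1
    have hlt : ((p i0).2 : ℝ) < (p i0).1 := by exact_mod_cast h1
    have hu := lev_pos (q := q) hX (i0 : ℕ)
    have hD : 0 < (((p i0).1 : ℝ) - (p i0).2) * (lev q X i0) ^ (a - 1) :=
      mul_pos (by linarith) (Real.rpow_pos_of_pos hu _)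
    refine (sub_vol (F := FF p) (F' := FD p) (fun x _ => FF_deriv p hp1 x) hD fun x hx hx2 =>
      FD_lower hq hq1 hX ha hx.1 hx.2 ht p hp i0 h0 h1 hc (abs_le.1 hx2).1).trans ?_
    apply ENNReal.ofReal_le_ofReal
    rw [abs_of_pos (by linarith), show (1 - a) = -(a - 1) by ring, Real.rpow_neg hu.le]
    apply le_of_eq
    have h2 : (((p i0).1 : ℝ) - (p i0).2) ≠ 0 := by
      intro h; linarith
    have h3 : (lev q X i0) ^ (a - 1) ≠ 0 := (Real.rpow_pos_of_pos hu _).ne'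
    field_simp
  rcases lt_or_gt_of_ne h1 with h2 | h2
  · have h3 := main (fun i => (p i).swap) (fun i => ⟨(hp i).2, (hp i).1⟩) (fun i hi => (h0 i hi).symm) h2
    simp only [FF_swap, abs_neg, Prod.fst_swap, Prod.snd_swap] at h3
    rw [abs_sub_comm] at h3
    exact h3
  · exact main p hp h0 h2

end Pool.Agent.J4H7.WE
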