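import Pool.Agent.J4H7.WE.A3

set_option autoImplicit false

/-!
# Waring's problem with almost all real exponents, part A4 (helper7)

The sum of the measures over all pairs.
-/

namespace Pool.Agent.J4H7.WE

open Real Set MeasureTheory Filter Topology Asymptotics

/-- half of the off-diagonal sum -/
lemma half_sum (S : Finset ℕ) (n x : ℕ) (hS : ∀ y ∈ S, y ≤ n) (hx : x ≤ n) :
    ∑ y ∈ S.filter (fun y => y < x), 1 / ((x : ℝ) - y) ≤ 1 + Real.log n ∧
    ∑ y ∈ S.filter (fun y => x < y), 1 / ((y : ℝ) - x) ≤ 1 + Real.log n := by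
  have hh : ∑ h ∈ Finset.Icc 1 n, 1 / (h : ℝ) ≤ 1 + Real.log n := by
    have h1 := harmonic_le_one_add_log n
    rw [harmonic_eq_sum_Icc] at h1
    push_cast at h1
    simpa [one_div] using h1
  have gen : ∀ (A : Finset ℕ) (g : ℕ → ℕ), Set.InjOn g A → (∀ y ∈ A, 1 ≤ g y ∧ g y ≤ n) →
      ∑ y ∈ A, 1 / ((g y : ℕ) : ℝ) ≤ 1 + Real.log n := by
    intro A g hg hA
    refine le_trans ?_ hh
    rw [← Finset.sum_image (f := fun h : ℕ => 1 / (h : ℝ)) hg]
    apply Finset.sum_le_sum_of_subset_of_nonneg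
    · intro h hh
      obtain ⟨y, hy, rfl⟩ := Finset.mem_image.1 hh
      exact Finset.mem_Icc.2 (hA y hy)
    · intro h _ _
      positivity
  constructor
  · refine le_trans (le_of_eq ?_) (gen (S.filter fun y => y < x) (fun y => x - y) ?_ ?_)
    · refine Finset.sum_congr rfl fun y hy => ?_
      have := (Finset.mem_filter.1 hy).2
      rw [Nat.cast_sub this.le]
    · intro y hy z hz h
      have h1 := (Finset.mem_filter.1 (Finset.mem_coe.1 hy)).2
      have h2 := (Finset.mem_filter.1 (Finset.mem_coe.1 hz)).2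
      simp only at h
      omega
    · intro y hy
      have := (Finset.mem_filter.1 hy).2
      omega
  · refine le_trans (le_of_eq ?_) (gen (S.filter fun y => x < y) (fun y => y - x) ?_ ?_)
    · refine Finset.sum_congr rfl fun y hy => ?_
      have := (Finset.mem_filter.1 hy).2
      rw [Nat.cast_sub this.le]
    · intro y hy z hz h
      have h1 := (Finset.mem_filter.1 (Finset.mem_coe.1 hy)).2
      have h2 := (Finset.mem_filter.1 (Finset.mem_coe.1 hz)).2
      simp only at h
      omega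
    · intro y hy
      have h1 := (Finset.mem_filter.1 hy).2
      have h2 := hS y (Finset.mem_filter.1 hy).1
      omega

/-- the weight of a pair -/
noncomputable def od (z : ℕ × ℕ) : ℝ := if z.1 = z.2 then 0 else 1 / |(z.1 : ℝ) - z.2|

lemma od_nonneg (z : ℕ × ℕ) : 0 ≤ od z := by
  unfold od
  split_ifs <;> positivity

lemma od_sum (S : Finset ℕ) (n : ℕ) (hS : ∀ y ∈ S, y ≤ n) :
    ∑ z ∈ S ×ˢ S, od z ≤ S.card * (2 * (1 + Real.log n)) := by
  rw [Finset.sum_product]
  refine (Finset.sum_le_card_nsmul S _ (2 * (1 + Real.log n)) fun x hx => ?_).trans (le_of_eq (nsmul_eq_mul _ _))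
  obtain ⟨h1, h2⟩ := half_sum S n x hS (hS x hx)
  have h3 : ∑ y ∈ S, od (x, y) = ∑ y ∈ S.filter (fun y => y < x), 1 / ((x : ℝ) - y) +
      ∑ y ∈ S.filter (fun y => x < y), 1 / ((y : ℝ) - x) := by
    rw [Finset.sum_filter, Finset.sum_filter, ← Finset.sum_add_distrib]
    refine Finset.sum_congr rfl fun y _ => ?_
    unfold od
    rcases lt_trichotomy y x with h | h | h
    · have h' : (y : ℝ) < x := by exact_mod_cast h
      rw [if_neg (by simpa using (ne_of_gt h)), if_pos h, if_neg (by omega), add_zero, abs_of_pos (by simpa using h')]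
    · subst h
      simp
    · have h' : (x : ℝ) < y := by exact_mod_cast h
      rw [if_neg (by simpa using (ne_of_lt h)), if_neg (by omega), if_pos h, zero_add]
      simp only
      rw [abs_sub_comm, abs_of_pos (by linarith)]
  rw [h3]
  linarith

lemma SS_card {q X : ℝ} (hq : 0 ≤ q) (hX : 1 ≤ X) (i : ℕ) : ((SS q X i).card : ℝ) ≤ 2 * lev q X i := by
  have h1 := one_le_lev hq hX i
  unfold SS
  rw [Nat.card_Icc]
  have h2 : (⌊2 * lev q X i⌋₊ : ℝ) ≤ 2 * lev q X i := Nat.floor_le (by linarith)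
  have h3 : lev q X i ≤ (⌈lev q X i⌉₊ : ℝ) := Nat.le_ceil _
  have h4 : ⌈lev q X i⌉₊ ≤ ⌊2 * lev q X i⌋₊ + 1 := by
    have h5 : (⌈lev q X i⌉₊ : ℝ) < lev q X i + 1 := Nat.ceil_lt_add_one (by linarith)
    have h6 : 2 * lev q X i < (⌊2 * lev q X i⌋₊ : ℝ) + 1 := Nat.lt_floor_add_one _
    have h7 : (⌈lev q X i⌉₊ : ℝ) < ((⌊2 * lev q X i⌋₊ + 1 + 1 : ℕ) : ℝ) := by
      push_cast
      linarith
    have h8 : ⌈lev q X i⌉₊ < ⌊2 * lev q X i⌋₊ + 1 + 1 := by exact_mod_cast h7
    omega
  rw [Nat.cast_sub h4]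
  push_cast
  linarith

/-- the pairs -/
noncomputable def PPs (q X : ℝ) (m : ℕ) : Finset (Fin m → ℕ × ℕ) :=
  Fintype.piFinset fun i : Fin m => SS q X i ×ˢ SS q X i

lemma mem_PPs {q X : ℝ} {m : ℕ} {p : Fin m → ℕ × ℕ} :
    p ∈ PPs q X m ↔ ∀ i : Fin m, (p i).1 ∈ SS q X i ∧ (p i).2 ∈ SS q X i := by
  unfold PPs
  simp [Fintype.mem_piFinset, Finset.mem_product]

/-- the weights -/
noncomputable def psi {m : ℕ} (i0 i : Fin m) (z : ℕ × ℕ) : ℝ :=
  if i < i0 then (if z.1 = z.2 then 1 else 0) else if i = i0 then od z else 1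

lemma psi_nonneg {m : ℕ} (i0 i : Fin m) (z : ℕ × ℕ) : 0 ≤ psi i0 i z := by
  unfold psi
  split_ifs
  · norm_num
  · norm_num
  · exact od_nonneg z
  · norm_num

/-- the measure of the exponents, in terms of weights -/
lemma vol_le' {q X a b t : ℝ} {m : ℕ} (hq : 0 < q) (hq1 : q < 1) (hX : 1 ≤ X) (ha : 1 ≤ a) (hab : a ≤ b)
    (ht : 0 ≤ t) (p : Fin m → ℕ × ℕ) (hp : p ∈ PPs q X m) (hc : ∀ i : Fin m, CC q a b t m (lev q X i)) :
    volume {θ | θ ∈ Icc a b ∧ |FF p θ| ≤ t} ≤
      ENNReal.ofReal ((b - a) * ∏ i, (if (p i).1 = (p i).2 then (1 : ℝ) else 0) +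
        ∑ i0 : Fin m, 2 * t * (lev q X i0) ^ (1 - a) * ∏ i, psi i0 i (p i)) := by
  rw [mem_PPs] at hp
  have hnn : ∀ i0 : Fin m, 0 ≤ 2 * t * (lev q X i0) ^ (1 - a) * ∏ i, psi i0 i (p i) := by
    intro i0
    have h1 := (Real.rpow_pos_of_pos (lev_pos (q := q) hX (i0 : ℕ)) (1 - a)).le
    have h2 : 0 ≤ ∏ i, psi i0 i (p i) := Finset.prod_nonneg fun i _ => psi_nonneg _ _ _
    positivity
  by_cases hall : ∀ i, (p i).1 = (p i).2
  · have h1 : ∏ i, (if (p i).1 = (p i).2 then (1 : ℝ) else 0) = 1 := by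
      apply Finset.prod_eq_one
      intro i _
      rw [if_pos (hall i)]
    rw [h1]
    calc volume {θ | θ ∈ Icc a b ∧ |FF p θ| ≤ t} ≤ volume (Icc a b) := measure_mono fun x hx => hx.1
      _ = ENNReal.ofReal (b - a) := Real.volume_Icc
      _ ≤ _ := by
        apply ENNReal.ofReal_le_ofReal
        have := Finset.sum_nonneg fun i0 (_ : i0 ∈ (Finset.univ : Finset (Fin m))) => hnn i0
        linarith
  · push Not at hall
    set s : Finset (Fin m) := Finset.univ.filter fun i => (p i).1 ≠ (p i).2 with hs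
    have hne : s.Nonempty := by
      obtain ⟨i, hi⟩ := hall
      exact ⟨i, by simp [hs, hi]⟩
    set i0 := s.min' hne with hi0
    have hi0s : (p i0).1 ≠ (p i0).2 := by
      have := s.min'_mem hne
      rw [← hi0, hs, Finset.mem_filter] at this
      exact this.2
    have hlt : ∀ i, i < i0 → (p i).1 = (p i).2 := by
      intro i hi
      by_contra hne'
      have : i ∈ s := by simp [hs, hne']
      exact absurd (s.min'_le i this) (not_le.2 hi)
    refine (vol_le hq hq1 hX ha ht p hp i0 hlt hi0s (hc i0)).trans ?_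
    apply ENNReal.ofReal_le_ofReal
    have h1 : ∏ i, psi i0 i (p i) = 1 / |((p i0).1 : ℝ) - (p i0).2| := by
      rw [Finset.prod_eq_single i0]
      · unfold psi od
        rw [if_neg (lt_irrefl _), if_pos rfl, if_neg hi0s]
      · intro i _ hi
        unfold psi
        rcases lt_or_gt_of_ne hi with h | h
        · rw [if_pos h, if_pos (hlt i h)]
        · rw [if_neg (not_lt.2 h.le), if_neg hi]
      · intro h
        exact absurd (Finset.mem_univ _) h
    have h2 : 2 * t * (lev q X i0) ^ (1 - a) * ∏ i, psi i0 i (p i) ≤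
        ∑ i0 : Fin m, 2 * t * (lev q X i0) ^ (1 - a) * ∏ i, psi i0 i (p i) :=
      Finset.single_le_sum (f := fun i0 : Fin m => 2 * t * (lev q X i0) ^ (1 - a) * ∏ i, psi i0 i (p i))
        (fun i _ => hnn i) (Finset.mem_univ i0)
    rw [h1] at h2
    have h3 : 0 ≤ (b - a) * ∏ i, (if (p i).1 = (p i).2 then (1 : ℝ) else 0) := by
      apply mul_nonneg (by linarith)
      apply Finset.prod_nonneg
      intro i _
      split_ifs <;> norm_num
    have h4 : 2 * t * (1 / |((p i0).1 : ℝ) - (p i0).2|) * (lev q X i0) ^ (1 - a) =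
        2 * t * (lev q X i0) ^ (1 - a) * (1 / |((p i0).1 : ℝ) - (p i0).2|) := by ring
    rw [h4]
    linarith

/-- the volume of the box -/
noncomputable def VV (q X : ℝ) (m : ℕ) : ℝ := ∏ i : Fin m, 4 * lev q X i ^ 2

lemma exp_ge {q a : ℝ} (hq : 0 < q) (h : (1 - q) * a ≤ 1) (k : ℕ) :
    a ≤ ∑ i ∈ Finset.range k, q ^ i + a * q ^ k := by
  induction k with
  | zero => simp
  | succ k ih =>
    rw [Finset.sum_range_succ]
    have h1 : 0 < q ^ k := by positivity
    have h2 : q ^ k + a * q ^ (k + 1) = a * q ^ k + q ^ k * (1 - (1 - q) * a) := by ring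
    have h3 : 0 ≤ q ^ k * (1 - (1 - q) * a) := mul_nonneg h1.le (by linarith)
    linarith

/-- **the sum of the weights** -/
lemma sum_le {q X a b t : ℝ} {m : ℕ} (hq : 0 < q) (hq1 : q < 1) (hX : 1 ≤ X) (hab : a ≤ b)
    (ht : 0 ≤ t) (hB : (1 - q) * a ≤ 1) (hC : a ≤ ∑ i ∈ Finset.range m, q ^ i) :
    ∑ p ∈ PPs q X m, ((b - a) * ∏ i, (if (p i).1 = (p i).2 then (1 : ℝ) else 0) +
        ∑ i0 : Fin m, 2 * t * (lev q X i0) ^ (1 - a) * ∏ i, psi i0 i (p i)) ≤
      VV q X m * X ^ (-a) * ((b - a) + m * (2 * t * (1 + Real.log (2 * X)))) := by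
  have hX0 : 0 < X := by linarith
  have hV : 0 ≤ VV q X m := Finset.prod_nonneg fun i _ => by positivity
  have hcard : ∀ i : Fin m, ((SS q X i).card : ℝ) ≤ 4 * lev q X i ^ 2 * (lev q X i)⁻¹ := by
    intro i
    have h1 := SS_card hq.le hX (i : ℕ)
    have h2 := lev_pos (q := q) hX (i : ℕ)
    have h3 : 4 * lev q X i ^ 2 * (lev q X i)⁻¹ = 4 * lev q X i := by field_simp
    rw [h3]
    linarith
  rw [Finset.sum_add_distrib, ← Finset.mul_sum, Finset.sum_comm]
  -- the diagonal
  have d1 : ∑ p ∈ PPs q X m, ∏ i, (if (p i).1 = (p i).2 then (1 : ℝ) else 0) ≤ VV q X m * X ^ (-a) := by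
    have h1 := Finset.prod_univ_sum (fun i : Fin m => SS q X i ×ˢ SS q X i)
      (fun _ (z : ℕ × ℕ) => if z.1 = z.2 then (1 : ℝ) else 0)
    unfold PPs
    rw [← h1]
    have h2 : ∀ i : Fin m, ∑ z ∈ SS q X i ×ˢ SS q X i, (if z.1 = z.2 then (1 : ℝ) else 0) = (SS q X i).card := by
      intro i
      rw [Finset.sum_product]
      simp
    simp_rw [h2]
    calc ∏ i : Fin m, ((SS q X i).card : ℝ) ≤ ∏ i : Fin m, (4 * lev q X i ^ 2 * (lev q X i)⁻¹) :=
          Finset.prod_le_prod (fun i _ => by positivity) fun i _ => hcard i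
      _ = VV q X m * ∏ i : Fin m, (lev q X i)⁻¹ := by
          rw [Finset.prod_mul_distrib]
          rfl
      _ ≤ VV q X m * X ^ (-a) := by
          apply mul_le_mul_of_nonneg_left _ hV
          have h3 : ∏ i : Fin m, (lev q X i)⁻¹ = X ^ (-(∑ i ∈ Finset.range m, q ^ i)) := by
            rw [← Fin.sum_univ_eq_sum_range (fun i => q ^ i) m, ← Finset.sum_neg_distrib, Real.rpow_sum_of_pos hX0]
            refine Finset.prod_congr rfl fun i _ => ?_
            unfold lev
            rw [Real.rpow_neg hX0.le]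
          rw [h3]
          exact Real.rpow_le_rpow_of_exponent_le hX (by linarith)
  -- the other terms
  have d2 : ∀ i0 : Fin m, ∑ p ∈ PPs q X m, 2 * t * (lev q X i0) ^ (1 - a) * ∏ i, psi i0 i (p i) ≤
      VV q X m * X ^ (-a) * (2 * t * (1 + Real.log (2 * X))) := by
    intro i0
    have hL : 0 ≤ 1 + Real.log (2 * X) := by
      have := Real.log_nonneg (show (1 : ℝ) ≤ 2 * X by linarith)
      linarith
    rw [← Finset.mul_sum]
    have h1 := Finset.prod_univ_sum (fun i : Fin m => SS q X i ×ˢ SS q X i) (fun i (z : ℕ × ℕ) => psi i0 i z)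
    unfold PPs
    rw [← h1]
    set L := 1 + Real.log (2 * X) with hLdef
    set c : Fin m → ℝ := fun i => if i = i0 then L else 1 with hc
    set e : Fin m → ℝ := fun i => if (i : ℕ) ≤ i0 then q ^ (i : ℕ) else 0 with he
    have h2 : ∀ i : Fin m, ∑ z ∈ SS q X i ×ˢ SS q X i, psi i0 i z ≤ 4 * lev q X i ^ 2 * (c i * X ^ (-(e i))) := by
      intro i
      have hl := lev_pos (q := q) hX (i : ℕ)
      have hinv : X ^ (-(q ^ (i : ℕ))) = (lev q X i)⁻¹ := by
        unfold lev
        rw [Real.rpow_neg hX0.le]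
      rcases lt_trichotomy i i0 with h | h | h
      · have e1 : ∀ z : ℕ × ℕ, psi i0 i z = if z.1 = z.2 then (1 : ℝ) else 0 := by
          intro z
          unfold psi
          rw [if_pos h]
        simp_rw [e1]
        have e2 : ∑ z ∈ SS q X i ×ˢ SS q X i, (if z.1 = z.2 then (1 : ℝ) else 0) = (SS q X i).card := by
          rw [Finset.sum_product]
          simp
        have e3 : e i = q ^ (i : ℕ) := by
          simp only [he]
          rw [if_pos (show (i : ℕ) ≤ i0 from h.le)]
        have e4 : c i = 1 := by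
          simp only [hc]
          rw [if_neg (ne_of_lt h)]
        rw [e2, e3, e4, hinv, one_mul]
        exact hcard i
      · have e1 : ∀ z : ℕ × ℕ, psi i0 i z = od z := by
          intro z
          unfold psi
          rw [if_neg (by rw [h]; exact lt_irrefl _), if_pos h]
        simp_rw [e1]
        have e3 : e i = q ^ (i : ℕ) := by
          simp only [he]
          rw [if_pos (show (i : ℕ) ≤ i0 from h.le)]
        have e4 : c i = L := by
          simp only [hc]
          rw [if_pos h]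
        have h1l := one_le_lev hq.le hX (i : ℕ)
        have hn : 1 ≤ ⌊2 * lev q X i⌋₊ := by
          rw [Nat.le_floor_iff (by linarith)]
          push_cast
          linarith
        have h5 := od_sum (SS q X i) ⌊2 * lev q X i⌋₊ (fun y hy => (Finset.mem_Icc.1 hy).2)
        have h6 : Real.log (⌊2 * lev q X i⌋₊ : ℝ) ≤ Real.log (2 * X) := by
          apply Real.log_le_log (by exact_mod_cast hn)
          refine (Nat.floor_le (by linarith)).trans ?_
          have : lev q X i ≤ lev q X 0 := lev_anti hq hq1 hX (Nat.zero_le _)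
          have h00 : lev q X 0 = X := by unfold lev; simp
          linarith
        have h7 := SS_card hq.le hX (i : ℕ)
        rw [e3, e4, hinv]
        calc ∑ z ∈ SS q X i ×ˢ SS q X i, od z ≤ (SS q X i).card * (2 * (1 + Real.log (⌊2 * lev q X i⌋₊ : ℝ))) := h5
          _ ≤ (2 * lev q X i) * (2 * L) := by
            apply mul_le_mul h7 (by linarith) _ (by linarith)
            have : 0 ≤ Real.log (⌊2 * lev q X i⌋₊ : ℝ) := Real.log_nonneg (by exact_mod_cast hn)
            positivity
          _ = 4 * lev q X i ^ 2 * (L * (lev q X i)⁻¹) := by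
            field_simp
            ring
      · have e1 : ∀ z : ℕ × ℕ, psi i0 i z = 1 := by
          intro z
          unfold psi
          rw [if_neg (not_lt.2 h.le), if_neg (ne_of_gt h)]
        simp_rw [e1]
        have e3 : e i = 0 := by
          simp only [he]
          rw [if_neg (not_le.2 (show (i0 : ℕ) < i from h))]
        have e4 : c i = 1 := by
          simp only [hc]
          rw [if_neg (ne_of_gt h)]
        rw [e3, e4, neg_zero, Real.rpow_zero, mul_one, mul_one, Finset.sum_const, Finset.card_product, nsmul_eq_mul,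
          mul_one]
        push_cast
        have h7 := SS_card hq.le hX (i : ℕ)
        have h8 : (0 : ℝ) ≤ ((SS q X i).card : ℝ) := by positivity
        nlinarith
    have h3 : ∏ i : Fin m, ∑ z ∈ SS q X i ×ˢ SS q X i, psi i0 i z ≤
        VV q X m * (L * X ^ (-(∑ i, e i))) := by
      calc ∏ i : Fin m, ∑ z ∈ SS q X i ×ˢ SS q X i, psi i0 i z
          ≤ ∏ i : Fin m, 4 * lev q X i ^ 2 * (c i * X ^ (-(e i))) :=
            Finset.prod_le_prod (fun i _ => Finset.sum_nonneg fun z _ => psi_nonneg _ _ _) fun i _ => h2 i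
        _ = VV q X m * (L * X ^ (-(∑ i, e i))) := by
            have e5 : ∏ i : Fin m, 4 * lev q X i ^ 2 * (c i * X ^ (-(e i))) =
                (∏ i : Fin m, 4 * lev q X i ^ 2) * ((∏ i, c i) * ∏ i, X ^ (-(e i))) := by
              rw [← Finset.prod_mul_distrib, ← Finset.prod_mul_distrib]
            rw [e5, ← Finset.sum_neg_distrib, Real.rpow_sum_of_pos hX0]
            have hcc : ∏ i, c i = L := by
              simp only [hc]
              rw [Finset.prod_ite_eq' Finset.univ i0, if_pos (Finset.mem_univ _)]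
            rw [hcc]
            rfl
    have h4 : ∑ i, e i = ∑ i ∈ Finset.range (i0 : ℕ), q ^ i + q ^ (i0 : ℕ) := by
      have h5 : ∑ i : Fin m, e i = ∑ i ∈ Finset.range m, if i ≤ (i0 : ℕ) then q ^ i else 0 :=
        Fin.sum_univ_eq_sum_range (fun i => if i ≤ (i0 : ℕ) then q ^ i else 0) m
      rw [h5, ← Finset.sum_filter, ← Finset.sum_range_succ]
      congr 1
      ext i
      have := i0.2
      simp only [Finset.mem_filter, Finset.mem_range]
      omega
    have h5 := exp_ge hq hB (i0 : ℕ)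
    have hl := lev_pos (q := q) hX (i0 : ℕ)
    have h6 : (lev q X i0) ^ (1 - a) = X ^ (q ^ (i0 : ℕ) * (1 - a)) := by
      unfold lev
      rw [← Real.rpow_mul hX0.le]
    calc 2 * t * (lev q X i0) ^ (1 - a) * ∏ i : Fin m, ∑ z ∈ SS q X i ×ˢ SS q X i, psi i0 i z
        ≤ 2 * t * (lev q X i0) ^ (1 - a) * (VV q X m * (L * X ^ (-(∑ i, e i)))) := by
          apply mul_le_mul_of_nonneg_left h3
          have := Real.rpow_pos_of_pos hl (1 - a)
          positivity
      _ = VV q X m * (X ^ (q ^ (i0 : ℕ) * (1 - a)) * X ^ (-(∑ i, e i))) * (2 * t * L) := by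
          rw [h6]; ring
      _ ≤ VV q X m * X ^ (-a) * (2 * t * L) := by
          apply mul_le_mul_of_nonneg_right _ (by positivity)
          apply mul_le_mul_of_nonneg_left _ hV
          rw [← Real.rpow_add hX0]
          apply Real.rpow_le_rpow_of_exponent_le hX
          rw [h4]
          linarith
  have d3 := Finset.sum_le_sum fun i0 (_ : i0 ∈ (Finset.univ : Finset (Fin m))) => d2 i0
  rw [Finset.sum_const, Finset.card_univ, Fintype.card_fin, nsmul_eq_mul] at d3
  have d4 := mul_le_mul_of_nonneg_left d1 (show 0 ≤ b - a by linarith)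
  nlinarith

end Pool.Agent.J4H7.WE
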