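import Pool.Agent.J4H7.WE.A4

set_option autoImplicit false

/-!
# Waring's problem with almost all real exponents, part A5 (helper7)

Borel-Cantelli.
-/

namespace Pool.Agent.J4H7.WE

open Real Set MeasureTheory Filter Topology Asymptotics
open scoped Classical in
/-- the number of near-coincidences -/
noncomputable def TT (q X : ℝ) (m : ℕ) (t θ : ℝ) : ℕ := ((PPs q X m).filter fun p => |FF p θ| ≤ t).card

/-- the sublevel set -/
def EE {m : ℕ} (a b t : ℝ) (p : Fin m → ℕ × ℕ) : Set ℝ := {θ | θ ∈ Icc a b ∧ |FF p θ| ≤ t}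

lemma EE_meas {q X a b t : ℝ} {m : ℕ} (hq : 0 < q) (hX : 1 ≤ X) {p : Fin m → ℕ × ℕ} (hp : p ∈ PPs q X m) :
    MeasurableSet (EE a b t p) := by
  rw [mem_PPs] at hp
  have hp1 : ∀ i, 1 ≤ (p i).1 ∧ 1 ≤ (p i).2 := by
    intro i
    have g1 := (mem_SS hX).1 (hp i).1
    have g2 := (mem_SS hX).1 (hp i).2
    have g3 := one_le_lev hq.le hX (i : ℕ)
    constructor
    · exact_mod_cast g3.trans g1.1
    · exact_mod_cast g3.trans g2.1
  have h1 : Continuous (FF p) := continuous_iff_continuousAt.2 fun θ => (FF_deriv p hp1 θ).continuousAt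
  have h2 : IsClosed (EE a b t p) := isClosed_Icc.inter (isClosed_le h1.abs continuous_const)
  exact h2.measurableSet

lemma TT_eq {q X a b t : ℝ} {m : ℕ} {θ : ℝ} (hθ : θ ∈ Icc a b) :
    ∑ p ∈ PPs q X m, (EE a b t p).indicator (fun _ => (1 : ENNReal)) θ = (TT q X m t θ : ENNReal) := by
  classical
  unfold TT
  rw [Finset.card_filter]
  push_cast
  refine Finset.sum_congr rfl fun p _ => ?_
  unfold EE
  by_cases h : |FF p θ| ≤ t
  · rw [if_pos h, Set.indicator_of_mem (show θ ∈ {θ | θ ∈ Icc a b ∧ |FF p θ| ≤ t} from ⟨hθ, h⟩)]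
  · rw [if_neg h, Set.indicator_of_notMem (fun h' => h h'.2)]

lemma VV_pos {q X : ℝ} (hX : 1 ≤ X) (m : ℕ) : 0 < VV q X m :=
  Finset.prod_pos fun i _ => by
    have := lev_pos (q := q) hX (i : ℕ)
    positivity

/-- the measure of the bad exponents -/
lemma bad_le {q X a b t ε : ℝ} {m : ℕ} (hq : 0 < q) (hq1 : q < 1) (hX : 1 ≤ X) (ha : 1 ≤ a) (hab : a ≤ b)
    (ht : 0 ≤ t) (hB : (1 - q) * a ≤ 1) (hC : a ≤ ∑ i ∈ Finset.range m, q ^ i)
    (hc : ∀ i : Fin m, CC q a b t m (lev q X i)) :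
    volume {θ | θ ∈ Icc a b ∧ VV q X m * X ^ (-a + ε) ≤ TT q X m t θ} ≤
      ENNReal.ofReal (((b - a) + m * (2 * t * (1 + Real.log (2 * X)))) * X ^ (-ε)) := by
  have hX0 : 0 < X := by linarith
  set M : ℝ := VV q X m * X ^ (-a + ε) with hM
  have hM0 : 0 < M := mul_pos (VV_pos hX m) (Real.rpow_pos_of_pos hX0 _)
  set f : ℝ → ENNReal := fun θ => ∑ p ∈ PPs q X m, (EE a b t p).indicator (fun _ => (1 : ENNReal)) θ with hf
  have hfm : Measurable f := by
    apply Finset.measurable_sum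
    intro p hp
    exact measurable_const.indicator (EE_meas hq hX hp)
  have h1 : {θ | θ ∈ Icc a b ∧ M ≤ TT q X m t θ} ⊆ {θ | ENNReal.ofReal M ≤ f θ} := by
    rintro θ ⟨h2, h3⟩
    change ENNReal.ofReal M ≤ f θ
    rw [hf]
    simp only
    rw [TT_eq h2]
    calc ENNReal.ofReal M ≤ ENNReal.ofReal (TT q X m t θ : ℝ) := ENNReal.ofReal_le_ofReal h3
      _ = _ := ENNReal.ofReal_natCast _
  have h2 := meas_ge_le_lintegral_div (μ := volume) hfm.aemeasurable (ε := ENNReal.ofReal M)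
    (by rw [Ne, ENNReal.ofReal_eq_zero, not_le]; exact hM0) ENNReal.ofReal_ne_top
  have h3 : ∫⁻ θ, f θ = ∑ p ∈ PPs q X m, volume (EE a b t p) := by
    rw [hf]
    rw [lintegral_finsetSum]
    · refine Finset.sum_congr rfl fun p hp => ?_
      rw [lintegral_indicator (EE_meas hq hX hp), setLIntegral_const, one_mul]
    · intro p hp
      exact measurable_const.indicator (EE_meas hq hX hp)
  have h4 : ∑ p ∈ PPs q X m, volume (EE a b t p) ≤
      ENNReal.ofReal (VV q X m * X ^ (-a) * ((b - a) + m * (2 * t * (1 + Real.log (2 * X))))) := by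
    calc ∑ p ∈ PPs q X m, volume (EE a b t p) ≤ ∑ p ∈ PPs q X m,
        ENNReal.ofReal ((b - a) * ∏ i, (if (p i).1 = (p i).2 then (1 : ℝ) else 0) +
          ∑ i0 : Fin m, 2 * t * (lev q X i0) ^ (1 - a) * ∏ i, psi i0 i (p i)) :=
          Finset.sum_le_sum fun p hp => vol_le' hq hq1 hX ha hab ht p hp hc
      _ = ENNReal.ofReal (∑ p ∈ PPs q X m, ((b - a) * ∏ i, (if (p i).1 = (p i).2 then (1 : ℝ) else 0) +
          ∑ i0 : Fin m, 2 * t * (lev q X i0) ^ (1 - a) * ∏ i, psi i0 i (p i))) := by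
          rw [ENNReal.ofReal_sum_of_nonneg]
          intro p _
          apply add_nonneg
          · apply mul_nonneg (by linarith)
            apply Finset.prod_nonneg
            intro i _
            split_ifs <;> norm_num
          · apply Finset.sum_nonneg
            intro i0 _
            have h1 := (Real.rpow_pos_of_pos (lev_pos (q := q) hX (i0 : ℕ)) (1 - a)).le
            have h2 : 0 ≤ ∏ i, psi i0 i (p i) := Finset.prod_nonneg fun i _ => psi_nonneg _ _ _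
            positivity
      _ ≤ _ := ENNReal.ofReal_le_ofReal (sum_le hq hq1 hX hab ht hB hC)
  calc volume {θ | θ ∈ Icc a b ∧ M ≤ TT q X m t θ} ≤ volume {θ | ENNReal.ofReal M ≤ f θ} := measure_mono h1
    _ ≤ (∫⁻ θ, f θ) / ENNReal.ofReal M := h2
    _ ≤ ENNReal.ofReal (VV q X m * X ^ (-a) * ((b - a) + m * (2 * t * (1 + Real.log (2 * X))))) / ENNReal.ofReal M := by
        rw [h3]
        gcongr
    _ = _ := by
        rw [← ENNReal.ofReal_div_of_pos hM0]
        congr 1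
        rw [hM, Real.rpow_add hX0, Real.rpow_neg hX0.le ε]
        have h5 : X ^ (-a) ≠ 0 := (Real.rpow_pos_of_pos hX0 _).ne'
        have h6 : X ^ ε ≠ 0 := (Real.rpow_pos_of_pos hX0 _).ne'
        have h7 : VV q X m ≠ 0 := (VV_pos hX m).ne'
        field_simp

/-- **the mean value for almost every exponent of an interval** -/
theorem ae_interval {q a b t ε : ℝ} {m : ℕ} (hq : 0 < q) (hq1 : q < 1) (ha : 1 < a) (hab : a ≤ b)
    (ht : 0 ≤ t) (hε : 0 < ε) (hA : q ^ 2 * b < a - 1) (hB : (1 - q) * a ≤ 1) (hC : a ≤ ∑ i ∈ Finset.range m, q ^ i) :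
    ∀ᵐ θ : ℝ, θ ∈ Icc a b → ∀ᶠ j : ℕ in atTop,
      (TT q ((2 : ℝ) ^ j) m t θ : ℝ) ≤ VV q ((2 : ℝ) ^ j) m * ((2 : ℝ) ^ j) ^ (-a + ε) := by
  have hX1 : ∀ j : ℕ, (1 : ℝ) ≤ (2 : ℝ) ^ j := fun j => one_le_pow₀ (by norm_num)
  have hev : ∀ᶠ j : ℕ in atTop, ∀ i : ℕ, i ≤ m → CC q a b t m (lev q ((2 : ℝ) ^ j) i) :=
    (tendsto_pow_atTop_atTop_of_one_lt (by norm_num : (1 : ℝ) < 2)).eventually (ev_lev hq hq1 m (ev_CC hq hq1 ha hA))
  obtain ⟨j0, hj0⟩ := eventually_atTop.1 hev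
  set s : ℕ → Set ℝ := fun j => {θ | θ ∈ Icc a b ∧
    VV q ((2 : ℝ) ^ (j + j0)) m * ((2 : ℝ) ^ (j + j0)) ^ (-a + ε) ≤ TT q ((2 : ℝ) ^ (j + j0)) m t θ} with hs
  have hsm : ∀ j, volume (s j) ≤ ENNReal.ofReal (((b - a) + m * (2 * t * (1 + Real.log (2 * (2 : ℝ) ^ (j + j0))))) *
      ((2 : ℝ) ^ (j + j0)) ^ (-ε)) := fun j =>
    bad_le hq hq1 (hX1 _) ha.le hab ht hB hC fun i => hj0 _ (by omega) i i.2.le
  have hsum : Summable fun j : ℕ => (((b - a) + m * (2 * t * (1 + Real.log (2 * (2 : ℝ) ^ (j + j0))))) *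
      ((2 : ℝ) ^ (j + j0)) ^ (-ε)) := by
    refine (summable_nat_add_iff (f := fun j : ℕ => (((b - a) + m * (2 * t * (1 + Real.log (2 * (2 : ℝ) ^ j)))) *
      ((2 : ℝ) ^ j) ^ (-ε))) j0).2 ?_
    set r : ℝ := (2 : ℝ) ^ (-ε) with hr
    have hr0 : 0 < r := Real.rpow_pos_of_pos (by norm_num) _
    have hr1 : r < 1 := Real.rpow_lt_one_of_one_lt_of_neg (by norm_num) (by linarith)
    have e1 : ∀ j : ℕ, (((b - a) + m * (2 * t * (1 + Real.log (2 * (2 : ℝ) ^ j)))) * ((2 : ℝ) ^ j) ^ (-ε)) =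
        ((b - a) + m * (2 * t * (1 + Real.log 2))) * r ^ j + (m * (2 * t * Real.log 2)) * ((j : ℝ) ^ 1 * r ^ j) := by
      intro j
      have e2 : ((2 : ℝ) ^ j) ^ (-ε) = r ^ j := by
        rw [hr, ← Real.rpow_natCast, ← Real.rpow_natCast, ← Real.rpow_mul (by norm_num), ← Real.rpow_mul (by norm_num)]
        congr 1
        ring
      rw [e2, Real.log_mul (by norm_num) (by positivity), Real.log_pow]
      ring
    simp_rw [e1]
    have s1 : Summable fun j : ℕ => r ^ j := summable_geometric_of_lt_one hr0.le hr1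
    have s2 : Summable fun j : ℕ => (j : ℝ) ^ 1 * r ^ j :=
      summable_pow_mul_geometric_of_norm_lt_one 1 (by rw [Real.norm_of_nonneg hr0.le]; exact hr1)
    exact (s1.mul_left ((b - a) + m * (2 * t * (1 + Real.log 2)))).add (s2.mul_left (m * (2 * t * Real.log 2)))
  have hne : ∑' j, volume (s j) ≠ ⊤ := by
    refine ne_top_of_le_ne_top hsum.tsum_ofReal_ne_top (ENNReal.tsum_le_tsum hsm)
  filter_upwards [ae_eventually_notMem hne] with θ hθ hθI
  rw [eventually_atTop] at hθ ⊢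
  obtain ⟨j1, hj1⟩ := hθ
  refine ⟨j1 + j0, fun j hj => ?_⟩
  have h1 := hj1 (j - j0) (by omega)
  have h2 : j - j0 + j0 = j := by omega
  rw [hs] at h1
  simp only [h2, mem_ofPred_eq, not_and, not_le] at h1
  exact (h1 hθI).le

end Pool.Agent.J4H7.WE
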