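import Pool.Agent.Helper153.FacC

set_option autoImplicit false

/-!
# Waring's problem with almost all real exponents, part B1 (helper7)

Exponential sums with `β z ^ θ`.
-/

namespace Pool.Agent.J4H7.WE

open Real Set Filter Topology
open Pool.Agent.Helper153.Vdc (ee dd Cond ee_norm)

/-- iterated differences are values of derivatives -/
lemma dd_deriv (k : ℕ) : ∀ (G : ℕ → ℝ → ℝ) (R : ℝ), (∀ i < k, ∀ x ∈ Icc (0 : ℝ) R, HasDerivAt (G i) (G (i + 1) x) x) →
    ∀ n : ℕ, (n : ℝ) + k ≤ R → ∃ ξ ∈ Icc (0 : ℝ) R, dd k (fun n : ℕ => G 0 n) n = G k ξ := by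
  induction k with
  | zero =>
    intro G R _ n hn
    refine ⟨n, ⟨by positivity, by simpa using hn⟩, rfl⟩
  | succ k ih =>
    intro G R hG n hn
    push_cast at hn
    obtain ⟨ξ, hξ, h1⟩ := ih (fun i x => G i (x + 1) - G i x) (R - 1) (fun i hi x hx => by
      have h2 := hG i (by omega) (x + 1) ⟨by linarith [hx.1], by linarith [hx.2]⟩
      have h3 := hG i (by omega) x ⟨hx.1, by linarith [hx.2]⟩
      exact (h2.comp_add_const x 1).sub h3) n (by linarith)
    have h4 : ∃ c ∈ Ioo ξ (ξ + 1), G (k + 1) c = (G k (ξ + 1) - G k ξ) / (ξ + 1 - ξ) := by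
      refine exists_hasDerivAt_eq_slope (G k) (G (k + 1)) (by linarith) ?_ ?_
      · intro x hx
        exact (hG k (by omega) x ⟨by linarith [hx.1, hξ.1], by linarith [hx.2, hξ.2]⟩).continuousAt.continuousWithinAt
      · intro x hx
        exact hG k (by omega) x ⟨by linarith [hx.1, hξ.1], by linarith [hx.2, hξ.2]⟩
    obtain ⟨c, hc, h5⟩ := h4
    refine ⟨c, ⟨by linarith [hc.1, hξ.1], by linarith [hc.2, hξ.2]⟩, ?_⟩
    have h6 : dd (k + 1) (fun n : ℕ => G 0 n) n = dd k (fun n : ℕ => G 0 ((n : ℝ) + 1) - G 0 n) n := by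
      simp only [dd]
      push_cast
      rfl
    rw [h6, h1, h5]
    ring

/-- the falling factorial `θ (θ - 1) ... (θ - k + 1)` -/
noncomputable def ff (θ : ℝ) (k : ℕ) : ℝ := ∏ i ∈ Finset.range k, (θ - i)

lemma ff_succ (θ : ℝ) (k : ℕ) : ff θ (k + 1) = ff θ k * (θ - k) := by
  unfold ff
  rw [Finset.prod_range_succ]

lemma ff_ne {θ : ℝ} (hθ : ∀ n : ℕ, θ ≠ n) (k : ℕ) : ff θ k ≠ 0 := by
  unfold ff
  rw [Finset.prod_ne_zero_iff]
  intro i _
  exact sub_ne_zero.2 (hθ i)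

/-- the bound of the power in the two cases -/
lemma rpow_range {s X z : ℝ} (hX : 0 < X) (h1 : 4 * X ≤ z) (h2 : z ≤ 64 * X) :
    min ((4 : ℝ) ^ s) ((64 : ℝ) ^ s) * X ^ s ≤ z ^ s ∧ z ^ s ≤ (16 : ℝ) ^ |s| * (min ((4 : ℝ) ^ s) ((64 : ℝ) ^ s) * X ^ s) := by
  have hz : 0 < z := by linarith
  have hXs : 0 < X ^ s := Real.rpow_pos_of_pos hX _
  have e64 : (64 : ℝ) ^ s = (16 : ℝ) ^ s * (4 : ℝ) ^ s := by
    rw [← Real.mul_rpow (by norm_num) (by norm_num)]; norm_num
  have h16 : 0 < (16 : ℝ) ^ s := Real.rpow_pos_of_pos (by norm_num) _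
  have h4 : 0 < (4 : ℝ) ^ s := Real.rpow_pos_of_pos (by norm_num) _
  rcases le_total 0 s with hs | hs
  · have h16' : 1 ≤ (16 : ℝ) ^ s := Real.one_le_rpow (by norm_num) hs
    have hmin : min ((4 : ℝ) ^ s) ((64 : ℝ) ^ s) = (4 : ℝ) ^ s := by
      rw [min_eq_left]
      rw [e64]
      nlinarith
    rw [hmin, abs_of_nonneg hs]
    constructor
    · rw [← Real.mul_rpow (by norm_num) hX.le]
      exact Real.rpow_le_rpow (by linarith) h1 hs
    · rw [← mul_assoc, ← e64, ← Real.mul_rpow (by norm_num) hX.le]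
      exact Real.rpow_le_rpow hz.le h2 hs
  · have h16' : (16 : ℝ) ^ s ≤ 1 := Real.rpow_le_one_of_one_le_of_nonpos (by norm_num) hs
    have hmin : min ((4 : ℝ) ^ s) ((64 : ℝ) ^ s) = (64 : ℝ) ^ s := by
      rw [min_eq_right]
      rw [e64]
      nlinarith
    rw [hmin, abs_of_nonpos hs]
    constructor
    · rw [← Real.mul_rpow (by norm_num) hX.le]
      exact Real.rpow_le_rpow_of_nonpos hz h2 hs
    · have e1 : (16 : ℝ) ^ (-s) * ((64 : ℝ) ^ s * X ^ s) = (4 * X) ^ s := by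
        rw [Real.mul_rpow (by norm_num) hX.le, e64, Real.rpow_neg (by norm_num)]
        field_simp
      rw [e1]
      exact Real.rpow_le_rpow_of_nonpos (by linarith) h1 hs

/-- the forward derivatives -/
lemma deriv_fwd {θ β Y R : ℝ} (hY : 0 < Y) (i : ℕ) {x : ℝ} (hx : x ∈ Icc (0 : ℝ) R) :
    HasDerivAt (fun x : ℝ => β * ff θ i * (Y + x) ^ (θ - i)) (β * ff θ (i + 1) * (Y + x) ^ (θ - ((i + 1 : ℕ) : ℝ))) x := by
  have h1 : HasDerivAt (fun x : ℝ => Y + x) 1 x := (hasDerivAt_id x).const_add Y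
  have h2 := (h1.rpow_const (p := θ - i) (Or.inl (by have := hx.1; linarith [this, hY]))).const_mul (β * ff θ i)
  refine h2.congr_deriv ?_
  rw [ff_succ, show θ - ((i + 1 : ℕ) : ℝ) = θ - i - 1 by push_cast; ring]
  ring

/-- the backward derivatives -/
lemma deriv_bwd {θ β Z R : ℝ} (hZ : R < Z) (i : ℕ) {x : ℝ} (hx : x ∈ Icc (0 : ℝ) R) :
    HasDerivAt (fun x : ℝ => β * (-1) ^ i * ff θ i * (Z - x) ^ (θ - i))
      (β * (-1) ^ (i + 1) * ff θ (i + 1) * (Z - x) ^ (θ - ((i + 1 : ℕ) : ℝ))) x := by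
  have h1 : HasDerivAt (fun x : ℝ => Z - x) (-1) x := (hasDerivAt_id x).const_sub Z
  have h2 := (h1.rpow_const (p := θ - i) (Or.inl (by have := hx.2; linarith [this, hZ]))).const_mul (β * (-1) ^ i * ff θ i)
  refine h2.congr_deriv ?_
  rw [ff_succ, show θ - ((i + 1 : ℕ) : ℝ) = θ - i - 1 by push_cast; ring, pow_succ]
  ring

lemma norm_neg_sum (M : ℕ) (g : ℕ → ℝ) : ‖∑ n ∈ Finset.range M, ee (-(g n))‖ = ‖∑ n ∈ Finset.range M, ee (g n)‖ := by
  have h : ∑ n ∈ Finset.range M, ee (-(g n)) = (starRingEnd ℂ) (∑ n ∈ Finset.range M, ee (g n)) := by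
    rw [map_sum]
    refine Finset.sum_congr rfl fun n _ => ?_
    unfold ee
    rw [← Complex.exp_conj]
    congr 1
    simp only [map_mul, Complex.conj_ofReal, Complex.conj_I, Complex.conj_ofNat]
    push_cast
    ring
  rw [h, RCLike.norm_conj]

/-- **the condition of the derivative test** for `β z ^ θ` up to conjugation and reversal -/
lemma cond_pow {θ : ℝ} (hθ : ∀ n : ℕ, θ ≠ n) (k : ℕ) {X β : ℝ} (hX : 1 ≤ X) (hβ : β ≠ 0) {Y M : ℕ}
    (hY : 4 * X ≤ Y) (hM : (Y : ℝ) + M ≤ 64 * X + 1) : ∃ g : ℕ → ℝ,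
    ‖∑ n ∈ Finset.range M, ee (β * ((Y : ℝ) + n) ^ θ)‖ = ‖∑ n ∈ Finset.range M, ee (g n)‖ ∧
    Cond k g M (|β| * |ff θ k| * (min ((4 : ℝ) ^ (θ - k)) ((64 : ℝ) ^ (θ - k)) * X ^ (θ - k))) ((16 : ℝ) ^ |θ - k|) := by
  have hX0 : 0 < X := by linarith
  have hY0 : (0 : ℝ) < Y := by linarith
  set lam : ℝ := |β| * |ff θ k| * (min ((4 : ℝ) ^ (θ - k)) ((64 : ℝ) ^ (θ - k)) * X ^ (θ - k)) with hlam
  have hff := ff_ne hθ k
  have hc0 : 0 < |β| * |ff θ k| := mul_pos (abs_pos.2 hβ) (abs_pos.2 hff)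
  -- general verification
  have gen : ∀ (G : ℕ → ℝ → ℝ) (z : ℝ → ℝ), (∀ i < k + 1, ∀ x ∈ Icc (0 : ℝ) ((M : ℝ) - 1), HasDerivAt (G i) (G (i + 1) x) x) →
      (∀ x ∈ Icc (0 : ℝ) ((M : ℝ) - 1), 4 * X ≤ z x ∧ z x ≤ 64 * X) →
      (∀ x ∈ Icc (0 : ℝ) ((M : ℝ) - 1), G k x = |β| * |ff θ k| * (z x) ^ (θ - k)) →
      (∀ x ∈ Icc (0 : ℝ) ((M : ℝ) - 1), 0 ≤ G (k + 1) x) →
      Cond k (fun n : ℕ => G 0 n) M lam ((16 : ℝ) ^ |θ - k|) := by
    intro G z h1 h2 h3 h4
    refine ⟨fun n hn => ?_, fun n hn => ?_⟩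
    · have hn' : (n : ℝ) + k ≤ (M : ℝ) - 1 := by
        have : n + k + 1 ≤ M := by omega
        have : ((n + k + 1 : ℕ) : ℝ) ≤ M := by exact_mod_cast this
        push_cast at this
        linarith
      obtain ⟨ξ, hξ, h5⟩ := dd_deriv k G ((M : ℝ) - 1) (fun i hi => h1 i (by omega)) n hn'
      obtain ⟨g1, g2⟩ := rpow_range (s := θ - k) hX0 (h2 ξ hξ).1 (h2 ξ hξ).2
      rw [h5, h3 ξ hξ, hlam]
      constructor
      · exact mul_le_mul_of_nonneg_left g1 hc0.le
      · calc |β| * |ff θ k| * z ξ ^ (θ - k) ≤ |β| * |ff θ k| *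
            ((16 : ℝ) ^ |θ - k| * (min ((4 : ℝ) ^ (θ - k)) ((64 : ℝ) ^ (θ - k)) * X ^ (θ - k))) :=
              mul_le_mul_of_nonneg_left g2 hc0.le
          _ = _ := by ring
    · have hn' : (n : ℝ) + ((k + 1 : ℕ) : ℝ) ≤ (M : ℝ) - 1 := by
        have : n + (k + 1) + 1 ≤ M := by omega
        have : ((n + (k + 1) + 1 : ℕ) : ℝ) ≤ M := by exact_mod_cast this
        push_cast at this ⊢
        linarith
      obtain ⟨ξ, hξ, h5⟩ := dd_deriv (k + 1) G ((M : ℝ) - 1) h1 n hn'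
      rw [h5]
      exact h4 ξ hξ
  rcases lt_or_gt_of_ne (hθ k) with hlt | hgt
  · -- k > θ : backward
    set s : ℝ := if 0 < β * ((-1) ^ k * ff θ k) then 1 else -1 with hs
    have hne : β * ((-1) ^ k * ff θ k) ≠ 0 := mul_ne_zero hβ (mul_ne_zero (pow_ne_zero _ (by norm_num)) hff)
    have hsabs : s * (β * ((-1) ^ k * ff θ k)) = |β| * |ff θ k| := by
      have e1 : |β * ((-1) ^ k * ff θ k)| = |β| * |ff θ k| := by
        rw [abs_mul, abs_mul, abs_pow, abs_neg, abs_one, one_pow, one_mul]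
      rw [← e1]
      by_cases h : 0 < β * ((-1) ^ k * ff θ k)
      · rw [hs, if_pos h, abs_of_pos h, one_mul]
      · rw [hs, if_neg h, abs_of_nonpos (not_lt.1 h)]
        ring
    set Z : ℝ := (Y : ℝ) + M - 1 with hZ
    refine ⟨fun n : ℕ => s * β * (Z - n) ^ θ, ?_, ?_⟩
    · have e1 : ∑ n ∈ Finset.range M, ee (β * ((Y : ℝ) + n) ^ θ) = ∑ n ∈ Finset.range M, ee (β * (Z - n) ^ θ) := by
        rw [← Finset.sum_range_reflect]
        refine Finset.sum_congr rfl fun n hn => ?_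
        have hn' := Finset.mem_range.1 hn
        have e2 : ((M - 1 - n : ℕ) : ℝ) = (M : ℝ) - 1 - n := by
          rw [Nat.cast_sub (by omega), Nat.cast_sub (by omega)]
          simp
        rw [e2, hZ]
        congr 3
        ring
      rw [e1]
      by_cases h : 0 < β * ((-1) ^ k * ff θ k)
      · rw [hs, if_pos h]
        simp only [one_mul]
      · rw [hs, if_neg h]
        have e3 : ∀ n : ℕ, (-1 : ℝ) * β * (Z - n) ^ θ = -(β * (Z - n) ^ θ) := fun n => by ring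
        simp_rw [e3]
        rw [norm_neg_sum]
    · have key := gen (fun i x => s * β * (-1) ^ i * ff θ i * (Z - x) ^ (θ - i)) (fun x => Z - x)
        (fun i _ x hx => deriv_bwd (by rw [hZ]; linarith) i hx)
        (fun x hx => ⟨by rw [hZ]; linarith [hx.2], by rw [hZ]; linarith [hx.1]⟩)
        (fun x _ => by
          rw [← hsabs]; ring)
        (fun x hx => by
          have hz : 0 < Z - x := by rw [hZ]; linarith [hx.2]
          have e1 : s * β * (-1) ^ (k + 1) * ff θ (k + 1) * (Z - x) ^ (θ - ((k + 1 : ℕ) : ℝ)) =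
              (s * (β * ((-1) ^ k * ff θ k))) * (k - θ) * (Z - x) ^ (θ - ((k + 1 : ℕ) : ℝ)) := by
            rw [ff_succ, pow_succ]; ring
          change 0 ≤ s * β * (-1) ^ (k + 1) * ff θ (k + 1) * (Z - x) ^ (θ - ((k + 1 : ℕ) : ℝ))
          rw [e1, hsabs]
          have := Real.rpow_pos_of_pos hz (θ - ((k + 1 : ℕ) : ℝ))
          have h2 : 0 < (k : ℝ) - θ := by linarith
          positivity)
      have e4 : (fun n : ℕ => s * β * (-1) ^ 0 * ff θ 0 * (Z - (n : ℝ)) ^ (θ - ((0 : ℕ) : ℝ))) =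
          fun n : ℕ => s * β * (Z - n) ^ θ := by
        funext n
        simp [ff]
      rw [e4] at key
      exact key
  · -- k < θ : forward
    have hffpos : 0 < ff θ k := by
      unfold ff
      apply Finset.prod_pos
      intro i hi
      have : (i : ℝ) < k := by exact_mod_cast Finset.mem_range.1 hi
      linarith
    set s : ℝ := if 0 < β then 1 else -1 with hs
    have hsabs : s * β = |β| := by
      by_cases h : 0 < β
      · rw [hs, if_pos h, abs_of_pos h, one_mul]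
      · rw [hs, if_neg h, abs_of_nonpos (not_lt.1 h)]
        ring
    refine ⟨fun n : ℕ => s * β * (Y + n) ^ θ, ?_, ?_⟩
    · by_cases h : 0 < β
      · rw [hs, if_pos h]
        simp only [one_mul]
      · rw [hs, if_neg h]
        have e3 : ∀ n : ℕ, (-1 : ℝ) * β * ((Y : ℝ) + n) ^ θ = -(β * ((Y : ℝ) + n) ^ θ) := fun n => by ring
        simp_rw [e3]
        rw [norm_neg_sum]
    · have key := gen (fun i x => s * β * ff θ i * (Y + x) ^ (θ - i)) (fun x => Y + x)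
        (fun i _ x hx => deriv_fwd hY0 i hx)
        (fun x hx => ⟨by linarith [hx.1], by linarith [hx.2]⟩)
        (fun x _ => by
          rw [hsabs, abs_of_pos hffpos])
        (fun x hx => by
          have hz : 0 < (Y : ℝ) + x := by linarith [hx.1]
          change 0 ≤ s * β * ff θ (k + 1) * ((Y : ℝ) + x) ^ (θ - ((k + 1 : ℕ) : ℝ))
          rw [ff_succ, hsabs]
          have := Real.rpow_pos_of_pos hz (θ - ((k + 1 : ℕ) : ℝ))
          have h2 : 0 < θ - (k : ℝ) := by linarith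
          have := abs_pos.2 hβ
          positivity)
      have e4 : (fun n : ℕ => s * β * ff θ 0 * ((Y : ℝ) + (n : ℝ)) ^ (θ - ((0 : ℕ) : ℝ))) =
          fun n : ℕ => s * β * (Y + n) ^ θ := by
        funext n
        simp [ff]
      rw [e4] at key
      exact key

end Pool.Agent.J4H7.WE
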