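import Pool.Agent.J4H7.WE.B1

set_option autoImplicit false

/-!
# Waring's problem with almost all real exponents, part B2 (helper7)

Exponential sums with `β z ^ θ`: power savings for `X ^ (-θ + 2η) ≤ |β| ≤ X ^ (K - θ)`.
-/

namespace Pool.Agent.J4H7.WE

open Real Set Filter Topology
open Pool.Agent.Helper153.Vdc (ee dd Cond ee_norm vdc)

lemma ES_one {θ : ℝ} (hθ : ∀ n : ℕ, θ ≠ n) (k : ℕ) (hk : 2 ≤ k) {η : ℝ} (hη : 0 < η) (hη1 : η < 1) :
    ∃ σ : ℝ, 0 < σ ∧ σ ≤ 1 ∧ ∃ C : ℝ, 1 ≤ C ∧ ∃ X0 : ℝ, 2 ≤ X0 ∧ ∀ X : ℝ, X0 ≤ X → ∀ β : ℝ,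
      X ^ ((k : ℝ) - 2 + 2 * η) ≤ |β| * X ^ θ → |β| * X ^ θ ≤ X ^ ((k : ℝ) - 2 * η) → ∀ Y M : ℕ, 4 * X ≤ Y →
      (Y : ℝ) + M ≤ 64 * X + 1 → ‖∑ n ∈ Finset.range M, ee (β * ((Y : ℝ) + n) ^ θ)‖ ≤ C * X ^ (1 - σ) := by
  have hA : 1 ≤ (16 : ℝ) ^ |θ - k| := Real.one_le_rpow (by norm_num) (abs_nonneg _)
  obtain ⟨σ', hσ', C, hC, H⟩ := vdc k hk ((16 : ℝ) ^ |θ - k|) hA η hη hη1
  set σ := min σ' 1 with hσ
  have hσ0 : 0 < σ := lt_min hσ' one_pos
  have hσ1 : σ ≤ 1 := min_le_right _ _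
  set κ : ℝ := |ff θ k| * min ((4 : ℝ) ^ (θ - k)) ((64 : ℝ) ^ (θ - k)) with hκ
  have hκ0 : 0 < κ := mul_pos (abs_pos.2 (ff_ne hθ k))
    (lt_min (Real.rpow_pos_of_pos (by norm_num) _) (Real.rpow_pos_of_pos (by norm_num) _))
  obtain ⟨X1, hX1⟩ := eventually_atTop.1 ((tendsto_rpow_atTop hη).eventually_ge_atTop (max (1 / κ) (65 ^ η * κ)))
  refine ⟨σ, hσ0, hσ1, C * 65, by linarith, max X1 2, le_max_right _ _, ?_⟩
  intro X hX β h1 h2 Y M hY hM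
  have hX2 : 2 ≤ X := (le_max_right _ _).trans hX
  have hX0 : 0 < X := by linarith
  have hXη := hX1 X ((le_max_left _ _).trans hX)
  have hXa : 1 / κ ≤ X ^ η := (le_max_left _ _).trans hXη
  have hXb : 65 ^ η * κ ≤ X ^ η := (le_max_right _ _).trans hXη
  have hβ : β ≠ 0 := by
    rintro rfl
    rw [abs_zero, zero_mul] at h1
    exact absurd h1 (not_le.2 (Real.rpow_pos_of_pos hX0 _))
  obtain ⟨g, hg1, hg2⟩ := cond_pow hθ k (by linarith) hβ hY hM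
  rw [hg1]
  set N := ⌈64 * X⌉₊ with hN
  have hNl : 64 * X ≤ N := Nat.le_ceil _
  have hNu : (N : ℝ) ≤ 65 * X := by
    have := Nat.ceil_lt_add_one (show 0 ≤ 64 * X by linarith)
    rw [← hN] at this
    linarith
  have hN0 : (0 : ℝ) < N := by linarith
  have hN1 : 1 ≤ N := by
    have : (1 : ℝ) ≤ N := by linarith
    exact_mod_cast this
  have hMN : M ≤ N := by
    have h3 : (M : ℝ) ≤ N := by linarith
    exact_mod_cast h3
  have elam : |β| * |ff θ k| * (min ((4 : ℝ) ^ (θ - k)) ((64 : ℝ) ^ (θ - k)) * X ^ (θ - k)) =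
      κ * (|β| * X ^ θ) * X ^ (-(k : ℝ)) := by
    rw [show θ - k = θ + -(k : ℝ) by ring, Real.rpow_add hX0, hκ, show θ + -(k : ℝ) = θ - k by ring]
    ring
  have hk0 : 0 < X ^ (-(k : ℝ)) := Real.rpow_pos_of_pos hX0 _
  have l1 : (N : ℝ) ^ (-2 + η) ≤ |β| * |ff θ k| * (min ((4 : ℝ) ^ (θ - k)) ((64 : ℝ) ^ (θ - k)) * X ^ (θ - k)) := by
    rw [elam]
    calc (N : ℝ) ^ (-2 + η) ≤ X ^ (-2 + η) := Real.rpow_le_rpow_of_nonpos hX0 (by linarith) (by linarith)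
      _ = 1 * X ^ (-2 + η) := (one_mul _).symm
      _ ≤ (κ * X ^ η) * X ^ (-2 + η) := by
        apply mul_le_mul_of_nonneg_right _ (Real.rpow_pos_of_pos hX0 _).le
        rw [div_le_iff₀ hκ0] at hXa
        linarith
      _ = κ * X ^ ((k : ℝ) - 2 + 2 * η) * X ^ (-(k : ℝ)) := by
        have e6 : X ^ η * X ^ (-2 + η) = X ^ ((k : ℝ) - 2 + 2 * η) * X ^ (-(k : ℝ)) := by
          rw [← Real.rpow_add hX0, ← Real.rpow_add hX0]
          congr 1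
          ring
        rw [mul_assoc κ, e6]
        ring
      _ ≤ _ := by
        apply mul_le_mul_of_nonneg_right _ hk0.le
        exact mul_le_mul_of_nonneg_left h1 hκ0.le
  have l2 : |β| * |ff θ k| * (min ((4 : ℝ) ^ (θ - k)) ((64 : ℝ) ^ (θ - k)) * X ^ (θ - k)) ≤ (N : ℝ) ^ (-η) := by
    rw [elam]
    have h65 : (0 : ℝ) < 65 ^ η := Real.rpow_pos_of_pos (by norm_num) _
    have hXη0 : 0 < X ^ η := Real.rpow_pos_of_pos hX0 _
    calc κ * (|β| * X ^ θ) * X ^ (-(k : ℝ)) ≤ κ * X ^ ((k : ℝ) - 2 * η) * X ^ (-(k : ℝ)) := by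
          apply mul_le_mul_of_nonneg_right _ hk0.le
          exact mul_le_mul_of_nonneg_left h2 hκ0.le
      _ = κ * X ^ (-(2 * η)) := by
          rw [mul_assoc, ← Real.rpow_add hX0]
          congr 2
          ring
      _ = (κ * 65 ^ η) * X ^ (-η) * ((65 : ℝ) ^ (-η) * X ^ (-η)) := by
          rw [Real.rpow_neg (by norm_num : (0 : ℝ) ≤ 65), show -(2 * η) = -η + -η by ring, Real.rpow_add hX0]
          field_simp
      _ ≤ 1 * ((65 : ℝ) ^ (-η) * X ^ (-η)) := by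
          apply mul_le_mul_of_nonneg_right
          · rw [Real.rpow_neg hX0.le, ← div_eq_mul_inv, div_le_one hXη0]
            linarith
          · exact mul_nonneg (Real.rpow_nonneg (by norm_num) _) (Real.rpow_nonneg hX0.le _)
      _ = (65 * X) ^ (-η) := by
          rw [one_mul, Real.mul_rpow (by norm_num) hX0.le]
      _ ≤ (N : ℝ) ^ (-η) := Real.rpow_le_rpow_of_nonpos hN0 hNu (by linarith)
  refine (H N M g _ hN1 hMN hg2 l1 l2).trans ?_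
  have hN1' : (1 : ℝ) ≤ N := by exact_mod_cast hN1
  calc C * (N : ℝ) ^ (1 - σ') ≤ C * (N : ℝ) ^ (1 - σ) := by
        apply mul_le_mul_of_nonneg_left _ (by linarith)
        exact Real.rpow_le_rpow_of_exponent_le hN1' (by linarith [min_le_left σ' 1])
    _ ≤ C * (65 * X) ^ (1 - σ) := by
        apply mul_le_mul_of_nonneg_left _ (by linarith)
        exact Real.rpow_le_rpow hN0.le hNu (by linarith)
    _ = C * ((65 : ℝ) ^ (1 - σ) * X ^ (1 - σ)) := by rw [Real.mul_rpow (by norm_num) hX0.le]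
    _ ≤ C * (65 * X ^ (1 - σ)) := by
        apply mul_le_mul_of_nonneg_left _ (by linarith)
        apply mul_le_mul_of_nonneg_right _ (Real.rpow_nonneg hX0.le _)
        calc (65 : ℝ) ^ (1 - σ) ≤ 65 ^ (1 : ℝ) := Real.rpow_le_rpow_of_exponent_le (by norm_num) (by linarith)
          _ = 65 := Real.rpow_one _
    _ = _ := by ring

lemma ES_all {θ : ℝ} (hθ : ∀ n : ℕ, θ ≠ n) {η : ℝ} (hη : 0 < η) (hη1 : η < 1) (K : ℕ) :
    ∃ σ : ℝ, 0 < σ ∧ σ ≤ 1 ∧ ∃ C : ℝ, 1 ≤ C ∧ ∃ X0 : ℝ, 2 ≤ X0 ∧ ∀ k : ℕ, 2 ≤ k → k ≤ K → ∀ X : ℝ, X0 ≤ X → ∀ β : ℝ,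
      X ^ ((k : ℝ) - 2 + 2 * η) ≤ |β| * X ^ θ → |β| * X ^ θ ≤ X ^ ((k : ℝ) - 2 * η) → ∀ Y M : ℕ, 4 * X ≤ Y →
      (Y : ℝ) + M ≤ 64 * X + 1 → ‖∑ n ∈ Finset.range M, ee (β * ((Y : ℝ) + n) ^ θ)‖ ≤ C * X ^ (1 - σ) := by
  induction K with
  | zero =>
    exact ⟨1, one_pos, le_rfl, 1, le_rfl, 2, le_rfl, fun k h1 h2 => by omega⟩
  | succ K ih =>
    obtain ⟨σ1, h1, h1', C1, hC1, X1, hX1, H1⟩ := ih
    by_cases hK : 2 ≤ K + 1
    · obtain ⟨σ2, h2, h2', C2, hC2, X2, hX2, H2⟩ := ES_one hθ (K + 1) hK hη hη1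
      refine ⟨min σ1 σ2, lt_min h1 h2, (min_le_left _ _).trans h1', max C1 C2, hC1.trans (le_max_left _ _), max X1 X2,
        hX1.trans (le_max_left _ _), ?_⟩
      intro k hk hkK X hX β hb1 hb2 Y M hY hM
      have hXp : (1 : ℝ) ≤ X := by linarith [(le_max_left X1 X2).trans hX]
      have hpos : ∀ s : ℝ, 0 ≤ X ^ s := fun s => Real.rpow_nonneg (by linarith) s
      rcases Nat.lt_or_ge k (K + 1) with hlt | hge
      · refine (H1 k hk (by omega) X ((le_max_left _ _).trans hX) β hb1 hb2 Y M hY hM).trans ?_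
        refine mul_le_mul (le_max_left _ _) ?_ (hpos _) (by linarith [le_max_left C1 C2])
        exact Real.rpow_le_rpow_of_exponent_le hXp (by linarith [min_le_left σ1 σ2])
      · have hke : k = K + 1 := by omega
        subst hke
        refine (H2 X ((le_max_right _ _).trans hX) β hb1 hb2 Y M hY hM).trans ?_
        refine mul_le_mul (le_max_right _ _) ?_ (hpos _) (by linarith [le_max_left C1 C2])
        exact Real.rpow_le_rpow_of_exponent_le hXp (by linarith [min_le_right σ1 σ2])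
    · exact ⟨σ1, h1, h1', C1, hC1, X1, hX1, fun k h3 h4 => by omega⟩

/-- **the exponential sums** -/
theorem ES {θ : ℝ} (hθ : ∀ n : ℕ, θ ≠ n) {η : ℝ} (hη : 0 < η) (hη1 : η ≤ 1 / 4) (K : ℕ) :
    ∃ σ : ℝ, 0 < σ ∧ σ ≤ 1 ∧ ∃ C : ℝ, 1 ≤ C ∧ ∃ X0 : ℝ, 2 ≤ X0 ∧ ∀ X : ℝ, X0 ≤ X → ∀ β : ℝ,
      X ^ (2 * η) ≤ |β| * X ^ θ → |β| * X ^ θ ≤ X ^ (K : ℝ) → ∀ Y M : ℕ, 4 * X ≤ Y →
      (Y : ℝ) + M ≤ 64 * X + 1 → ‖∑ n ∈ Finset.range M, ee (β * ((Y : ℝ) + n) ^ θ)‖ ≤ C * X ^ (1 - σ) := by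
  obtain ⟨σ, h1, h2, C, hC, X0, hX0, H⟩ := ES_all hθ hη (by linarith) (K + 2)
  refine ⟨σ, h1, h2, C, hC, X0, hX0, ?_⟩
  intro X hX β hb1 hb2 Y M hY hM
  have hX2 : 2 ≤ X := hX0.trans hX
  have hXp : 0 < X := by linarith
  have hl : 0 < Real.log X := Real.log_pos (by linarith)
  have hpos : 0 < |β| * X ^ θ := lt_of_lt_of_le (Real.rpow_pos_of_pos hXp _) hb1
  set μ : ℝ := Real.log (|β| * X ^ θ) / Real.log X with hμ
  have hXμ : X ^ μ = |β| * X ^ θ := by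
    rw [Real.rpow_def_of_pos hXp, hμ, mul_div_cancel₀ _ hl.ne', Real.exp_log hpos]
  have m1 : 2 * η ≤ μ := by
    rw [← hXμ] at hb1
    exact (Real.rpow_le_rpow_left_iff (by linarith)).1 hb1
  have m2 : μ ≤ K := by
    rw [← hXμ] at hb2
    exact (Real.rpow_le_rpow_left_iff (by linarith)).1 hb2
  rcases le_or_gt μ (2 - 2 * η) with h3 | h3
  · refine H 2 le_rfl (by omega) X hX β ?_ ?_ Y M hY hM
    · rw [← hXμ]
      exact Real.rpow_le_rpow_of_exponent_le (by linarith) (by push_cast; linarith)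
    · rw [← hXμ]
      exact Real.rpow_le_rpow_of_exponent_le (by linarith) (by push_cast; linarith)
  · set k := ⌈μ + 2 * η⌉₊ with hk
    have k1 : μ + 2 * η ≤ k := Nat.le_ceil _
    have k2 : (k : ℝ) < μ + 2 * η + 1 := Nat.ceil_lt_add_one (by linarith)
    have k3 : 2 ≤ k := by
      have : (2 : ℝ) < k := by linarith
      have : 2 < k := by exact_mod_cast this
      omega
    have k4 : k ≤ K + 2 := by
      have : (k : ℝ) < ((K + 2 : ℕ) : ℝ) := by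
        push_cast
        linarith
      have : k < K + 2 := by exact_mod_cast this
      omega
    refine H k k3 k4 X hX β ?_ ?_ Y M hY hM
    · rw [← hXμ]
      exact Real.rpow_le_rpow_of_exponent_le (by linarith) (by linarith)
    · rw [← hXμ]
      exact Real.rpow_le_rpow_of_exponent_le (by linarith) (by linarith)

end Pool.Agent.J4H7.WE
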