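import Pool.Agent.Helper153.FacA

set_option autoImplicit false

/-!
# Waring's problem with almost all real exponents, part C1 (helper7)

The Fourier series of `sin² (π t) e(-α {t})`.
-/

namespace Pool.Agent.J4H7.WE

open Set MeasureTheory Filter Topology
open Pool.Agent.Helper153.Vdc (ee)

/-- the weight -/
noncomputable def ww (t : ℝ) : ℝ := Real.sin (Real.pi * t) ^ 2

lemma ww_nonneg (t : ℝ) : 0 ≤ ww t := sq_nonneg _

lemma ww_le (t : ℝ) : ww t ≤ 1 := Real.sin_sq_le_one _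

lemma ee_add (x y : ℝ) : ee (x + y) = ee x * ee y := by
  unfold ee
  rw [← Complex.exp_add]
  congr 1
  push_cast
  ring

lemma ee_int (n : ℤ) : ee n = 1 := by
  unfold ee
  rw [Complex.exp_eq_one_iff]
  exact ⟨n, by push_cast; ring⟩

lemma ee_zero : ee 0 = 1 := by
  have := ee_int 0
  simpa using this

lemma ww_fract (t : ℝ) : ww (Int.fract t) = ww t := by
  unfold ww
  have h : Real.pi * Int.fract t = Real.pi * t - (⌊t⌋ : ℝ) * Real.pi := by
    rw [Int.fract]; ring
  rw [h, Real.sin_sub_int_mul_pi, mul_pow]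
  have h2 : ((-1 : ℝ) ^ ⌊t⌋) ^ 2 = 1 := by
    rcases Int.even_or_odd ⌊t⌋ with h | h
    · rw [h.neg_one_zpow]; norm_num
    · rw [h.neg_one_zpow]; norm_num
  rw [h2, one_mul]

/-- the weight in terms of exponentials -/
lemma ww_ee (t : ℝ) : ((ww t : ℝ) : ℂ) = (2 - ee t - ee (-t)) / 4 := by
  unfold ww ee
  have h1 : (2 * Real.pi * (t : ℂ) * Complex.I) = ((2 * (Real.pi * t) : ℝ) : ℂ) * Complex.I := by push_cast; ring
  have h2 : (2 * Real.pi * ((-t : ℝ) : ℂ) * Complex.I) = ((-(2 * (Real.pi * t)) : ℝ) : ℂ) * Complex.I := by push_cast; ring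
  rw [h1, h2, Complex.exp_mul_I, Complex.exp_mul_I, ← Complex.ofReal_cos, ← Complex.ofReal_sin, ← Complex.ofReal_cos,
    ← Complex.ofReal_sin, Real.cos_neg, Real.sin_neg, Real.cos_two_mul]
  have h3 := Real.sin_sq_add_cos_sq (Real.pi * t)
  have h4 : Real.sin (Real.pi * t) ^ 2 = (2 - 2 * (2 * Real.cos (Real.pi * t) ^ 2 - 1)) / 4 := by linarith
  rw [h4]
  push_cast
  ring

/-- the function on `[0,1]` -/
noncomputable def gg (α : ℝ) (x : ℝ) : ℂ := (ww x : ℂ) * ee (-(α * x))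

lemma ee_cont : Continuous ee := by
  unfold ee
  fun_prop

lemma gg_cont (α : ℝ) : Continuous (gg α) := by
  unfold gg ww
  have := ee_cont
  fun_prop

/-- the integral -/
noncomputable def cf (α : ℝ) (n : ℤ) : ℂ := ∫ x in (0 : ℝ)..1, (ww x : ℂ) * ee (-((n + α) * x))

lemma ee_norm' (x : ℝ) : ‖ee x‖ = 1 := by
  unfold ee
  have e : (2 * Real.pi * x * Complex.I : ℂ) = ((2 * Real.pi * x : ℝ) : ℂ) * Complex.I := by
    push_cast; ring
  rw [e, Complex.norm_exp_ofReal_mul_I]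

lemma cf_le_one (α : ℝ) (n : ℤ) : ‖cf α n‖ ≤ 1 := by
  unfold cf
  have h := intervalIntegral.norm_integral_le_of_norm_le_const (a := (0 : ℝ)) (b := 1) (C := 1)
    (f := fun x : ℝ => (ww x : ℂ) * ee (-((n + α) * x))) (fun x _ => by
      rw [norm_mul, ee_norm', mul_one, Complex.norm_real, Real.norm_of_nonneg (ww_nonneg x)]
      exact ww_le x)
  simpa using h

lemma ee_integral {η : ℝ} (hη : η ≠ 0) : ∫ x in (0 : ℝ)..1, ee (-(η * x)) = (ee (-η) - 1) / (-(2 * Real.pi * η * Complex.I)) := by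
  have hc : (-(2 * Real.pi * η * Complex.I) : ℂ) ≠ 0 := by
    apply neg_ne_zero.2
    have : (Real.pi : ℂ) ≠ 0 := by exact_mod_cast Real.pi_ne_zero
    have h2 : (η : ℂ) ≠ 0 := by exact_mod_cast hη
    simp [this, h2]
  have h1 := integral_exp_mul_complex (a := (0 : ℝ)) (b := 1) hc
  have h2 : (fun x : ℝ => ee (-(η * x))) = fun x : ℝ => Complex.exp (-(2 * Real.pi * η * Complex.I) * x) := by
    funext x
    unfold ee
    congr 1
    push_cast
    ring
  rw [h2, h1]
  congr 1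
  unfold ee
  simp only [Complex.ofReal_zero, mul_zero, Complex.exp_zero, Complex.ofReal_one, mul_one]
  congr 2
  push_cast
  ring

lemma ee_shift (ξ : ℝ) (n : ℤ) : ee (-(ξ + n)) = ee (-ξ) := by
  rw [neg_add, ee_add]
  have : ee (-(n : ℝ)) = 1 := by
    have := ee_int (-n)
    push_cast at this
    exact this
  rw [this, mul_one]

/-- explicit formula -/
lemma cf_eq {ξ : ℝ} (h0 : ξ ≠ 0) (h1 : ξ - 1 ≠ 0) (h2 : ξ + 1 ≠ 0) :
    ∫ x in (0 : ℝ)..1, (ww x : ℂ) * ee (-(ξ * x)) =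
      (ee (-ξ) - 1) / (8 * Real.pi * Complex.I) * (2 / (ξ * (ξ ^ 2 - 1)) : ℝ) := by
  have hcont : ∀ η : ℝ, Continuous fun x : ℝ => ee (-(η * x)) := fun η => by
    have := ee_cont
    fun_prop
  have e1 : ∀ x : ℝ, (ww x : ℂ) * ee (-(ξ * x)) = 1 / 2 * ee (-(ξ * x)) - 1 / 4 * ee (-((ξ - 1) * x)) -
      1 / 4 * ee (-((ξ + 1) * x)) := by
    intro x
    rw [ww_ee, show -((ξ - 1) * x) = -(ξ * x) + x by ring, show -((ξ + 1) * x) = -(ξ * x) + -x by ring, ee_add, ee_add]
    ring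
  simp_rw [e1]
  rw [intervalIntegral.integral_sub, intervalIntegral.integral_sub, intervalIntegral.integral_const_mul,
    intervalIntegral.integral_const_mul, intervalIntegral.integral_const_mul, ee_integral h0, ee_integral h1, ee_integral h2]
  · have s1 : ee (-(ξ - 1)) = ee (-ξ) := by
      have := ee_shift ξ (-1)
      push_cast at this
      rw [← sub_eq_add_neg] at this
      exact this
    have s2 : ee (-(ξ + 1)) = ee (-ξ) := by
      have := ee_shift ξ 1
      push_cast at this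
      exact this
    rw [s1, s2]
    have hp : (Real.pi : ℂ) ≠ 0 := by exact_mod_cast Real.pi_ne_zero
    have k0 : (ξ : ℂ) ≠ 0 := by exact_mod_cast h0
    have k1 : (ξ : ℂ) - 1 ≠ 0 := by exact_mod_cast h1
    have k2 : (ξ : ℂ) + 1 ≠ 0 := by exact_mod_cast h2
    have k3 : (ξ : ℂ) ^ 2 - 1 ≠ 0 := by
      have : (ξ : ℂ) ^ 2 - 1 = (ξ - 1) * (ξ + 1) := by ring
      rw [this]
      exact mul_ne_zero k1 k2
    push_cast
    rw [show (ξ : ℂ) ^ 2 - 1 = (ξ - 1) * (ξ + 1) by ring]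
    field_simp
    ring
  · exact (continuous_const.mul (hcont ξ)).intervalIntegrable _ _
  · exact (continuous_const.mul (hcont (ξ - 1))).intervalIntegrable _ _
  · exact ((continuous_const.mul (hcont ξ)).sub (continuous_const.mul (hcont (ξ - 1)))).intervalIntegrable _ _
  · exact (continuous_const.mul (hcont (ξ + 1))).intervalIntegrable _ _

/-- cubic decay -/
lemma cf_bound {α : ℝ} (hα : |α| ≤ 1 / 2) (n : ℤ) : ‖cf α n‖ ≤ 8 / (1 + |(n : ℝ)|) ^ 3 := by
  rcases le_or_gt |n| 1 with hn | hn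
  · have hn' : |(n : ℝ)| ≤ 1 := by exact_mod_cast hn
    refine (cf_le_one α n).trans ?_
    rw [le_div_iff₀ (by positivity)]
    have h0 := abs_nonneg (n : ℝ)
    have : (1 + |(n : ℝ)|) ^ 3 ≤ 2 ^ 3 := pow_le_pow_left₀ (by linarith) (by linarith) 3
    linarith
  · have hn2 : (2 : ℝ) ≤ |(n : ℝ)| := by
      have : (2 : ℤ) ≤ |n| := hn
      exact_mod_cast this
    set ξ : ℝ := n + α with hξ
    set a : ℝ := |ξ| with ha
    have ha1 : |(n : ℝ)| - 1 / 2 ≤ a := by
      have := abs_sub_abs_le_abs_sub (n : ℝ) (-α)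
      rw [abs_neg, sub_neg_eq_add, ← hξ] at this
      linarith
    have ha2 : 3 / 2 ≤ a := by linarith
    have ha3 : (1 + |(n : ℝ)|) / 2 ≤ a := by linarith
    have k0 : ξ ≠ 0 := by
      intro h
      rw [ha, h, abs_zero] at ha2
      linarith
    have k1 : ξ - 1 ≠ 0 := by
      intro h
      have : ξ = 1 := by linarith
      rw [ha, this, abs_one] at ha2
      linarith
    have k2 : ξ + 1 ≠ 0 := by
      intro h
      have : ξ = -1 := by linarith
      rw [ha, this, abs_neg, abs_one] at ha2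
      linarith
    have e1 : cf α n = (ee (-ξ) - 1) / (8 * Real.pi * Complex.I) * (2 / (ξ * (ξ ^ 2 - 1)) : ℝ) := by
      unfold cf
      exact cf_eq k0 k1 k2
    have hsq : ξ ^ 2 = a ^ 2 := (sq_abs ξ).symm
    have hden : a ^ 3 / 2 ≤ |ξ * (ξ ^ 2 - 1)| := by
      rw [abs_mul, ← ha, hsq, abs_of_nonneg (by nlinarith)]
      nlinarith [mul_nonneg (show (0 : ℝ) ≤ a by linarith) (show 0 ≤ a ^ 2 - 2 by nlinarith)]
    have hden0 : 0 < a ^ 3 / 2 := by positivity
    have h3 : ‖(ee (-ξ) - 1) / (8 * Real.pi * Complex.I)‖ ≤ 2 / (8 * 3) := by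
      rw [norm_div]
      have g1 : ‖ee (-ξ) - 1‖ ≤ 2 := by
        refine (norm_sub_le _ _).trans ?_
        rw [ee_norm', norm_one]; norm_num
      have g2 : ‖(8 * Real.pi * Complex.I : ℂ)‖ = 8 * Real.pi := by
        rw [norm_mul, norm_mul, Complex.norm_I, mul_one, Complex.norm_real, Real.norm_of_nonneg Real.pi_pos.le]
        norm_num
      rw [g2]
      have := Real.pi_gt_three
      gcongr
    have h4 : ‖((2 / (ξ * (ξ ^ 2 - 1)) : ℝ) : ℂ)‖ ≤ 2 / (a ^ 3 / 2) := by
      rw [Complex.norm_real, Real.norm_eq_abs, abs_div, abs_two]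
      gcongr
    rw [e1, norm_mul]
    calc ‖(ee (-ξ) - 1) / (8 * Real.pi * Complex.I)‖ * ‖((2 / (ξ * (ξ ^ 2 - 1)) : ℝ) : ℂ)‖
        ≤ 2 / (8 * 3) * (2 / (a ^ 3 / 2)) := mul_le_mul h3 h4 (norm_nonneg _) (by norm_num)
      _ = 1 / 3 / a ^ 3 := by field_simp; norm_num
      _ ≤ 1 / 3 / ((1 + |(n : ℝ)|) / 2) ^ 3 := by gcongr
      _ = 8 / 3 / (1 + |(n : ℝ)|) ^ 3 := by field_simp; norm_num
      _ ≤ _ := by gcongr; norm_num

lemma sum_dec : Summable fun n : ℤ => 8 / (1 + |(n : ℝ)|) ^ 2 := by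
  have h1 : Summable fun n : ℤ => 1 / (n : ℝ) ^ 2 := Real.summable_one_div_int_pow.2 (by norm_num)
  have h2 : Summable fun n : ℤ => if n = 0 then (1 : ℝ) else 0 := summable_of_ne_finset_zero (s := {0}) (by
    intro n hn
    rw [if_neg (by simpa using hn)])
  refine Summable.of_nonneg_of_le (fun n => by positivity) (fun n => ?_) ((h1.add h2).mul_left 8)
  by_cases hn : n = 0
  · subst hn
    simp
  · rw [if_neg hn, add_zero]
    have hn1 : (0 : ℝ) < |(n : ℝ)| := abs_pos.2 (by exact_mod_cast hn)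
    rw [← sq_abs (n : ℝ), mul_one_div]
    gcongr
    linarith

lemma cf_summable {α : ℝ} (hα : |α| ≤ 1 / 2) : Summable (cf α) := by
  refine Summable.of_norm_bounded sum_dec fun n => (cf_bound hα n).trans ?_
  have h0 := abs_nonneg (n : ℝ)
  have h1 : 1 ≤ 1 + |(n : ℝ)| := by linarith
  gcongr
  norm_num

/-- **the Fourier series** -/
theorem fourier_ww {α : ℝ} (hα : |α| ≤ 1 / 2) (t : ℝ) :
    HasSum (fun n : ℤ => cf α n * ee (n * t)) ((ww t : ℂ) * ee (-(α * Int.fract t))) := by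
  have : Fact ((0 : ℝ) < 1) := ⟨one_pos⟩
  have hg0 : gg α 0 = gg α 1 := by
    unfold gg ww
    simp
  set f : C(AddCircle (1 : ℝ), ℂ) := ⟨AddCircle.liftIco 1 0 (gg α),
    AddCircle.liftIco_zero_continuous hg0 (gg_cont α).continuousOn⟩ with hf
  have hcoef : ∀ n : ℤ, fourierCoeff f n = cf α n := by
    intro n
    have h1 : fourierCoeff f n = fourierCoeffOn (lt_add_of_pos_right (0 : ℝ) (one_pos)) (gg α) n :=
      fourierCoeff_liftIco_eq (T := 1) (a := 0) (gg α) n
    rw [h1, fourierCoeffOn_eq_integral]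
    unfold cf
    simp only [zero_add, sub_zero, div_one, one_smul]
    refine intervalIntegral.integral_congr fun x _ => ?_
    rw [fourier_coe_apply, smul_eq_mul]
    unfold gg ee
    rw [mul_left_comm, ← Complex.exp_add]
    congr 2
    push_cast
    ring
  have hsum : Summable (fourierCoeff f) := by
    have : fourierCoeff f = cf α := funext hcoef
    rw [this]
    exact cf_summable hα
  have key := has_pointwise_sum_fourier_series_of_summable hsum ((t : ℝ) : AddCircle (1 : ℝ))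
  have e1 : ((t : ℝ) : AddCircle (1 : ℝ)) = ((Int.fract t : ℝ) : AddCircle (1 : ℝ)) := by
    have : t = Int.fract t + ⌊t⌋ := (Int.fract_add_floor t).symm
    conv_lhs => rw [this]
    rw [AddCircle.coe_add]
    have h2 : ((⌊t⌋ : ℝ) : AddCircle (1 : ℝ)) = 0 := by
      rw [AddCircle.coe_eq_zero_iff]
      exact ⟨⌊t⌋, by simp⟩
    rw [h2, add_zero]
  have e2 : f ((t : ℝ) : AddCircle (1 : ℝ)) = (ww t : ℂ) * ee (-(α * Int.fract t)) := by
    rw [e1]
    have h3 : AddCircle.liftIco (1 : ℝ) 0 (gg α) ((Int.fract t : ℝ) : AddCircle (1 : ℝ)) = gg α (Int.fract t) :=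
      AddCircle.liftIco_zero_coe_apply ⟨Int.fract_nonneg t, Int.fract_lt_one t⟩
    change AddCircle.liftIco (1 : ℝ) 0 (gg α) ((Int.fract t : ℝ) : AddCircle (1 : ℝ)) = _
    rw [h3]
    unfold gg
    rw [ww_fract]
  rw [e2] at key
  convert key using 2 with n
  rw [hcoef, fourier_coe_apply, smul_eq_mul]
  congr 1
  unfold ee
  congr 1
  push_cast
  ring

end Pool.Agent.J4H7.WE
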