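import Pool.Agent.J4H7.WE.B2
import Pool.Agent.J4H7.WE.C1

set_option autoImplicit false

/-!
# Waring's problem with almost all real exponents, part C2 (helper7)

The weighted exponential sum over `⌊z ^ θ⌋`.
-/

namespace Pool.Agent.J4H7.WE

open Set Filter Topology
open Pool.Agent.Helper153.Vdc (ee ee_norm)

/-- the weighted sum -/
noncomputable def GG (θ : ℝ) (Y M : ℕ) (α : ℝ) : ℂ :=
  ∑ n ∈ Finset.range M, ((ww (((Y : ℝ) + n) ^ θ) : ℝ) : ℂ) * ee (α * (⌊((Y : ℝ) + n) ^ θ⌋₊ : ℝ))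

/-- the pure sum -/
noncomputable def SE (θ : ℝ) (Y M : ℕ) (ξ : ℝ) : ℂ := ∑ n ∈ Finset.range M, ee (ξ * ((Y : ℝ) + n) ^ θ)

lemma SE_triv (θ : ℝ) (Y M : ℕ) (ξ : ℝ) : ‖SE θ Y M ξ‖ ≤ M := by
  unfold SE
  refine (norm_sum_le _ _).trans ?_
  simp_rw [ee_norm]
  simp

lemma GG_hasSum (θ : ℝ) (Y M : ℕ) {α : ℝ} (hα : |α| ≤ 1 / 2) :
    HasSum (fun h : ℤ => cf α h * SE θ Y M (h + α)) (GG θ Y M α) := by
  have h1 : ∀ n ∈ Finset.range M, HasSum (fun h : ℤ => cf α h * ee ((h + α) * ((Y : ℝ) + n) ^ θ))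
      (((ww (((Y : ℝ) + n) ^ θ) : ℝ) : ℂ) * ee (α * (⌊((Y : ℝ) + n) ^ θ⌋₊ : ℝ))) := by
    intro n _
    set t : ℝ := ((Y : ℝ) + n) ^ θ with ht
    have ht0 : 0 ≤ t := Real.rpow_nonneg (by positivity) _
    have h2 := (fourier_ww hα t).mul_right (ee (α * t))
    have e1 : (ww t : ℂ) * ee (-(α * Int.fract t)) * ee (α * t) = (ww t : ℂ) * ee (α * (⌊t⌋₊ : ℝ)) := by
      rw [mul_assoc, ← ee_add]
      congr 2
      have : (⌊t⌋₊ : ℝ) = (⌊t⌋ : ℝ) := natCast_floor_eq_intCast_floor ht0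
      rw [this, Int.fract]
      ring
    rw [e1] at h2
    refine h2.congr_fun ?_
    intro h
    rw [mul_assoc, ← ee_add]
    congr 2
    ring
  have h3 := hasSum_sum h1
  have e2 : (fun h : ℤ => ∑ n ∈ Finset.range M, cf α h * ee ((h + α) * ((Y : ℝ) + n) ^ θ)) =
      fun h : ℤ => cf α h * SE θ Y M (h + α) := by
    funext h
    unfold SE
    rw [Finset.mul_sum]
  rw [e2] at h3
  exact h3

theorem G_bound {θ : ℝ} (hθ1 : 1 < θ) (hθ : ∀ n : ℕ, θ ≠ n) {η : ℝ} (hη : 0 < η) (hη1 : η ≤ 1 / 4) :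
    ∃ σ : ℝ, 0 < σ ∧ σ ≤ 1 ∧ ∃ C : ℝ, 1 ≤ C ∧ ∃ X0 : ℝ, 4 ≤ X0 ∧ ∀ X : ℝ, X0 ≤ X → ∀ α : ℝ, |α| ≤ 1 / 2 →
      X ^ (2 * η) ≤ |α| * X ^ θ → ∀ Y M : ℕ, 4 * X ≤ Y →
      (Y : ℝ) + M ≤ 64 * X + 1 → ‖GG θ Y M α‖ ≤ C * X ^ (1 - σ) := by
  obtain ⟨σ, hσ, hσ1, C, hC, X0, hX0, H⟩ := ES hθ hη hη1 (⌈θ⌉₊ + 2)
  have hS := sum_dec
  set S : ℝ := ∑' n : ℤ, 8 / (1 + |(n : ℝ)|) ^ 2 with hSd
  have hS0 : 0 ≤ S := tsum_nonneg fun n => by positivity
  refine ⟨σ, hσ, hσ1, 1 + S * (C + 130), ?_, max X0 4, le_max_right _ _, ?_⟩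
  · have : 0 ≤ S * (C + 130) := mul_nonneg hS0 (by linarith)
    linarith
  intro X hX α hα hα2 Y M hY hM
  have hX4 : 4 ≤ X := (le_max_right _ _).trans hX
  have hXp : 0 < X := by linarith
  set P : ℝ := X ^ (1 - σ) with hP
  have hP1 : 1 ≤ P := Real.one_le_rpow (by linarith) (by linarith)
  have hM65 : (M : ℝ) ≤ 65 * X := by
    have : (0 : ℝ) ≤ Y := by positivity
    linarith
  -- each term
  have hterm : ∀ h : ℤ, ‖cf α h * SE θ Y M (h + α)‖ ≤ 8 / (1 + |(h : ℝ)|) ^ 2 * ((C + 130) * P) := by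
    intro h
    have hh0 := abs_nonneg (h : ℝ)
    have hSE : ‖SE θ Y M (h + α)‖ ≤ (1 + |(h : ℝ)|) * ((C + 130) * P) := by
      rcases le_or_gt |(h : ℝ) + α| X with hle | hgt
      · have g1 : ‖SE θ Y M (h + α)‖ ≤ C * P := by
          refine H X ((le_max_left _ _).trans hX) (h + α) ?_ ?_ Y M hY hM
          · by_cases hh : h = 0
            · subst hh
              simpa using hα2
            · have h1 : (1 : ℝ) ≤ |(h : ℝ)| := by
                have : (1 : ℤ) ≤ |h| := Int.one_le_abs hh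
                exact_mod_cast this
              have h2 : 1 / 2 ≤ |(h : ℝ) + α| := by
                have := abs_sub_abs_le_abs_sub (h : ℝ) (-α)
                rw [abs_neg, sub_neg_eq_add] at this
                linarith
              have h3 : X ^ (2 * η) ≤ X ^ (1 / 2 : ℝ) := Real.rpow_le_rpow_of_exponent_le (by linarith) (by linarith)
              have h4 : X ^ (1 / 2 : ℝ) * X ^ (1 / 2 : ℝ) ≤ X ^ θ := by
                rw [← Real.rpow_add hXp]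
                exact Real.rpow_le_rpow_of_exponent_le (by linarith) (by linarith)
              have h5 : (2 : ℝ) ≤ X ^ (1 / 2 : ℝ) := by
                have : (2 : ℝ) = (4 : ℝ) ^ (1 / 2 : ℝ) := by
                  rw [show (4 : ℝ) = 2 ^ (2 : ℝ) by norm_num, ← Real.rpow_mul (by norm_num)]
                  norm_num
                exact this.le.trans (Real.rpow_le_rpow (by norm_num) hX4 (by norm_num))
              have h6 : 0 < X ^ (1 / 2 : ℝ) := by linarith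
              calc X ^ (2 * η) ≤ X ^ (1 / 2 : ℝ) := h3
                _ ≤ 1 / 2 * (X ^ (1 / 2 : ℝ) * X ^ (1 / 2 : ℝ)) := by nlinarith
                _ ≤ 1 / 2 * X ^ θ := by linarith
                _ ≤ |(h : ℝ) + α| * X ^ θ := mul_le_mul_of_nonneg_right h2 (Real.rpow_nonneg hXp.le _)
          · calc |(h : ℝ) + α| * X ^ θ ≤ X * X ^ θ := mul_le_mul_of_nonneg_right hle (Real.rpow_nonneg hXp.le _)
              _ = X ^ (θ + 1) := by rw [Real.rpow_add_one hXp.ne']; ring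
              _ ≤ X ^ (((⌈θ⌉₊ + 2 : ℕ)) : ℝ) := by
                apply Real.rpow_le_rpow_of_exponent_le (by linarith)
                have := Nat.le_ceil θ
                push_cast
                linarith
        calc ‖SE θ Y M (h + α)‖ ≤ C * P := g1
          _ ≤ 1 * ((C + 130) * P) := by nlinarith
          _ ≤ _ := by
            apply mul_le_mul_of_nonneg_right _ (by nlinarith)
            linarith
      · have h1 : X / 2 ≤ |(h : ℝ)| := by
          have := abs_add_le (h : ℝ) α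
          linarith
        calc ‖SE θ Y M (h + α)‖ ≤ M := SE_triv _ _ _ _
          _ ≤ 65 * X := hM65
          _ ≤ (1 + |(h : ℝ)|) * 130 := by linarith
          _ ≤ _ := by
            apply mul_le_mul_of_nonneg_left _ (by linarith)
            nlinarith
    rw [norm_mul]
    calc ‖cf α h‖ * ‖SE θ Y M (h + α)‖ ≤ 8 / (1 + |(h : ℝ)|) ^ 3 * ((1 + |(h : ℝ)|) * ((C + 130) * P)) :=
          mul_le_mul (cf_bound hα h) hSE (norm_nonneg _) (by positivity)
      _ = _ := by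
        field_simp
  have hG := GG_hasSum θ Y M hα
  have hsum : Summable fun h : ℤ => 8 / (1 + |(h : ℝ)|) ^ 2 * ((C + 130) * P) := hS.mul_right _
  calc ‖GG θ Y M α‖ = ‖∑' h : ℤ, cf α h * SE θ Y M (h + α)‖ := by rw [hG.tsum_eq]
    _ ≤ ∑' h : ℤ, 8 / (1 + |(h : ℝ)|) ^ 2 * ((C + 130) * P) := tsum_of_norm_bounded hsum.hasSum hterm
    _ = S * ((C + 130) * P) := by rw [tsum_mul_right]
    _ ≤ (1 + S * (C + 130)) * P := by nlinarith

/-- the number of integers with weights in an interval -/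
theorem W_bound {θ : ℝ} (hθ1 : 1 < θ) (hθ : ∀ n : ℕ, θ ≠ n) :
    ∃ σ : ℝ, 0 < σ ∧ σ ≤ 1 ∧ ∃ C : ℝ, 1 ≤ C ∧ ∃ X0 : ℝ, 4 ≤ X0 ∧ ∀ X : ℝ, X0 ≤ X → ∀ Y M : ℕ, 4 * X ≤ Y →
      (Y : ℝ) + M ≤ 64 * X + 1 → (M : ℝ) / 2 - C * X ^ (1 - σ) ≤ ∑ n ∈ Finset.range M, ww (((Y : ℝ) + n) ^ θ) := by
  obtain ⟨σ, hσ, hσ1, C, hC, X0, hX0, H⟩ := ES hθ (η := 1 / 4) (by norm_num) le_rfl (⌈θ⌉₊ + 2)
  refine ⟨σ, hσ, hσ1, C, hC, max X0 4, le_max_right _ _, ?_⟩
  intro X hX Y M hY hM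
  have hX4 : 4 ≤ X := (le_max_right _ _).trans hX
  have hXp : 0 < X := by linarith
  have hS : ∀ s : ℝ, |s| = 1 → ‖SE θ Y M s‖ ≤ C * X ^ (1 - σ) := by
    intro s hs
    refine H X ((le_max_left _ _).trans hX) s ?_ ?_ Y M hY hM
    · rw [hs, one_mul]
      exact Real.rpow_le_rpow_of_exponent_le (by linarith) (by linarith)
    · rw [hs, one_mul]
      apply Real.rpow_le_rpow_of_exponent_le (by linarith)
      have := Nat.le_ceil θ
      push_cast
      linarith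
  have e1 : ((∑ n ∈ Finset.range M, ww (((Y : ℝ) + n) ^ θ) : ℝ) : ℂ) = (2 * M - SE θ Y M 1 - SE θ Y M (-1)) / 4 := by
    push_cast
    simp_rw [ww_ee]
    rw [← Finset.sum_div, Finset.sum_sub_distrib, Finset.sum_sub_distrib]
    unfold SE
    simp only [one_mul, neg_mul, Finset.sum_const, Finset.card_range, nsmul_eq_mul]
    congr 3
    ring
  have e2 : (∑ n ∈ Finset.range M, ww (((Y : ℝ) + n) ^ θ)) = (2 * (M : ℝ) - (SE θ Y M 1).re - (SE θ Y M (-1)).re) / 4 := by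
    have := congrArg Complex.re e1
    rw [Complex.ofReal_re] at this
    rw [this]
    have h4 : ((2 * (M : ℂ) - SE θ Y M 1 - SE θ Y M (-1)) / 4) =
        (((1 / 4 : ℝ)) : ℂ) * (2 * (M : ℂ) - SE θ Y M 1 - SE θ Y M (-1)) := by
      push_cast
      ring
    rw [h4, Complex.re_ofReal_mul]
    simp
    ring
  rw [e2]
  have h1 := (Complex.re_le_norm (SE θ Y M 1)).trans (hS 1 (by norm_num))
  have h2 := (Complex.re_le_norm (SE θ Y M (-1))).trans (hS (-1) (by norm_num))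
  have h3 : 0 ≤ C * X ^ (1 - σ) := by
    have := Real.rpow_nonneg hXp.le (1 - σ)
    positivity
  linarith

end Pool.Agent.J4H7.WE
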