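import Pool.Agent.J4H7.WE.C1

set_option autoImplicit false

/-!
# Waring's problem with almost all real exponents, part D1 (helper7)

The circle method: the number of representations compared with its average over a short interval.
-/

namespace Pool.Agent.J4H7.WE

open MeasureTheory
open Pool.Agent.Helper153.Vdc (ee)

lemma ee_orth (n : ℤ) : ∫ α in (-(1 / 2) : ℝ)..(1 / 2), ee (n * α) = if n = 0 then 1 else 0 := by
  by_cases hn : n = 0
  · subst hn
    rw [if_pos rfl]
    simp only [Int.cast_zero, zero_mul, ee_zero]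
    simp
    norm_num
  · rw [if_neg hn]
    have hc : ((2 * Real.pi * n * Complex.I : ℂ)) ≠ 0 := by
      have h1 : (Real.pi : ℂ) ≠ 0 := by exact_mod_cast Real.pi_ne_zero
      have h2 : (n : ℂ) ≠ 0 := by exact_mod_cast hn
      simp [h1, h2]
    have h1 := integral_exp_mul_complex (a := (-(1 / 2) : ℝ)) (b := 1 / 2) hc
    have h2 : (fun α : ℝ => ee (n * α)) = fun α : ℝ => Complex.exp (2 * Real.pi * n * Complex.I * α) := by
      funext x
      unfold ee
      congr 1
      push_cast
      ring
    rw [h2, h1, div_eq_zero_iff]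
    left
    have h3 : Complex.exp (2 * Real.pi * n * Complex.I * ((1 / 2 : ℝ) : ℂ)) =
        Complex.exp (2 * Real.pi * n * Complex.I * ((-(1 / 2) : ℝ) : ℂ)) := by
      rw [Complex.exp_eq_exp_iff_exists_int]
      refine ⟨n, ?_⟩
      push_cast
      ring
    rw [h3, sub_self]

section
variable {ι κ : Type*} (A : Finset ι) (f : ι → ℕ) (B : Finset κ) (g : κ → ℕ) (w : κ → ℝ)

/-- the sum `F` -/
noncomputable def FFs (α : ℝ) : ℂ := ∑ a ∈ A, ee (α * f a)

/-- the sum `G` -/
noncomputable def GGs (α : ℝ) : ℂ := ∑ b ∈ B, (w b : ℂ) * ee (α * g b)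

open scoped Classical in
/-- the weighted number of representations -/
noncomputable def RR (N : ℤ) : ℝ := ∑ a ∈ A, ∑ a' ∈ A, ∑ b ∈ B, if ((f a : ℤ) + f a' + g b = N) then w b else 0

open scoped Classical in
/-- the number of coincidences -/
noncomputable def JJ : ℕ := ((A ×ˢ A).filter fun p => f p.1 = f p.2).card

lemma FFs_cont : Continuous (FFs A f) := by
  unfold FFs
  have := ee_cont
  fun_prop

lemma GGs_cont : Continuous (GGs B g w) := by
  unfold GGs
  have := ee_cont
  fun_prop

lemma RR_eq (N : ℤ) : ((RR A f B g w N : ℝ) : ℂ) =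
    ∫ α in (-(1 / 2) : ℝ)..(1 / 2), FFs A f α ^ 2 * GGs B g w α * ee (-(N * α)) := by
  classical
  have hc := ee_cont
  have e1 : ∀ α : ℝ, FFs A f α ^ 2 * GGs B g w α * ee (-(N * α)) =
      ∑ a ∈ A, ∑ a' ∈ A, ∑ b ∈ B, (w b : ℂ) * ee ((((f a : ℤ) + f a' + g b - N : ℤ) : ℝ) * α) := by
    intro α
    unfold FFs GGs
    rw [sq, Finset.sum_mul_sum, Finset.sum_mul, Finset.sum_mul]
    refine Finset.sum_congr rfl fun a _ => ?_
    rw [Finset.sum_mul, Finset.sum_mul]
    refine Finset.sum_congr rfl fun a' _ => ?_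
    rw [Finset.mul_sum, Finset.sum_mul]
    refine Finset.sum_congr rfl fun b _ => ?_
    have : (((f a : ℤ) + f a' + g b - N : ℤ) : ℝ) * α = (α * f a) + (α * f a') + (α * g b) + -(N * α) := by
      push_cast
      ring
    rw [this, ee_add, ee_add, ee_add]
    ring
  simp_rw [e1]
  rw [intervalIntegral.integral_finsetSum]
  · unfold RR
    push_cast
    refine Finset.sum_congr rfl fun a _ => ?_
    rw [intervalIntegral.integral_finsetSum]
    · refine Finset.sum_congr rfl fun a' _ => ?_
      rw [intervalIntegral.integral_finsetSum]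
      · refine Finset.sum_congr rfl fun b _ => ?_
        have ho := ee_orth ((f a : ℤ) + f a' + g b - N)
        push_cast at ho
        rw [intervalIntegral.integral_const_mul, ho]
        by_cases h : (f a : ℤ) + f a' + g b = N
        · rw [if_pos h, if_pos (by omega), mul_one]
        · rw [if_neg h, if_neg (by omega), mul_zero]
          simp
      · intro b _
        apply Continuous.intervalIntegrable
        fun_prop
    · intro a' _
      apply Continuous.intervalIntegrable
      fun_prop
  · intro a _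
    apply Continuous.intervalIntegrable
    fun_prop

lemma JJ_eq : ∫ α in (-(1 / 2) : ℝ)..(1 / 2), ‖FFs A f α‖ ^ 2 = (JJ A f : ℝ) := by
  classical
  have hc := ee_cont
  have h1 : ((∫ α in (-(1 / 2) : ℝ)..(1 / 2), ‖FFs A f α‖ ^ 2 : ℝ) : ℂ) = ((JJ A f : ℝ) : ℂ) := by
    rw [← intervalIntegral.integral_ofReal]
    have e1 : ∀ α : ℝ, ((‖FFs A f α‖ ^ 2 : ℝ) : ℂ) =
        ∑ a ∈ A, ∑ a' ∈ A, ee ((((f a : ℤ) - f a' : ℤ) : ℝ) * α) := by
      intro α
      rw [Complex.ofReal_pow, ← Complex.mul_conj']
      unfold FFs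
      rw [map_sum, Finset.sum_mul_sum]
      refine Finset.sum_congr rfl fun a _ => Finset.sum_congr rfl fun a' _ => ?_
      have h2 : (starRingEnd ℂ) (ee (α * f a')) = ee (-(α * f a')) := by
        unfold ee
        rw [← Complex.exp_conj]
        congr 1
        simp only [map_mul, Complex.conj_ofReal, Complex.conj_I, Complex.conj_ofNat]
        push_cast
        ring
      rw [h2, ← ee_add]
      congr 1
      push_cast
      ring
    simp_rw [e1]
    rw [intervalIntegral.integral_finsetSum]
    · unfold JJ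
      rw [Finset.card_filter, Finset.sum_product]
      push_cast
      refine Finset.sum_congr rfl fun a _ => ?_
      rw [intervalIntegral.integral_finsetSum]
      · refine Finset.sum_congr rfl fun a' _ => ?_
        have ho := ee_orth ((f a : ℤ) - f a')
        push_cast at ho
        rw [ho]
        by_cases h : f a = f a'
        · rw [if_pos h, if_pos (by omega)]
          simp
        · rw [if_neg h, if_neg (by omega)]
          simp
      · intro a' _
        apply Continuous.intervalIntegrable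
        fun_prop
    · intro a _
      apply Continuous.intervalIntegrable
      fun_prop
  exact_mod_cast h1

/-- the kernel of the average -/
noncomputable def KK (W : ℕ) (α : ℝ) : ℂ := (1 / (W : ℂ)) * ∑ h ∈ Finset.range W, ee (h * α)

/-- **comparison with the average** -/
theorem RR_avg {W : ℕ} (N : ℤ) {B0 : ℝ}
    (hB : ∀ α : ℝ, |α| ≤ 1 / 2 → ‖GGs B g w α‖ * ‖1 - KK W α‖ ≤ B0) :
    |RR A f B g w N - (1 / (W : ℝ)) * ∑ h ∈ Finset.range W, RR A f B g w (N - h)| ≤ B0 * JJ A f := by
  have hc := ee_cont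
  have hF := FFs_cont A f
  have hG := GGs_cont B g w
  have h1 : ((RR A f B g w N - (1 / (W : ℝ)) * ∑ h ∈ Finset.range W, RR A f B g w (N - h) : ℝ) : ℂ) =
      ∫ α in (-(1 / 2) : ℝ)..(1 / 2), FFs A f α ^ 2 * GGs B g w α * ee (-(N * α)) * (1 - KK W α) := by
    push_cast
    rw [RR_eq]
    simp_rw [RR_eq]
    rw [← intervalIntegral.integral_finsetSum, ← intervalIntegral.integral_const_mul, ← intervalIntegral.integral_sub]
    · refine intervalIntegral.integral_congr fun α _ => ?_
      unfold KK
      have e1 : ∀ h : ℕ, FFs A f α ^ 2 * GGs B g w α * ee (-(((N - (h : ℤ) : ℤ) : ℝ) * α)) =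
          FFs A f α ^ 2 * GGs B g w α * ee (-(N * α)) * ee (h * α) := by
        intro h
        have : -(((N - (h : ℤ) : ℤ) : ℝ) * α) = -(N * α) + h * α := by
          push_cast
          ring
        rw [this, ee_add]
        ring
      rw [Finset.sum_congr rfl fun h _ => e1 h, ← Finset.mul_sum]
      ring
    · apply Continuous.intervalIntegrable
      fun_prop
    · apply Continuous.intervalIntegrable
      fun_prop
    · intro h _
      apply Continuous.intervalIntegrable
      fun_prop
  have h2 : |RR A f B g w N - (1 / (W : ℝ)) * ∑ h ∈ Finset.range W, RR A f B g w (N - h)| =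
      ‖∫ α in (-(1 / 2) : ℝ)..(1 / 2), FFs A f α ^ 2 * GGs B g w α * ee (-(N * α)) * (1 - KK W α)‖ := by
    rw [← h1, Complex.norm_real, Real.norm_eq_abs]
  rw [h2]
  calc ‖∫ α in (-(1 / 2) : ℝ)..(1 / 2), FFs A f α ^ 2 * GGs B g w α * ee (-(N * α)) * (1 - KK W α)‖
      ≤ ∫ α in (-(1 / 2) : ℝ)..(1 / 2), B0 * ‖FFs A f α‖ ^ 2 := by
        apply intervalIntegral.norm_integral_le_of_norm_le (by norm_num)
        · refine Filter.Eventually.of_forall fun α hα => ?_
          have hα' : |α| ≤ 1 / 2 := by
            rw [abs_le]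
            exact ⟨hα.1.le, hα.2⟩
          rw [norm_mul, norm_mul, norm_mul, norm_pow, ee_norm', mul_one]
          have := hB α hα'
          calc ‖FFs A f α‖ ^ 2 * ‖GGs B g w α‖ * ‖1 - KK W α‖ = (‖GGs B g w α‖ * ‖1 - KK W α‖) * ‖FFs A f α‖ ^ 2 := by ring
            _ ≤ _ := mul_le_mul_of_nonneg_right this (by positivity)
        · apply Continuous.intervalIntegrable
          fun_prop
    _ = B0 * JJ A f := by
        rw [intervalIntegral.integral_const_mul, JJ_eq]

/-- bounds for the kernel -/
lemma KK_small {W : ℕ} (hW : 1 ≤ W) (α : ℝ) : ‖1 - KK W α‖ ≤ 2 * Real.pi * W * |α| := by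
  have hW0 : (0 : ℝ) < W := by exact_mod_cast hW
  have hW1 : (W : ℂ) ≠ 0 := by exact_mod_cast hW0.ne'
  have e1 : 1 - KK W α = (1 / (W : ℂ)) * ∑ h ∈ Finset.range W, (1 - ee (h * α)) := by
    unfold KK
    rw [Finset.sum_sub_distrib, Finset.sum_const, Finset.card_range, nsmul_eq_mul, mul_one, mul_sub, one_div,
      inv_mul_cancel₀ hW1]
  have h2 : ∀ h ∈ Finset.range W, ‖1 - ee (h * α)‖ ≤ 2 * Real.pi * W * |α| := by
    intro h hh
    have hh' : (h : ℝ) ≤ W := by exact_mod_cast (Finset.mem_range.1 hh).le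
    have h3 : ‖1 - ee (h * α)‖ ≤ |2 * Real.pi * (h * α)| := by
      have h4 : ee (h * α) = Complex.exp (Complex.I * ((2 * Real.pi * (h * α) : ℝ) : ℂ)) := by
        unfold ee
        congr 1
        push_cast
        ring
      rw [norm_sub_rev, h4]
      exact Real.norm_exp_I_mul_ofReal_sub_one_le
    refine h3.trans ?_
    rw [abs_mul, abs_of_pos (show 0 < 2 * Real.pi by positivity), abs_mul, abs_of_nonneg (show (0 : ℝ) ≤ h by positivity)]
    have := abs_nonneg α
    have hp := Real.pi_pos
    rw [mul_assoc (2 * Real.pi)]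
    gcongr
  rw [e1, norm_mul, norm_div, norm_one, Complex.norm_natCast]
  calc 1 / (W : ℝ) * ‖∑ h ∈ Finset.range W, (1 - ee (h * α))‖ ≤ 1 / (W : ℝ) * (W * (2 * Real.pi * W * |α|)) := by
        apply mul_le_mul_of_nonneg_left _ (by positivity)
        refine (norm_sum_le _ _).trans ((Finset.sum_le_sum h2).trans ?_)
        simp
    _ = _ := by field_simp

lemma KK_le {W : ℕ} (hW : 1 ≤ W) (α : ℝ) : ‖1 - KK W α‖ ≤ 2 := by
  have hW0 : (0 : ℝ) < W := by exact_mod_cast hW
  have h1 : ‖KK W α‖ ≤ 1 := by
    unfold KK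
    rw [norm_mul, norm_div, norm_one, Complex.norm_natCast]
    have h2 : ‖∑ h ∈ Finset.range W, ee (h * α)‖ ≤ W := by
      refine (norm_sum_le _ _).trans ?_
      simp_rw [ee_norm']
      simp
    rw [one_div, inv_mul_le_iff₀ hW0, mul_one]
    exact h2
  refine (norm_sub_le _ _).trans ?_
  rw [norm_one]
  linarith

end

end Pool.Agent.J4H7.WE
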