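import Pool.Agent.J4H7.WE.C2
import Pool.Agent.J4H7.WE.D1
import Pool.Agent.J4H7.WE.A5

set_option autoImplicit false

/-!
# Waring's problem with almost all real exponents, part D2 (helper7)

The main term, and the number of coincidences.
-/

namespace Pool.Agent.J4H7.WE

open Real Set Filter Topology
open Pool.Agent.Helper153.Vdc (ee)

/-- the interval of the free variable -/
noncomputable def BB (X : ℝ) : Finset ℕ := Finset.Ico ⌈4 * X⌉₊ (⌊64 * X⌋₊ + 1)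

/-- `⌊z ^ θ⌋` -/
noncomputable def fl (θ : ℝ) (z : ℕ) : ℕ := ⌊(z : ℝ) ^ θ⌋₊

lemma bern {θ u v : ℝ} (hθ : 1 ≤ θ) (hu : 0 < u) (huv : u ≤ v) : v ^ θ - u ^ θ ≤ θ * v ^ (θ - 1) * (v - u) := by
  have hv : 0 < v := by linarith
  have h0 : 0 < u / v := by positivity
  have h1 := one_add_mul_self_le_rpow_one_add (s := u / v - 1) (by linarith) hθ
  have e1 : 1 + (u / v - 1) = u / v := by ring
  rw [e1, Real.div_rpow hu.le hv.le] at h1
  have hvθ : 0 < v ^ θ := Real.rpow_pos_of_pos hv _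
  rw [le_div_iff₀ hvθ] at h1
  have e2 : v ^ θ = v * v ^ (θ - 1) := by
    rw [Real.rpow_sub_one hv.ne']
    field_simp
  have e3 : (1 + θ * (u / v - 1)) * v ^ θ = v ^ θ - θ * v ^ (θ - 1) * (v - u) := by
    rw [e2]
    field_simp
    ring
  linarith

open scoped Classical in
/-- **the main term** -/
theorem count_lower {θ : ℝ} (hθ1 : 1 < θ) (hθ : ∀ n : ℕ, θ ≠ n) :
    ∃ ρ : ℝ, 0 < ρ ∧ ρ ≤ 1 / 4 ∧ ∃ c : ℝ, 0 < c ∧ ∃ X0 : ℝ, 4 ≤ X0 ∧ ∀ X : ℝ, X0 ≤ X → ∀ W T : ℕ, X ^ (θ - ρ) ≤ W →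
      (4 * X) ^ θ ≤ (T : ℝ) - W + 1 → (T : ℝ) ≤ (32 * X) ^ θ →
      c * X ^ (1 - ρ) ≤ ∑ z ∈ BB X, if (T < fl θ z + W ∧ fl θ z ≤ T) then ww ((z : ℝ) ^ θ) else 0 := by
  obtain ⟨σ, hσ, hσ1, C, hC, X1, hX1, H⟩ := W_bound hθ1 hθ
  set ρ : ℝ := σ / 4 with hρ
  have hρ0 : 0 < ρ := by positivity
  set c0 : ℝ := 1 / (2 * θ * 32 ^ (θ - 1)) with hc0
  have hc00 : 0 < c0 := by positivity
  have ev1 : ∀ᶠ X : ℝ in atTop, (2 : ℝ) ≤ X ^ (θ - ρ) := (tendsto_rpow_atTop (by linarith)).eventually_ge_atTop _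
  have ev2 : ∀ᶠ X : ℝ in atTop, 4 / c0 ≤ X ^ (1 - ρ) := (tendsto_rpow_atTop (by linarith)).eventually_ge_atTop _
  have ev3 : ∀ᶠ X : ℝ in atTop, 8 * C / c0 ≤ X ^ (σ - ρ) := (tendsto_rpow_atTop (by linarith)).eventually_ge_atTop _
  obtain ⟨X2, hX2⟩ := eventually_atTop.1 (ev1.and (ev2.and ev3))
  refine ⟨ρ, hρ0, by linarith, c0 / 4, by positivity, max X1 X2, hX1.trans (le_max_left _ _), ?_⟩
  intro X hX W T hW hT1 hT2
  obtain ⟨g1, g2, g3⟩ := hX2 X ((le_max_right _ _).trans hX)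
  have hX4 : 4 ≤ X := hX1.trans ((le_max_left _ _).trans hX)
  have hX0 : 0 < X := by linarith
  have hθ0 : 0 < θ := by linarith
  set t : ℝ := (T : ℝ) - W + 1 with ht
  have h4X : 0 < (4 * X) ^ θ := Real.rpow_pos_of_pos (by linarith) _
  have ht0 : 0 < t := by linarith
  have hW2 : (2 : ℝ) ≤ W := g1.trans hW
  have hT0 : (0 : ℝ) < T := by linarith
  set u : ℝ := t ^ (1 / θ) with hu
  set v : ℝ := (T : ℝ) ^ (1 / θ) with hv
  have huθ : u ^ θ = t := by rw [hu, ← Real.rpow_mul ht0.le, one_div_mul_cancel hθ0.ne', Real.rpow_one]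
  have hvθ : v ^ θ = T := by rw [hv, ← Real.rpow_mul hT0.le, one_div_mul_cancel hθ0.ne', Real.rpow_one]
  have hu4 : 4 * X ≤ u := by
    have : ((4 * X) ^ θ) ^ (1 / θ) ≤ t ^ (1 / θ) := Real.rpow_le_rpow h4X.le hT1 (by positivity)
    rwa [← Real.rpow_mul (by linarith), mul_one_div_cancel hθ0.ne', Real.rpow_one] at this
  have hv32 : v ≤ 32 * X := by
    have : (T : ℝ) ^ (1 / θ) ≤ ((32 * X) ^ θ) ^ (1 / θ) := Real.rpow_le_rpow hT0.le hT2 (by positivity)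
    rwa [← Real.rpow_mul (by linarith), mul_one_div_cancel hθ0.ne', Real.rpow_one] at this
  have hu0 : 0 < u := by linarith
  have huv : u ≤ v := Real.rpow_le_rpow ht0.le (by linarith) (by positivity)
  have hv0 : 0 < v := by linarith
  -- the length
  have hlen : c0 * X ^ (1 - ρ) ≤ v - u := by
    have h1 := bern hθ1.le hu0 huv
    rw [huθ, hvθ] at h1
    have h2 : v ^ (θ - 1) ≤ (32 * X) ^ (θ - 1) := Real.rpow_le_rpow hv0.le hv32 (by linarith)
    have h3 : (T : ℝ) - t ≤ θ * (32 * X) ^ (θ - 1) * (v - u) := by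
      refine h1.trans ?_
      apply mul_le_mul_of_nonneg_right _ (by linarith)
      exact mul_le_mul_of_nonneg_left h2 hθ0.le
    have h4 : X ^ (θ - ρ) / 2 ≤ (T : ℝ) - t := by
      rw [ht]
      linarith
    have h5 : (32 * X) ^ (θ - 1) = 32 ^ (θ - 1) * X ^ (θ - 1) := Real.mul_rpow (by norm_num) hX0.le
    have h6 : X ^ (1 - ρ) = X ^ (θ - ρ) / X ^ (θ - 1) := by
      rw [← Real.rpow_sub hX0]
      congr 1
      ring
    have h7 : 0 < X ^ (θ - 1) := Real.rpow_pos_of_pos hX0 _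
    have h8 : (0 : ℝ) < 32 ^ (θ - 1) := Real.rpow_pos_of_pos (by norm_num) _
    rw [h5] at h3
    rw [h6, hc0]
    have e1 : 1 / (2 * θ * 32 ^ (θ - 1)) * (X ^ (θ - ρ) / X ^ (θ - 1)) =
        (X ^ (θ - ρ) / 2) / (θ * (32 ^ (θ - 1) * X ^ (θ - 1))) := by
      field_simp
    rw [e1, div_le_iff₀ (by positivity)]
    linarith
  set Y := ⌈u⌉₊ with hY
  set M := ⌊v⌋₊ + 1 - Y with hM
  have hYu : u ≤ Y := Nat.le_ceil _
  have hYu' : (Y : ℝ) < u + 1 := Nat.ceil_lt_add_one hu0.le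
  have hvf : (⌊v⌋₊ : ℝ) ≤ v := Nat.floor_le hv0.le
  have hvf' : v < (⌊v⌋₊ : ℝ) + 1 := Nat.lt_floor_add_one v
  have hlen4 : 4 ≤ c0 * X ^ (1 - ρ) := by
    rw [div_le_iff₀ hc00] at g2
    linarith
  have hYv : Y ≤ ⌊v⌋₊ + 1 := by
    have : (Y : ℝ) < ((⌊v⌋₊ + 1 + 1 : ℕ) : ℝ) := by
      push_cast
      linarith
    have : Y < ⌊v⌋₊ + 1 + 1 := by exact_mod_cast this
    omega
  have hMr : (M : ℝ) = (⌊v⌋₊ : ℝ) + 1 - Y := by
    rw [hM, Nat.cast_sub hYv]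
    push_cast
    ring
  have key := H X ((le_max_left _ _).trans hX) Y M (hu4.trans hYu) (by rw [hMr]; linarith)
  have hM1 : v - u - 1 ≤ M := by
    rw [hMr]
    linarith
  -- the sum over the subinterval
  have e2 : ∑ n ∈ Finset.range M, ww (((Y : ℝ) + n) ^ θ) = ∑ z ∈ Finset.Ico Y (⌊v⌋₊ + 1), ww ((z : ℝ) ^ θ) := by
    rw [Finset.sum_Ico_eq_sum_range]
    refine Finset.sum_congr rfl fun n _ => ?_
    push_cast
    rfl
  have e3 : ∑ z ∈ Finset.Ico Y (⌊v⌋₊ + 1), ww ((z : ℝ) ^ θ) ≤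
      ∑ z ∈ BB X, if (T < fl θ z + W ∧ fl θ z ≤ T) then ww ((z : ℝ) ^ θ) else 0 := by
    rw [← Finset.sum_filter]
    apply Finset.sum_le_sum_of_subset_of_nonneg
    · intro z hz
      rw [Finset.mem_Ico] at hz
      have hz1 : u ≤ z := hYu.trans (by exact_mod_cast hz.1)
      have hz2 : (z : ℝ) ≤ v := by
        have : z ≤ ⌊v⌋₊ := by omega
        exact (Nat.cast_le.2 this).trans hvf
      have hz0 : (0 : ℝ) < z := by linarith
      rw [Finset.mem_filter]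
      refine ⟨?_, ?_, ?_⟩
      · unfold BB
        rw [Finset.mem_Ico]
        constructor
        · rw [Nat.ceil_le]
          linarith
        · have : z ≤ ⌊64 * X⌋₊ := by
            rw [Nat.le_floor_iff (by linarith)]
            linarith
          omega
      · have h1 : t ≤ (z : ℝ) ^ θ := by
          rw [← huθ]
          exact Real.rpow_le_rpow hu0.le hz1 hθ0.le
        have h2 : (z : ℝ) ^ θ < (fl θ z : ℝ) + 1 := Nat.lt_floor_add_one _
        have h3 : (T : ℝ) < ((fl θ z + W : ℕ) : ℝ) := by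
          push_cast
          rw [ht] at h1
          linarith
        exact_mod_cast h3
      · have h1 : (z : ℝ) ^ θ ≤ T := by
          rw [← hvθ]
          exact Real.rpow_le_rpow hz0.le hz2 hθ0.le
        unfold fl
        have := Nat.floor_le_floor h1
        rwa [Nat.floor_natCast] at this
    · intro z _ _
      exact ww_nonneg _
  rw [e2] at key
  have hXσ : C * X ^ (1 - σ) ≤ c0 / 8 * X ^ (1 - ρ) := by
    have h1 : X ^ (1 - ρ) = X ^ (1 - σ) * X ^ (σ - ρ) := by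
      rw [← Real.rpow_add hX0]
      congr 1
      ring
    have h2 : 0 < X ^ (1 - σ) := Real.rpow_pos_of_pos hX0 _
    rw [div_le_iff₀ hc00] at g3
    rw [h1]
    nlinarith
  linarith

/-- the vectors -/
noncomputable def AA (q X : ℝ) (m : ℕ) : Finset (Fin m → ℕ) := Fintype.piFinset fun i : Fin m => SS q X i

/-- the sum of the first `m` terms -/
noncomputable def fs (θ : ℝ) {m : ℕ} (x : Fin m → ℕ) : ℕ := ∑ i, fl θ (x i)

lemma fl_err (θ : ℝ) (z : ℕ) : (fl θ z : ℝ) ≤ (z : ℝ) ^ θ ∧ (z : ℝ) ^ θ ≤ fl θ z + 1 :=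
  ⟨Nat.floor_le (Real.rpow_nonneg (by positivity) _), (Nat.lt_floor_add_one _).le⟩

/-- coincidences are near-coincidences -/
lemma JJ_le {q X θ : ℝ} {m : ℕ} : JJ (AA q X m) (fs θ) ≤ TT q X m m θ := by
  classical
  unfold JJ TT
  refine Finset.card_le_card_of_injOn (fun p i => (p.1 i, p.2 i)) ?_ ?_
  · intro p hp
    rw [Finset.mem_coe, Finset.mem_filter, Finset.mem_product] at hp
    obtain ⟨⟨h1, h2⟩, h3⟩ := hp
    rw [Finset.mem_coe, Finset.mem_filter]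
    refine ⟨?_, ?_⟩
    · rw [mem_PPs]
      intro i
      exact ⟨Fintype.mem_piFinset.1 h1 i, Fintype.mem_piFinset.1 h2 i⟩
    · unfold FF
      simp only
      have e1 : ∑ i, (((p.1 i : ℕ) : ℝ) ^ θ - ((p.2 i : ℕ) : ℝ) ^ θ) =
          ∑ i, ((((p.1 i : ℕ) : ℝ) ^ θ - fl θ (p.1 i)) - (((p.2 i : ℕ) : ℝ) ^ θ - fl θ (p.2 i))) := by
        have h4 : ((fs θ p.1 : ℕ) : ℝ) = fs θ p.2 := by rw [h3]
        unfold fs at h4
        push_cast at h4
        rw [Finset.sum_sub_distrib, Finset.sum_sub_distrib, Finset.sum_sub_distrib, Finset.sum_sub_distrib]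
        linarith
      rw [e1]
      refine (Finset.abs_sum_le_sum_abs _ _).trans ?_
      calc ∑ i, |(((p.1 i : ℕ) : ℝ) ^ θ - fl θ (p.1 i)) - (((p.2 i : ℕ) : ℝ) ^ θ - fl θ (p.2 i))| ≤ ∑ _i : Fin m, (1 : ℝ) := by
            refine Finset.sum_le_sum fun i _ => ?_
            obtain ⟨a1, a2⟩ := fl_err θ (p.1 i)
            obtain ⟨b1, b2⟩ := fl_err θ (p.2 i)
            rw [abs_le]
            constructor <;> linarith
        _ = m := by simp
  · intro p _ p' _ h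
    have h1 : ∀ i, (p.1 i, p.2 i) = (p'.1 i, p'.2 i) := fun i => congrFun h i
    apply Prod.ext
    · funext i
      exact congrArg Prod.fst (h1 i)
    · funext i
      exact congrArg Prod.snd (h1 i)

lemma SS_card_lower {q X : ℝ} (hq : 0 ≤ q) (hX : 1 ≤ X) (i : ℕ) : lev q X i / 2 ≤ ((SS q X i).card : ℝ) := by
  have h1 := one_le_lev hq hX i
  unfold SS
  rw [Nat.card_Icc]
  have h2 : 2 * lev q X i < (⌊2 * lev q X i⌋₊ : ℝ) + 1 := Nat.lt_floor_add_one _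
  have h3 : (⌈lev q X i⌉₊ : ℝ) < lev q X i + 1 := Nat.ceil_lt_add_one (by linarith)
  have h4 : ⌈lev q X i⌉₊ ≤ ⌊2 * lev q X i⌋₊ := by
    have h7 : (⌈lev q X i⌉₊ : ℝ) < ((⌊2 * lev q X i⌋₊ + 1 : ℕ) : ℝ) := by
      push_cast
      linarith
    have h8 : ⌈lev q X i⌉₊ < ⌊2 * lev q X i⌋₊ + 1 := by exact_mod_cast h7
    omega
  have h5 : (1 : ℝ) ≤ ((⌊2 * lev q X i⌋₊ + 1 - ⌈lev q X i⌉₊ : ℕ) : ℝ) := by
    have : 1 ≤ ⌊2 * lev q X i⌋₊ + 1 - ⌈lev q X i⌉₊ := by omega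
    exact_mod_cast this
  have h6 : ((⌊2 * lev q X i⌋₊ + 1 - ⌈lev q X i⌉₊ : ℕ) : ℝ) = (⌊2 * lev q X i⌋₊ : ℝ) + 1 - ⌈lev q X i⌉₊ := by
    rw [Nat.cast_sub (by omega)]
    push_cast
    ring
  rcases le_or_gt (lev q X i) 2 with h | h
  · linarith
  · rw [h6]
    linarith

lemma VV_le {q X : ℝ} (hq : 0 ≤ q) (hX : 1 ≤ X) (m : ℕ) : VV q X m ≤ 16 ^ m * ((AA q X m).card : ℝ) ^ 2 := by
  unfold VV AA
  rw [Fintype.card_piFinset]
  push_cast
  rw [← Finset.prod_pow]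
  have h1 : (16 : ℝ) ^ m = ∏ _i : Fin m, (16 : ℝ) := by simp
  rw [h1, ← Finset.prod_mul_distrib]
  refine Finset.prod_le_prod (fun i _ => by positivity) fun i _ => ?_
  have h2 := SS_card_lower hq hX (i : ℕ)
  have h3 := lev_pos (q := q) hX (i : ℕ)
  nlinarith

/-- the size of the first sum -/
lemma fs_le {q X θ : ℝ} {m : ℕ} (hq : 0 < q) (hq1 : q < 1) (hX : 1 ≤ X) (hθ : 0 ≤ θ) {x : Fin m → ℕ} (hx : x ∈ AA q X m) :
    (fs θ x : ℝ) ≤ (2 * X) ^ θ + m * (2 * X ^ q) ^ θ := by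
  unfold fs
  push_cast
  have h0 : (0 : ℝ) ≤ (2 * X) ^ θ := Real.rpow_nonneg (by linarith) _
  have h0' : (0 : ℝ) ≤ (2 * X ^ q) ^ θ := Real.rpow_nonneg (by positivity) _
  have h1 : ∀ i : Fin m, (fl θ (x i) : ℝ) ≤ (if (i : ℕ) = 0 then (2 * X) ^ θ else 0) + (2 * X ^ q) ^ θ := by
    intro i
    have h2 := (mem_SS hX).1 (Fintype.mem_piFinset.1 hx i)
    have h3 : ((x i : ℕ) : ℝ) ^ θ ≤ (2 * lev q X i) ^ θ := Real.rpow_le_rpow (by positivity) h2.2 hθ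
    refine (fl_err θ (x i)).1.trans (h3.trans ?_)
    by_cases hi : (i : ℕ) = 0
    · rw [if_pos hi, hi]
      have : lev q X 0 = X := by unfold lev; simp
      rw [this]
      linarith
    · rw [if_neg hi, zero_add]
      apply Real.rpow_le_rpow
      · have := lev_pos (q := q) hX (i : ℕ)
        linarith
      · have h4 : lev q X i ≤ lev q X 1 := lev_anti hq hq1 hX (by omega)
        have h5 : lev q X 1 = X ^ q := by unfold lev; simp
        linarith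
      · exact hθ
  refine (Finset.sum_le_sum fun i _ => h1 i).trans ?_
  rw [Finset.sum_add_distrib]
  have h2 : ∑ i : Fin m, (if (i : ℕ) = 0 then (2 * X) ^ θ else (0 : ℝ)) ≤ (2 * X) ^ θ := by
    cases m with
    | zero => simpa using h0
    | succ m =>
      rw [Fin.sum_univ_succ]
      simp
  have h3 : ∑ _i : Fin m, (2 * X ^ q) ^ θ = m * (2 * X ^ q) ^ θ := by simp
  rw [h3]
  linarith

end Pool.Agent.J4H7.WE
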