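import Pool.Agent.J4H7.WE.D2

set_option autoImplicit false

/-!
# Waring's problem with almost all real exponents, part D3 (helper7)

Representations from the mean value estimate, for a fixed exponent.
-/

namespace Pool.Agent.J4H7.WE

open Real Set Filter Topology
open Pool.Agent.Helper153.Vdc (ee)

lemma GGs_eq (θ X α : ℝ) : GGs (BB X) (fl θ) (fun z : ℕ => ww ((z : ℝ) ^ θ)) α =
    GG θ ⌈4 * X⌉₊ (⌊64 * X⌋₊ + 1 - ⌈4 * X⌉₊) α := by
  unfold GGs GG BB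
  rw [Finset.sum_Ico_eq_sum_range]
  refine Finset.sum_congr rfl fun n _ => ?_
  unfold fl
  push_cast
  rfl

lemma BB_len {X : ℝ} (hX : 1 ≤ X) : ((⌈4 * X⌉₊ : ℕ) : ℝ) + ((⌊64 * X⌋₊ + 1 - ⌈4 * X⌉₊ : ℕ) : ℝ) ≤ 64 * X + 1 := by
  have h1 : (⌈4 * X⌉₊ : ℝ) < 4 * X + 1 := Nat.ceil_lt_add_one (by linarith)
  have h2 : 64 * X < (⌊64 * X⌋₊ : ℝ) + 1 := Nat.lt_floor_add_one _
  have h3 : (⌊64 * X⌋₊ : ℝ) ≤ 64 * X := Nat.floor_le (by linarith)
  have h4 : ⌈4 * X⌉₊ ≤ ⌊64 * X⌋₊ + 1 := by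
    have : (⌈4 * X⌉₊ : ℝ) < ((⌊64 * X⌋₊ + 1 : ℕ) : ℝ) := by
      push_cast
      linarith
    exact_mod_cast this.le
  rw [Nat.cast_sub h4]
  push_cast
  linarith

lemma GG_triv (θ : ℝ) (Y M : ℕ) (α : ℝ) : ‖GG θ Y M α‖ ≤ M := by
  unfold GG
  refine (norm_sum_le _ _).trans ?_
  calc ∑ n ∈ Finset.range M, ‖((ww (((Y : ℝ) + n) ^ θ) : ℝ) : ℂ) * ee (α * (⌊((Y : ℝ) + n) ^ θ⌋₊ : ℝ))‖
      ≤ ∑ _n ∈ Finset.range M, (1 : ℝ) := by
        refine Finset.sum_le_sum fun n _ => ?_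
        rw [norm_mul, ee_norm', mul_one, Complex.norm_real, Real.norm_of_nonneg (ww_nonneg _)]
        exact ww_le _
    _ = M := by simp

/-- a block of integers -/
theorem repr_block {θ q : ℝ} {m : ℕ} (hθ1 : 1 < θ) (hθ : ∀ n : ℕ, θ ≠ n) (hq : 0 < q) (hq1 : q < 1)
    (hMV : ∀ ε : ℝ, 0 < ε → ∀ᶠ j : ℕ in atTop, (TT q ((2 : ℝ) ^ j) m m θ : ℝ) ≤ VV q ((2 : ℝ) ^ j) m * ((2 : ℝ) ^ j) ^ (-θ + ε)) :
    ∀ᶠ j : ℕ in atTop, ∀ N : ℕ, (16 * (2 : ℝ) ^ j) ^ θ ≤ N → (N : ℝ) ≤ (32 * (2 : ℝ) ^ j) ^ θ →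
      ∃ (x y : Fin m → ℕ) (z : ℕ), (∀ i, 1 ≤ x i) ∧ (∀ i, 1 ≤ y i) ∧ 1 ≤ z ∧ fs θ x + fs θ y + fl θ z = N := by
  classical
  obtain ⟨ρ, hρ, hρ1, c, hc, X1, hX1, H1⟩ := count_lower hθ1 hθ
  obtain ⟨σ, hσ, hσ1, C, hC, X2, hX2, H2⟩ := G_bound hθ1 hθ (η := ρ / 4) (by positivity) (by linarith)
  set τ : ℝ := min (ρ / 2) σ with hτ
  have hτ0 : 0 < τ := lt_min (by positivity) hσ
  have hθ0 : 0 < θ := by linarith
  have hj : Tendsto (fun j : ℕ => (2 : ℝ) ^ j) atTop atTop := tendsto_pow_atTop_atTop_of_one_lt (by norm_num)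
  have ev1 : ∀ᶠ X : ℝ in atTop, (m + 1 : ℝ) ≤ (X ^ (1 - q)) ^ θ :=
    ((tendsto_rpow_atTop hθ0).comp (tendsto_rpow_atTop (by linarith : 0 < 1 - q))).eventually_ge_atTop _
  have ev2 : ∀ᶠ X : ℝ in atTop, (2 * (1000 + 2 * C) * 16 ^ m / c + 1) ≤ X ^ (τ / 2) :=
    (tendsto_rpow_atTop (by positivity)).eventually_ge_atTop _
  have evX := hj.eventually ((eventually_ge_atTop (max (max X1 X2) 4)).and (ev1.and ev2))
  filter_upwards [evX, hMV (τ / 2) (by positivity)] with j hjX hMVj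
  set X : ℝ := (2 : ℝ) ^ j with hXdef
  obtain ⟨gX, g1, g2⟩ := hjX
  have gX1 : X1 ≤ X := (le_max_left _ _).trans ((le_max_left _ _).trans gX)
  have gX2 : X2 ≤ X := (le_max_right _ _).trans ((le_max_left _ _).trans gX)
  have gX4 : 4 ≤ X := (le_max_right _ _).trans gX
  have hX1' : (1 : ℝ) ≤ X := by linarith
  have hX0 : 0 < X := by linarith
  intro N hN1 hN2
  -- notation
  set W : ℕ := ⌈X ^ (θ - ρ)⌉₊ with hW
  have hXθρ : 1 ≤ X ^ (θ - ρ) := Real.one_le_rpow hX1' (by linarith)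
  have hWl : X ^ (θ - ρ) ≤ W := Nat.le_ceil _
  have hWu : (W : ℝ) ≤ 2 * X ^ (θ - ρ) := by
    have := Nat.ceil_lt_add_one (show 0 ≤ X ^ (θ - ρ) by linarith)
    rw [← hW] at this
    linarith
  have hW1 : 1 ≤ W := by
    have : (1 : ℝ) ≤ W := hXθρ.trans hWl
    exact_mod_cast this
  have hW0 : (0 : ℝ) < W := by exact_mod_cast hW1
  set A := AA q X m with hA
  set w : ℕ → ℝ := fun z : ℕ => ww ((z : ℝ) ^ θ) with hw
  have hcard : 0 < (A.card : ℝ) := by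
    have h1 : 0 < A.card := by
      rw [hA]
      unfold AA
      rw [Fintype.card_piFinset]
      apply Finset.prod_pos
      intro i _
      have h2 := SS_card_lower hq.le hX1' (i : ℕ)
      have h3 := lev_pos (q := q) hX1' (i : ℕ)
      have : (0 : ℝ) < ((SS q X i).card : ℝ) := by linarith
      exact_mod_cast this
    exact_mod_cast h1
  -- the bound for the generating functions
  have hB : ∀ α : ℝ, |α| ≤ 1 / 2 → ‖GGs (BB X) (fl θ) w α‖ * ‖1 - KK W α‖ ≤ (1000 + 2 * C) * X ^ (1 - τ) := by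
    intro α hα
    have hXτ : 0 < X ^ (1 - τ) := Real.rpow_pos_of_pos hX0 _
    have hY4 : 4 * X ≤ (⌈4 * X⌉₊ : ℝ) := Nat.le_ceil _
    have hYM := BB_len hX1'
    rw [GGs_eq]
    rcases le_or_gt (X ^ (2 * (ρ / 4))) (|α| * X ^ θ) with h | h
    · have h1 := H2 X gX2 α hα h _ _ hY4 hYM
      have h2 := KK_le hW1 α
      calc ‖GG θ ⌈4 * X⌉₊ (⌊64 * X⌋₊ + 1 - ⌈4 * X⌉₊) α‖ * ‖1 - KK W α‖ ≤ (C * X ^ (1 - σ)) * 2 :=
            mul_le_mul h1 h2 (norm_nonneg _) (by positivity)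
        _ ≤ (C * X ^ (1 - τ)) * 2 := by
            apply mul_le_mul_of_nonneg_right _ (by norm_num)
            apply mul_le_mul_of_nonneg_left _ (by linarith)
            exact Real.rpow_le_rpow_of_exponent_le hX1' (by linarith [min_le_right (ρ / 2) σ])
        _ ≤ _ := by nlinarith
    · have h1 := GG_triv θ ⌈4 * X⌉₊ (⌊64 * X⌋₊ + 1 - ⌈4 * X⌉₊) α
      have h1' : ((⌊64 * X⌋₊ + 1 - ⌈4 * X⌉₊ : ℕ) : ℝ) ≤ 65 * X := by
        have : (0 : ℝ) ≤ (⌈4 * X⌉₊ : ℝ) := by positivity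
        linarith
      have h2 := KK_small hW1 α
      have hXθ : 0 < X ^ θ := Real.rpow_pos_of_pos hX0 _
      have h3 : |α| ≤ X ^ (2 * (ρ / 4)) / X ^ θ := by
        rw [le_div_iff₀ hXθ]
        exact h.le
      have h4 : ‖1 - KK W α‖ ≤ 13 * X ^ (-(ρ / 2)) := by
        calc ‖1 - KK W α‖ ≤ 2 * Real.pi * W * |α| := h2
          _ ≤ 2 * Real.pi * (2 * X ^ (θ - ρ)) * (X ^ (2 * (ρ / 4)) / X ^ θ) := by
            have := Real.pi_pos
            gcongr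
          _ = 4 * Real.pi * (X ^ (θ - ρ) * X ^ (2 * (ρ / 4)) / X ^ θ) := by ring
          _ = 4 * Real.pi * X ^ (-(ρ / 2)) := by
            rw [← Real.rpow_add hX0, ← Real.rpow_sub hX0]
            congr 2
            ring
          _ ≤ 13 * X ^ (-(ρ / 2)) := by
            apply mul_le_mul_of_nonneg_right _ (Real.rpow_nonneg hX0.le _)
            have := Real.pi_lt_d2
            linarith
      calc ‖GG θ ⌈4 * X⌉₊ (⌊64 * X⌋₊ + 1 - ⌈4 * X⌉₊) α‖ * ‖1 - KK W α‖ ≤ (65 * X) * (13 * X ^ (-(ρ / 2))) :=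
            mul_le_mul (h1.trans h1') h4 (norm_nonneg _) (by positivity)
        _ = 845 * X ^ (1 - ρ / 2) := by
            rw [show 1 - ρ / 2 = 1 + -(ρ / 2) by ring, Real.rpow_add hX0, Real.rpow_one]
            ring
        _ ≤ 845 * X ^ (1 - τ) := by
            apply mul_le_mul_of_nonneg_left _ (by norm_num)
            exact Real.rpow_le_rpow_of_exponent_le hX1' (by linarith [min_le_left (ρ / 2) σ])
        _ ≤ _ := by nlinarith
  have key := RR_avg A (fs θ) (BB X) (fl θ) w (W := W) (N : ℤ) hB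
  -- powers
  have p1 : (1 : ℝ) ≤ (4 : ℝ) ^ θ / 4 := by
    have : (4 : ℝ) ^ (1 : ℝ) ≤ (4 : ℝ) ^ θ := Real.rpow_le_rpow_of_exponent_le (by norm_num) hθ1.le
    rw [Real.rpow_one] at this
    linarith
  have p2 : (1 : ℝ) ≤ (8 : ℝ) ^ θ / 8 := by
    have : (8 : ℝ) ^ (1 : ℝ) ≤ (8 : ℝ) ^ θ := Real.rpow_le_rpow_of_exponent_le (by norm_num) hθ1.le
    rw [Real.rpow_one] at this
    linarith
  have hXθ : 0 < X ^ θ := Real.rpow_pos_of_pos hX0 _
  have e16 : (16 * X) ^ θ = 8 ^ θ * (2 * X) ^ θ := by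
    rw [← Real.mul_rpow (by norm_num) (by linarith)]
    congr 1
    ring
  have e16' : (16 * X) ^ θ = 4 ^ θ * (4 * X) ^ θ := by
    rw [← Real.mul_rpow (by norm_num) (by linarith)]
    congr 1
    ring
  have e4 : (4 * X) ^ θ = 4 ^ θ * X ^ θ := Real.mul_rpow (by norm_num) hX0.le
  have h2X : 0 < (2 * X) ^ θ := Real.rpow_pos_of_pos (by linarith) _
  have h4X : 0 < (4 * X) ^ θ := Real.rpow_pos_of_pos (by linarith) _
  have hsmall : (m : ℝ) * (2 * X ^ q) ^ θ ≤ (2 * X) ^ θ := by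
    have e1 : (2 * X) ^ θ = (2 * X ^ q) ^ θ * (X ^ (1 - q)) ^ θ := by
      rw [← Real.mul_rpow (by positivity) (by positivity)]
      congr 1
      rw [mul_assoc, ← Real.rpow_add hX0]
      rw [show q + (1 - q) = 1 by ring, Real.rpow_one]
    rw [e1]
    have h5 : 0 ≤ (2 * X ^ q) ^ θ := Real.rpow_nonneg (by positivity) _
    nlinarith
  have hfs : ∀ x ∈ A, (fs θ x : ℝ) ≤ 2 * (2 * X) ^ θ := by
    intro x hx
    have := fs_le hq hq1 hX1' hθ0.le hx
    linarith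
  -- the average from below
  have havg : (A.card : ℝ) ^ 2 * (c * X ^ (1 - ρ)) ≤ ∑ h ∈ Finset.range W, RR A (fs θ) (BB X) (fl θ) w ((N : ℤ) - h) := by
    have e1 : ∑ h ∈ Finset.range W, RR A (fs θ) (BB X) (fl θ) w ((N : ℤ) - h) =
        ∑ a ∈ A, ∑ a' ∈ A, ∑ b ∈ BB X, ∑ h ∈ Finset.range W,
          if ((fs θ a : ℤ) + fs θ a' + fl θ b = (N : ℤ) - h) then w b else 0 := by
      unfold RR
      rw [Finset.sum_comm]
      refine Finset.sum_congr rfl fun a _ => ?_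
      rw [Finset.sum_comm]
      refine Finset.sum_congr rfl fun a' _ => ?_
      rw [Finset.sum_comm]
    rw [e1]
    have h2 : ∀ a ∈ A, ∀ a' ∈ A, c * X ^ (1 - ρ) ≤ ∑ b ∈ BB X, ∑ h ∈ Finset.range W,
        if ((fs θ a : ℤ) + fs θ a' + fl θ b = (N : ℤ) - h) then w b else 0 := by
      intro a ha a' ha'
      have f1 := hfs a ha
      have f2 := hfs a' ha'
      have hle : fs θ a + fs θ a' ≤ N := by
        have : ((fs θ a + fs θ a' : ℕ) : ℝ) ≤ N := by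
          push_cast
          nlinarith
        exact_mod_cast this
      set T : ℕ := N - (fs θ a + fs θ a') with hT
      have hTr : (T : ℝ) = N - (fs θ a + fs θ a') := by
        rw [hT, Nat.cast_sub hle]
        push_cast
        ring
      have hT1 : (4 * X) ^ θ ≤ (T : ℝ) - W + 1 := by
        have a1 : (W : ℝ) ≤ (4 * X) ^ θ / 2 := by
          have : X ^ (θ - ρ) ≤ X ^ θ := Real.rpow_le_rpow_of_exponent_le hX1' (by linarith)
          rw [e4]
          nlinarith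
        have a2 : (N : ℝ) / 2 ≤ T := by
          rw [hTr]
          nlinarith
        have a3 : 4 * (4 * X) ^ θ ≤ N := by
          rw [e16'] at hN1
          nlinarith
        linarith
      have hT2 : (T : ℝ) ≤ (32 * X) ^ θ := by
        have : (0 : ℝ) ≤ (fs θ a : ℝ) + fs θ a' := by positivity
        rw [hTr]
        linarith
      refine (H1 X gX1 W T hWl hT1 hT2).trans ?_
      refine Finset.sum_le_sum fun b _ => ?_
      by_cases hb : T < fl θ b + W ∧ fl θ b ≤ T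
      · rw [if_pos hb]
        set h : ℕ := T - fl θ b with hh
        have hmem : h ∈ Finset.range W := by
          rw [Finset.mem_range]
          omega
        have h3 := Finset.single_le_sum (f := fun h : ℕ => if ((fs θ a : ℤ) + fs θ a' + fl θ b = (N : ℤ) - h) then w b else 0)
          (fun h _ => by
            split_ifs
            · exact ww_nonneg _
            · exact le_rfl) hmem
        refine le_trans ?_ h3
        rw [if_pos (by omega)]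
      · rw [if_neg hb]
        apply Finset.sum_nonneg
        intro h _
        split_ifs
        · exact ww_nonneg _
        · exact le_rfl
    calc (A.card : ℝ) ^ 2 * (c * X ^ (1 - ρ)) = ∑ _a ∈ A, ∑ _a' ∈ A, c * X ^ (1 - ρ) := by
          simp only [Finset.sum_const, nsmul_eq_mul]
          ring
      _ ≤ _ := Finset.sum_le_sum fun a ha => Finset.sum_le_sum fun a' ha' => h2 a ha a' ha'
  -- the number of coincidences
  have hJ : (JJ A (fs θ) : ℝ) ≤ 16 ^ m * (A.card : ℝ) ^ 2 * X ^ (-θ + τ / 2) := by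
    have h1 : (JJ A (fs θ) : ℝ) ≤ TT q X m m θ := by exact_mod_cast JJ_le
    have h2 := VV_le hq.le hX1' m
    calc (JJ A (fs θ) : ℝ) ≤ TT q X m m θ := h1
      _ ≤ VV q X m * X ^ (-θ + τ / 2) := hMVj
      _ ≤ _ := mul_le_mul_of_nonneg_right h2 (Real.rpow_nonneg hX0.le _)
  -- positivity
  have hpos : 0 < RR A (fs θ) (BB X) (fl θ) w (N : ℤ) := by
    have h1 := (abs_le.1 key).1
    have hX1θ : 0 < X ^ (1 - θ) := Real.rpow_pos_of_pos hX0 _
    have h2 : (A.card : ℝ) ^ 2 * (c / 2 * X ^ (1 - θ)) ≤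
        1 / (W : ℝ) * ∑ h ∈ Finset.range W, RR A (fs θ) (BB X) (fl θ) w ((N : ℤ) - h) := by
      have h3 : (A.card : ℝ) ^ 2 * (c / 2 * X ^ (1 - θ)) ≤ 1 / (W : ℝ) * ((A.card : ℝ) ^ 2 * (c * X ^ (1 - ρ))) := by
        have h4 : X ^ (1 - ρ) = X ^ (1 - θ) * X ^ (θ - ρ) := by
          rw [← Real.rpow_add hX0]
          congr 1
          ring
        have h5 : (W : ℝ) * X ^ (1 - θ) ≤ 2 * X ^ (1 - ρ) := by
          rw [h4]
          nlinarith
        rw [one_div, ← div_eq_inv_mul, le_div_iff₀ hW0]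
        have h6 : 0 ≤ (A.card : ℝ) ^ 2 * (c / 2) := by positivity
        nlinarith [mul_le_mul_of_nonneg_left h5 h6]
      refine h3.trans ?_
      exact mul_le_mul_of_nonneg_left havg (by positivity)
    have h7 : (1000 + 2 * C) * X ^ (1 - τ) * JJ A (fs θ) ≤
        (A.card : ℝ) ^ 2 * X ^ (1 - θ) * ((1000 + 2 * C) * 16 ^ m / X ^ (τ / 2)) := by
      have h8 : X ^ (1 - τ) * X ^ (-θ + τ / 2) = X ^ (1 - θ) / X ^ (τ / 2) := by
        rw [← Real.rpow_add hX0, ← Real.rpow_sub hX0]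
        congr 1
        ring
      calc (1000 + 2 * C) * X ^ (1 - τ) * JJ A (fs θ)
          ≤ (1000 + 2 * C) * X ^ (1 - τ) * (16 ^ m * (A.card : ℝ) ^ 2 * X ^ (-θ + τ / 2)) := by
            apply mul_le_mul_of_nonneg_left hJ
            have := Real.rpow_nonneg hX0.le (1 - τ)
            have : 0 ≤ 1000 + 2 * C := by linarith
            positivity
        _ = (1000 + 2 * C) * 16 ^ m * (A.card : ℝ) ^ 2 * (X ^ (1 - τ) * X ^ (-θ + τ / 2)) := by ring
        _ = _ := by rw [h8]; ring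
    have h9 : (1000 + 2 * C) * 16 ^ m / X ^ (τ / 2) < c / 2 := by
      have hXτ : 0 < X ^ (τ / 2) := Real.rpow_pos_of_pos hX0 _
      rw [div_lt_iff₀ hXτ]
      have h10 : 2 * (1000 + 2 * C) * 16 ^ m / c < X ^ (τ / 2) := by linarith
      rw [div_lt_iff₀ hc] at h10
      linarith
    have h11 : 0 < (A.card : ℝ) ^ 2 * X ^ (1 - θ) := by positivity
    nlinarith [mul_lt_mul_of_pos_left h9 h11]
  -- extraction
  unfold RR at hpos
  obtain ⟨a, ha, h1⟩ := Finset.exists_ne_zero_of_sum_ne_zero hpos.ne'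
  obtain ⟨a', ha', h2⟩ := Finset.exists_ne_zero_of_sum_ne_zero h1
  obtain ⟨b, hb, h3⟩ := Finset.exists_ne_zero_of_sum_ne_zero h2
  have h4 : (fs θ a : ℤ) + fs θ a' + fl θ b = N := by
    by_contra hne
    exact h3 (if_neg hne)
  have hge : ∀ x ∈ A, ∀ i, 1 ≤ x i := by
    intro x hx i
    have h5 := (mem_SS hX1').1 (Fintype.mem_piFinset.1 hx i)
    have h6 := one_le_lev hq.le hX1' (i : ℕ)
    exact_mod_cast h6.trans h5.1
  refine ⟨a, a', b, hge a ha, hge a' ha', ?_, by exact_mod_cast h4⟩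
  unfold BB at hb
  rw [Finset.mem_Ico, Nat.ceil_le] at hb
  have : (1 : ℝ) ≤ b := by linarith [hb.1]
  exact_mod_cast this

/-- **all large integers** -/
theorem repr_all {θ q : ℝ} {m : ℕ} (hθ1 : 1 < θ) (hθ : ∀ n : ℕ, θ ≠ n) (hq : 0 < q) (hq1 : q < 1)
    (hMV : ∀ ε : ℝ, 0 < ε → ∀ᶠ j : ℕ in atTop, (TT q ((2 : ℝ) ^ j) m m θ : ℝ) ≤ VV q ((2 : ℝ) ^ j) m * ((2 : ℝ) ^ j) ^ (-θ + ε)) :
    ∀ᶠ N : ℕ in atTop,
      ∃ (x y : Fin m → ℕ) (z : ℕ), (∀ i, 1 ≤ x i) ∧ (∀ i, 1 ≤ y i) ∧ 1 ≤ z ∧ fs θ x + fs θ y + fl θ z = N := by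
  obtain ⟨j0, hj0⟩ := eventually_atTop.1 (repr_block hθ1 hθ hq hq1 hMV)
  have hθ0 : 0 < θ := by linarith
  have h1 : Tendsto (fun N : ℕ => (N : ℝ) ^ (1 / θ)) atTop atTop :=
    (tendsto_rpow_atTop (by positivity)).comp tendsto_natCast_atTop_atTop
  filter_upwards [h1.eventually_ge_atTop (16 * (2 : ℝ) ^ (j0 + 1))] with N hN
  set v : ℝ := (N : ℝ) ^ (1 / θ) with hv
  have hvθ : v ^ θ = N := by rw [hv, ← Real.rpow_mul (by positivity), one_div_mul_cancel hθ0.ne', Real.rpow_one]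
  have h2 : (1 : ℝ) ≤ v / 16 := by
    have : (1 : ℝ) ≤ (2 : ℝ) ^ (j0 + 1) := one_le_pow₀ (by norm_num)
    linarith
  obtain ⟨j, hj1, hj2⟩ := exists_nat_pow_near h2 (by norm_num : (1 : ℝ) < 2)
  have hj : j0 ≤ j := by
    by_contra hlt
    have h3 : (2 : ℝ) ^ (j + 1) ≤ (2 : ℝ) ^ (j0 + 1) := pow_le_pow_right₀ (by norm_num) (by omega)
    linarith
  refine hj0 j hj N ?_ ?_
  · rw [← hvθ]
    exact Real.rpow_le_rpow (by positivity) (by linarith) hθ0.le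
  · rw [← hvθ]
    apply Real.rpow_le_rpow (by linarith) _ hθ0.le
    rw [pow_succ] at hj2
    linarith

end Pool.Agent.J4H7.WE
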