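import Pool.Agent.J4H7.WE.D3

set_option autoImplicit false

/-!
# Waring's problem with almost all real exponents, part E1 (helper7)

Almost every exponent.
-/

namespace Pool.Agent.J4H7.WE

open Real Set Filter Topology MeasureTheory

/-- the mean value estimate holds for almost every exponent and all admissible parameters -/
theorem ae_mean (m : ℕ) : ∀ᵐ θ : ℝ, 1 < θ → ∀ q : ℚ, 0 < q → q < 1 → (q : ℝ) ^ 2 * θ < θ - 1 → (1 - (q : ℝ)) * θ < 1 →
    θ < ∑ i ∈ Finset.range m, (q : ℝ) ^ i → ∀ ε : ℝ, 0 < ε → ∀ᶠ j : ℕ in atTop,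
      (TT q ((2 : ℝ) ^ j) m m θ : ℝ) ≤ VV q ((2 : ℝ) ^ j) m * ((2 : ℝ) ^ j) ^ (-θ + ε) := by
  have key : ∀ᵐ θ : ℝ, ∀ q a b ε : ℚ, (0 < (q : ℝ) ∧ (q : ℝ) < 1 ∧ 1 < (a : ℝ) ∧ (a : ℝ) ≤ b ∧ 0 < (ε : ℝ) ∧
      (q : ℝ) ^ 2 * b < a - 1 ∧ (1 - (q : ℝ)) * a ≤ 1 ∧ (a : ℝ) ≤ ∑ i ∈ Finset.range m, (q : ℝ) ^ i) → θ ∈ Icc (a : ℝ) b →
      ∀ᶠ j : ℕ in atTop, (TT q ((2 : ℝ) ^ j) m m θ : ℝ) ≤ VV q ((2 : ℝ) ^ j) m * ((2 : ℝ) ^ j) ^ (-(a : ℝ) + ε) := by
    rw [ae_all_iff]
    intro q
    rw [ae_all_iff]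
    intro a
    rw [ae_all_iff]
    intro b
    rw [ae_all_iff]
    intro ε
    by_cases h : (0 < (q : ℝ) ∧ (q : ℝ) < 1 ∧ 1 < (a : ℝ) ∧ (a : ℝ) ≤ b ∧ 0 < (ε : ℝ) ∧
      (q : ℝ) ^ 2 * b < a - 1 ∧ (1 - (q : ℝ)) * a ≤ 1 ∧ (a : ℝ) ≤ ∑ i ∈ Finset.range m, (q : ℝ) ^ i)
    · obtain ⟨h1, h2, h3, h4, h5, h6, h7, h8⟩ := h
      filter_upwards [ae_interval (t := m) h1 h2 h3 h4 (by positivity) h5 h6 h7 h8] with θ hθ _ hI
      exact hθ hI
    · exact Eventually.of_forall fun θ h' => absurd h' h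
  filter_upwards [key] with θ hθ hθ1 q hq0 hq1 hA hB hC ε hε
  have hq0' : (0 : ℝ) < q := by exact_mod_cast hq0
  have hq1' : (q : ℝ) < 1 := by exact_mod_cast hq1
  -- choose ε'
  obtain ⟨ε', h1, h2⟩ := exists_rat_btwn (show (0 : ℝ) < ε / 2 by positivity)
  -- choose a slack
  set d : ℝ := θ - 1 - (q : ℝ) ^ 2 * θ with hd
  have hd0 : 0 < d := by linarith
  obtain ⟨a, ha1, ha2⟩ := exists_rat_btwn (show max (max 1 (θ - ε / 2)) (θ - d / 2) < θ by
    apply max_lt (max_lt hθ1 (by linarith)) (by linarith))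
  have ha1' : 1 < (a : ℝ) := lt_of_le_of_lt ((le_max_left _ _).trans (le_max_left _ _)) ha1
  have ha2' : θ - ε / 2 < (a : ℝ) := lt_of_le_of_lt ((le_max_right _ _).trans (le_max_left _ _)) ha1
  have ha3' : θ - d / 2 < (a : ℝ) := lt_of_le_of_lt (le_max_right _ _) ha1
  obtain ⟨b, hb1, hb2⟩ := exists_rat_btwn (show θ < θ + d / 2 by linarith)
  have hq2 : (q : ℝ) ^ 2 < 1 := by nlinarith
  have hA' : (q : ℝ) ^ 2 * b < a - 1 := by
    have : (q : ℝ) ^ 2 * b ≤ (q : ℝ) ^ 2 * θ + d / 2 := by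
      have h3 : (q : ℝ) ^ 2 * (b - θ) ≤ 1 * (b - θ) := mul_le_mul_of_nonneg_right hq2.le (by linarith)
      nlinarith
    linarith
  have hB' : (1 - (q : ℝ)) * a ≤ 1 := by nlinarith
  have h := hθ q a b ε' ⟨hq0', hq1', ha1', by linarith, h1, hA', hB', by linarith⟩ ⟨ha2.le, hb1.le⟩
  filter_upwards [h] with j hj
  refine hj.trans ?_
  have hX : (1 : ℝ) ≤ (2 : ℝ) ^ j := one_le_pow₀ (by norm_num)
  apply mul_le_mul_of_nonneg_left _ (VV_pos hX m).le
  exact Real.rpow_le_rpow_of_exponent_le hX (by linarith)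

/-- a suitable `q` -/
lemma exists_q {θ : ℝ} (hθ : 1 < θ) {m : ℕ} (hm : Real.sqrt (1 - 1 / θ) ^ (m - 1) + Real.sqrt (1 - 1 / θ) ^ m < 1) :
    ∃ q : ℚ, 0 < q ∧ q < 1 ∧ (q : ℝ) ^ 2 * θ < θ - 1 ∧ (1 - (q : ℝ)) * θ < 1 ∧
      θ < ∑ i ∈ Finset.range m, (q : ℝ) ^ i := by
  set r : ℝ := Real.sqrt (1 - 1 / θ) with hr
  have hθ0 : 0 < θ := by linarith
  have h1 : 0 < 1 - 1 / θ := by
    rw [sub_pos, div_lt_one hθ0]
    exact hθ
  have hr0 : 0 < r := Real.sqrt_pos.2 h1
  have hr2 : r ^ 2 = 1 - 1 / θ := Real.sq_sqrt h1.le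
  have hr1 : r < 1 := by
    have : r ^ 2 < 1 := by
      rw [hr2]
      have : 0 < 1 / θ := by positivity
      linarith
    nlinarith
  have hm0 : m ≠ 0 := by
    rintro rfl
    simp at hm
    linarith
  obtain ⟨k, rfl⟩ : ∃ k, m = k + 1 := ⟨m - 1, by omega⟩
  rw [Nat.add_sub_cancel] at hm
  -- the sum at r
  have hgeom : θ < ∑ i ∈ Finset.range (k + 1), r ^ i := by
    rw [geom_sum_eq hr1.ne]
    have h2 : θ = 1 / (1 - r ^ 2) := by
      rw [hr2]
      field_simp
      ring
    have h3 : 0 < 1 - r := by linarith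
    have h4 : (r ^ (k + 1) - 1) / (r - 1) = (1 - r ^ (k + 1)) / (1 - r) := by
      rw [← neg_div_neg_eq]
      congr 1 <;> ring
    rw [h4, h2, div_lt_div_iff₀ (by nlinarith) h3]
    have h5 : 0 < r * (1 - (r ^ k + r ^ (k + 1))) := mul_pos hr0 (by linarith)
    have h6 : (1 - r ^ (k + 1)) * (1 - r ^ 2) - 1 * (1 - r) = (1 - r) * (r * (1 - (r ^ k + r ^ (k + 1)))) := by
      ring
    have h7 := mul_pos h3 h5
    linarith
  have hcont : ContinuousAt (fun x : ℝ => ∑ i ∈ Finset.range (k + 1), x ^ i) r := by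
    apply Continuous.continuousAt
    fun_prop
  have hev : ∀ᶠ x in 𝓝 r, θ < ∑ i ∈ Finset.range (k + 1), x ^ i := hcont.eventually (lt_mem_nhds hgeom)
  obtain ⟨δ, hδ, hδ2⟩ := Metric.eventually_nhds_iff.1 hev
  have hmax : max (r ^ 2) (r - δ) < r := max_lt (by nlinarith) (by linarith)
  obtain ⟨q, hq1, hq2⟩ := exists_rat_btwn hmax
  have hq1a : r ^ 2 < (q : ℝ) := lt_of_le_of_lt (le_max_left _ _) hq1
  have hq1b : r - δ < (q : ℝ) := lt_of_le_of_lt (le_max_right _ _) hq1
  have hq0 : (0 : ℝ) < q := by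
    have : 0 < r ^ 2 := by positivity
    linarith
  refine ⟨q, by exact_mod_cast hq0, by exact_mod_cast hq2.trans hr1, ?_, ?_, ?_⟩
  · have h2 : (q : ℝ) ^ 2 < r ^ 2 := by nlinarith
    have h3 : r ^ 2 * θ = θ - 1 := by
      rw [hr2]
      field_simp
    nlinarith
  · have h3 : (1 - r ^ 2) * θ = 1 := by
      rw [hr2]
      field_simp
      ring
    nlinarith
  · exact hδ2 (by rw [Real.dist_eq, abs_lt]; constructor <;> linarith)

/-- the number of levels -/
lemma levels {θ : ℝ} (hθ : 1 < θ) {m : ℕ} (hm : 2 * Real.log 2 * θ ≤ m) :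
    Real.sqrt (1 - 1 / θ) ^ (m - 1) + Real.sqrt (1 - 1 / θ) ^ m < 1 := by
  set r : ℝ := Real.sqrt (1 - 1 / θ) with hr
  have hθ0 : 0 < θ := by linarith
  have h1 : 0 < 1 - 1 / θ := by
    rw [sub_pos, div_lt_one hθ0]
    exact hθ
  have hr0 : 0 < r := Real.sqrt_pos.2 h1
  have hr2 : r ^ 2 = 1 - 1 / θ := Real.sq_sqrt h1.le
  have hr1 : r < 1 := by
    have : r ^ 2 < 1 := by
      rw [hr2]
      have : 0 < 1 / θ := by positivity
      linarith
    nlinarith
  set u : ℝ := -Real.log r with hu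
  have hu0 : 0 < u := by
    have := Real.log_neg hr0 hr1
    linarith
  have hru : r = Real.exp (-u) := by rw [hu, neg_neg, Real.exp_log hr0]
  have hθu : θ = 1 / (1 - r ^ 2) := by
    rw [hr2]
    field_simp
    ring
  have hm0 : m ≠ 0 := by
    rintro rfl
    have : 0 < 2 * Real.log 2 * θ := by
      have := Real.log_pos (show (1 : ℝ) < 2 by norm_num)
      positivity
    simp at hm
    linarith
  obtain ⟨k, rfl⟩ : ∃ k, m = k + 1 := ⟨m - 1, by omega⟩
  rw [Nat.add_sub_cancel]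
  -- r ^ (k+1) (1 + 1/r) < 1
  have key : Real.log (1 + Real.exp u) < (2 * Real.log 2 * θ) * u := by
    -- 2 θ u = 2 u / (1 - e^{-2u}) ≥ u + max 1 u
    have hl1 := Real.log_two_gt_d9
    have hl2 := Real.log_two_lt_d9
    have a1 : 1 - r ^ 2 ≤ 2 * u := by
      have h3 : r ^ 2 = Real.exp (-(2 * u)) := by
        rw [hru, ← Real.exp_nat_mul]
        congr 1
        push_cast
        ring
      have := Real.add_one_le_exp (-(2 * u))
      rw [h3]
      linarith
    have a0 : 0 < 1 - r ^ 2 := by nlinarith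
    have hsinh : (1 + u) * (1 - r ^ 2) ≤ 2 * u := by
      -- (1 + u) (1 - e^{-2u}) ≤ 2u, i.e. 1 - u ≤ (1 + u) e^{-2u}
      have h3 : r ^ 2 = Real.exp (-(2 * u)) := by
        rw [hru, ← Real.exp_nat_mul]
        congr 1
        push_cast
        ring
      rw [h3]
      rcases le_or_gt 1 u with h | h
      · have := Real.exp_pos (-(2 * u))
        nlinarith
      · -- (1 - u) e^{2u} ≤ 1 + u for 0 < u < 1 : e^u (1 - u) ≤ e^{-u} (1 + u)
        have h4 : (1 - u) * Real.exp (2 * u) ≤ 1 + u := by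
          have mono : MonotoneOn (fun x : ℝ => (1 + x) - (1 - x) * Real.exp (2 * x)) (Icc 0 1) := by
            apply monotoneOn_of_deriv_nonneg (convex_Icc 0 1)
            · fun_prop
            · intro x _
              apply DifferentiableAt.differentiableWithinAt
              fun_prop
            · intro x hx
              rw [interior_Icc] at hx
              have hd : HasDerivAt (fun x : ℝ => (1 + x) - (1 - x) * Real.exp (2 * x))
                  (1 - ((0 - 1) * Real.exp (2 * x) + (1 - x) * (Real.exp (2 * x) * 2))) x := by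
                have e1 : HasDerivAt (fun x : ℝ => Real.exp (2 * x)) (Real.exp (2 * x) * 2) x := by
                  have := ((hasDerivAt_id x).const_mul 2).exp
                  simpa using this
                have e2 : HasDerivAt (fun x : ℝ => 1 - x) (0 - 1) x := (hasDerivAt_const x (1 : ℝ)).sub (hasDerivAt_id x)
                have e3 : HasDerivAt (fun x : ℝ => 1 + x) 1 x := by
                  simpa using (hasDerivAt_id x).const_add 1
                exact e3.sub (e2.mul e1)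
              rw [hd.deriv]
              -- 1 ≥ (1 - 2x) e^{2x}
              have h5 : (1 - 2 * x) * Real.exp (2 * x) ≤ 1 := by
                have h6 := Real.add_one_le_exp (-(2 * x))
                have h7 : Real.exp (-(2 * x)) * Real.exp (2 * x) = 1 := by
                  rw [← Real.exp_add]; simp
                have h8 := Real.exp_pos (2 * x)
                nlinarith
              nlinarith
          have h5 := mono (left_mem_Icc.2 zero_le_one) (show u ∈ Icc (0 : ℝ) 1 from ⟨hu0.le, h.le⟩) hu0.le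
          simp only [add_zero, sub_zero, mul_zero, Real.exp_zero, mul_one, sub_self] at h5
          linarith
        have h5 : Real.exp (-(2 * u)) * Real.exp (2 * u) = 1 := by
          rw [← Real.exp_add]; simp
        have h6 := Real.exp_pos (-(2 * u))
        nlinarith
    have b1 : 1 + u ≤ 2 * θ * u := by
      rw [hθu]
      have : (1 + u) ≤ 2 * u / (1 - r ^ 2) := by
        rw [le_div_iff₀ a0]
        exact hsinh
      calc 1 + u ≤ 2 * u / (1 - r ^ 2) := this
        _ = _ := by ring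
    have b2 : 2 * u ≤ 2 * θ * u := by nlinarith
    -- upper bounds for log (1 + e^u)
    rcases le_or_gt u (3 / 2) with h | h
    · -- 1 + e^u = 2 e^{u/2} cosh (u/2) ≤ 2 e^{u/2 + u²/8}
      have c1 : 1 + Real.exp u ≤ 2 * Real.exp (u / 2 + u ^ 2 / 8) := by
        have h3 := Real.cosh_le_exp_half_sq (u / 2)
        have h4 : 1 + Real.exp u = 2 * (Real.exp (u / 2) * Real.cosh (u / 2)) := by
          rw [Real.cosh_eq]
          have e1 : Real.exp (u / 2) * Real.exp (u / 2) = Real.exp u := by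
            rw [← Real.exp_add]; congr 1; ring
          have e2 : Real.exp (u / 2) * Real.exp (-(u / 2)) = 1 := by
            rw [← Real.exp_add]; simp
          linear_combination -e1 - e2
        rw [h4, Real.exp_add]
        have h5 : (u / 2) ^ 2 / 2 = u ^ 2 / 8 := by ring
        rw [h5] at h3
        have := Real.exp_pos (u / 2)
        nlinarith
      have c2 : Real.log (1 + Real.exp u) ≤ Real.log 2 + (u / 2 + u ^ 2 / 8) := by
        have h3 := Real.log_le_log (by have := Real.exp_pos u; linarith) c1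
        rwa [Real.log_mul (by norm_num) (Real.exp_pos _).ne', Real.log_exp] at h3
      have c3 : Real.log 2 * (1 + u) ≤ Real.log 2 * (2 * θ * u) := mul_le_mul_of_nonneg_left b1 (by linarith)
      have c4 : u ^ 2 / 8 < 0.19 * u := by nlinarith
      nlinarith
    · have c1 : 1 + Real.exp u ≤ Real.exp (u + 1 / 4) := by
        rw [Real.exp_add]
        have h3 : (4 : ℝ) ≤ Real.exp u := by
          have h4 : Real.exp (3 / 2) ≤ Real.exp u := Real.exp_le_exp.2 h.le
          have h5 : (4 : ℝ) ≤ Real.exp (3 / 2) := by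
            have h6 := Real.exp_one_gt_d9
            have h7 : Real.exp (3 / 2) ^ 2 = Real.exp 1 ^ 3 := by
              rw [← Real.exp_nat_mul, ← Real.exp_nat_mul]
              norm_num
            have h8 : (16 : ℝ) ≤ Real.exp 1 ^ 3 := by
              have : (2.7 : ℝ) ^ 3 ≤ Real.exp 1 ^ 3 := pow_le_pow_left₀ (by norm_num) (by linarith) 3
              norm_num at this ⊢
              linarith
            rw [← h7] at h8
            have h9 := Real.exp_pos (3 / 2)
            nlinarith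
          linarith
        have h4 := Real.add_one_le_exp (1 / 4 : ℝ)
        nlinarith
      have c2 : Real.log (1 + Real.exp u) ≤ u + 1 / 4 := by
        have h3 := Real.log_le_log (by have := Real.exp_pos u; linarith) c1
        rwa [Real.log_exp] at h3
      have c3 : Real.log 2 * (2 * u) ≤ Real.log 2 * (2 * θ * u) := mul_le_mul_of_nonneg_left b2 (by linarith)
      nlinarith
  have h2 : Real.log (1 + Real.exp u) < ((k + 1 : ℕ) : ℝ) * u := by
    refine key.trans_le ?_
    exact mul_le_mul_of_nonneg_right hm hu0.le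
  have h3 : 1 + Real.exp u < Real.exp (((k + 1 : ℕ) : ℝ) * u) := by
    rwa [← Real.log_lt_iff_lt_exp (by have := Real.exp_pos u; linarith)]
  have h4 : r ^ (k + 1) = Real.exp (-(((k + 1 : ℕ) : ℝ) * u)) := by
    rw [hru, ← Real.exp_nat_mul]
    congr 1
    ring
  have h5 : r ^ k = r ^ (k + 1) * Real.exp u := by
    rw [pow_succ, hru, mul_assoc, ← Real.exp_add]
    simp
  rw [h5, h4, Real.exp_neg]
  have h6 := Real.exp_pos (((k + 1 : ℕ) : ℝ) * u)
  rw [show (Real.exp (((k + 1 : ℕ) : ℝ) * u))⁻¹ * Real.exp u + (Real.exp (((k + 1 : ℕ) : ℝ) * u))⁻¹ =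
    (1 + Real.exp u) / Real.exp (((k + 1 : ℕ) : ℝ) * u) by field_simp; ring]
  rw [div_lt_one h6]
  exact h3

end Pool.Agent.J4H7.WE
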