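import Pool.Agent.J4H7.WE.E1

set_option autoImplicit false

/-!
# Waring's problem with almost all real exponents, part E2 (helper7)

The main theorem.
-/

namespace Pool.Agent.J4H7.WE

open Real Set Filter Topology MeasureTheory

lemma fl_one (θ : ℝ) : fl θ 1 = 1 := by
  unfold fl
  simp

/-- joining the variables -/
lemma join {θ : ℝ} {m s : ℕ} (hs : 2 * m + 1 ≤ s) (x y : Fin m → ℕ) (z : ℕ) (hx : ∀ i, 1 ≤ x i) (hy : ∀ i, 1 ≤ y i)
    (hz : 1 ≤ z) : ∃ w : Fin s → ℕ, (∀ i, 1 ≤ w i) ∧ ∑ i, fl θ (w i) = fs θ x + fs θ y + fl θ z + (s - (2 * m + 1)) := by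
  set f : ℕ → ℕ := fun i => if h : i < m then x ⟨i, h⟩ else if h : i - m < m then y ⟨i - m, h⟩ else
    if i = 2 * m then z else 1 with hf
  have hf1 : ∀ i, 1 ≤ f i := by
    intro i
    simp only [hf]
    split_ifs
    · exact hx _
    · exact hy _
    · exact hz
    · exact le_rfl
  refine ⟨fun i => f i, fun i => hf1 i, ?_⟩
  obtain ⟨t, rfl⟩ : ∃ t, s = m + m + 1 + t := ⟨s - (2 * m + 1), by omega⟩
  rw [Fin.sum_univ_eq_sum_range (fun i => fl θ (f i)) (m + m + 1 + t), Finset.sum_range_add, Finset.sum_range_succ,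
    Finset.sum_range_add]
  have e1 : ∑ i ∈ Finset.range m, fl θ (f i) = fs θ x := by
    unfold fs
    rw [← Fin.sum_univ_eq_sum_range (fun i => fl θ (f i)) m]
    refine Finset.sum_congr rfl fun i _ => ?_
    simp only [hf]
    rw [dif_pos i.2]
  have e2 : ∑ i ∈ Finset.range m, fl θ (f (m + i)) = fs θ y := by
    unfold fs
    rw [← Fin.sum_univ_eq_sum_range (fun i => fl θ (f (m + i))) m]
    refine Finset.sum_congr rfl fun i _ => ?_
    have h1 : ¬ (m + (i : ℕ) < m) := by omega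
    have h2 : m + (i : ℕ) - m = i := by omega
    simp only [hf]
    rw [dif_neg h1]
    simp only [h2, i.2, dif_pos]
  have e3 : f (m + m) = z := by
    simp only [hf]
    rw [dif_neg (by omega), dif_neg (by omega), if_pos (by omega)]
  have e4 : ∑ i ∈ Finset.range t, fl θ (f (m + m + 1 + i)) = t := by
    have : ∀ i ∈ Finset.range t, fl θ (f (m + m + 1 + i)) = 1 := by
      intro i _
      have : f (m + m + 1 + i) = 1 := by
        simp only [hf]
        rw [dif_neg (by omega), dif_neg (by omega), if_neg (by omega)]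
      rw [this, fl_one]
    rw [Finset.sum_congr rfl this]
    simp
  rw [e1, e2, e3, e4]
  omega

/-- **Waring's problem for almost every real exponent, with linearly many summands** -/
theorem main : ∀ᵐ θ : ℝ, 1 < θ → ∀ s : ℕ, 4 * Real.log 2 * θ + 3 ≤ s → ∃ N₀ : ℕ, ∀ N : ℕ, N₀ ≤ N →
    ∃ x : Fin s → ℕ, (∀ i, 1 ≤ x i) ∧ ∑ i, ⌊(x i : ℝ) ^ θ⌋₊ = N := by
  have h1 : ∀ᵐ θ : ℝ, ∀ n : ℕ, θ ≠ n := by
    rw [ae_all_iff]
    intro n
    have : ({(n : ℝ)} : Set ℝ)ᶜ ∈ ae (volume : Measure ℝ) := by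
      rw [compl_mem_ae_iff]
      simp
    filter_upwards [this] with θ hθ
    exact hθ
  have h2 := ae_all_iff.2 ae_mean
  filter_upwards [h1, h2] with θ hθ hmean hθ1 s hs
  set m : ℕ := ⌈2 * Real.log 2 * θ⌉₊ with hm
  have hl : 0 < Real.log 2 := Real.log_pos (by norm_num)
  have hm1 : 2 * Real.log 2 * θ ≤ m := Nat.le_ceil _
  have hm2 : (m : ℝ) < 2 * Real.log 2 * θ + 1 := Nat.ceil_lt_add_one (by positivity)
  have hms : 2 * m + 1 ≤ s := by
    have : ((2 * m + 1 : ℕ) : ℝ) < s := by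
      push_cast
      linarith
    have : 2 * m + 1 < s := by exact_mod_cast this
    omega
  obtain ⟨q, hq0, hq1, hA, hB, hC⟩ := exists_q hθ1 (levels hθ1 hm1)
  have hq0' : (0 : ℝ) < q := by exact_mod_cast hq0
  have hq1' : (q : ℝ) < 1 := by exact_mod_cast hq1
  obtain ⟨N1, hN1⟩ := eventually_atTop.1 (repr_all hθ1 hθ hq0' hq1' (hmean m hθ1 q hq0 hq1 hA hB hC))
  refine ⟨N1 + (s - (2 * m + 1)), fun N hN => ?_⟩
  obtain ⟨x, y, z, hx, hy, hz, h3⟩ := hN1 (N - (s - (2 * m + 1))) (by omega)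
  obtain ⟨w, hw1, hw2⟩ := join (θ := θ) hms x y z hx hy hz
  refine ⟨w, hw1, ?_⟩
  have h4 : ∑ i, fl θ (w i) = N := by
    rw [hw2, h3]
    omega
  exact h4

end Pool.Agent.J4H7.WE
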